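import Mathlib

set_option autoImplicit false

/-!
The closed convex hull of the powers of an operator near `-κ` contains all real polynomials in it.
-/

namespace Pool.Agent.R644.CC

open Set Filter Topology

section semigroup

variable {A : Type*} [NormedRing A] [NormedAlgebra ℝ A]

/-- closed convex hull of the powers -/
def G (T : A) : Set A := closure (convexHull ℝ (range fun n : ℕ => T ^ n))

variable (T : A)

lemma G_convex : Convex ℝ (G T) := (convex_convexHull ℝ _).closure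
lemma G_closed : IsClosed (G T) := isClosed_closure

lemma G_min {K : Set A} (h1 : ∀ n : ℕ, T ^ n ∈ K) (h2 : Convex ℝ K) (h3 : IsClosed K) : G T ⊆ K :=
  closure_minimal (convexHull_min (by rintro _ ⟨n, rfl⟩; exact h1 n) h2) h3

lemma pow_mem (n : ℕ) : T ^ n ∈ G T := subset_closure (subset_convexHull ℝ _ ⟨n, rfl⟩)

lemma mul_pow_mem (n : ℕ) {X : A} (hX : X ∈ G T) : X * T ^ n ∈ G T := by
  have h : G T ⊆ (fun X => X * T ^ n) ⁻¹' (G T) := by
    apply G_min
    · intro m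
      change T ^ m * T ^ n ∈ G T
      rw [← pow_add]; exact pow_mem T _
    · exact (G_convex T).linear_preimage (LinearMap.mulRight ℝ (T ^ n))
    · exact (G_closed T).preimage (continuous_mul_const _)
  exact h hX

lemma mul_mem {X Y : A} (hX : X ∈ G T) (hY : Y ∈ G T) : X * Y ∈ G T := by
  have h : G T ⊆ (fun Y => X * Y) ⁻¹' (G T) := by
    apply G_min
    · intro m; exact mul_pow_mem T m hX
    · exact (G_convex T).linear_preimage (LinearMap.mulLeft ℝ X)
    · exact (G_closed T).preimage (continuous_const_mul _)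
  exact h hY

lemma pow_mem' {X : A} (hX : X ∈ G T) (n : ℕ) : X ^ n ∈ G T := by
  induction n with
  | zero => simpa using pow_mem T 0
  | succ n ih => rw [pow_succ]; exact mul_mem T ih hX

variable {T} {κ : ℝ} {B : A}

lemma zero_mem (hκ : 100 ≤ κ) (hB : ‖B‖ ≤ 2) (hT : T = -(κ • (1 : A)) - B) : (0 : A) ∈ G T := by
  have hk : 0 < κ + 1 := by linarith
  have h1 : (1 / (κ + 1)) • T + (κ / (κ + 1)) • (1 : A) ∈ G T := by
    apply G_convex T (by simpa using pow_mem T 1) (by simpa using pow_mem T 0)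
    · positivity
    · have : 0 ≤ κ := by linarith
      positivity
    · field_simp; ring
  have h2 : (1 / (κ + 1)) • T + (κ / (κ + 1)) • (1 : A) = -((1 / (κ + 1)) • B) := by
    rw [hT, smul_sub, smul_neg, smul_smul, one_div, inv_mul_eq_div]
    abel
  rw [h2] at h1
  have h3 : ‖-((1 / (κ + 1)) • B)‖ < 1 := by
    rw [norm_neg, norm_smul, Real.norm_eq_abs, abs_of_pos (by positivity), one_div,
      inv_mul_lt_iff₀ hk]
    linarith
  have h4 := tendsto_pow_atTop_nhds_zero_of_norm_lt_one h3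
  exact (G_closed T).mem_of_tendsto h4 (Eventually.of_forall fun n => pow_mem' T h1 n)

lemma step (hκ : 100 ≤ κ) (h0 : (0 : A) ∈ G T) {e : A} (h : (-κ) • (1 - e) ∈ G T) :
    (-κ) • (1 - (1 - (1 - e) ^ 3) ^ 2) ∈ G T := by
  have hk : 0 < κ := by linarith
  have h3 := pow_mem' T h 3
  have h6 := pow_mem' T h 6
  have ha : 0 ≤ 2 / κ ^ 2 := by positivity
  have hb : 0 ≤ 1 / κ ^ 5 := by positivity
  have hab : 2 / κ ^ 2 + 1 / κ ^ 5 ≤ 1 := by
    have h1 : 2 / κ ^ 2 ≤ 1 / 2 := by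
      rw [div_le_div_iff₀ (by positivity) (by norm_num)]
      nlinarith
    have h2 : 1 / κ ^ 5 ≤ 1 / 2 := by
      rw [div_le_div_iff₀ (by positivity) (by norm_num)]
      have : (1 : ℝ) ≤ κ ^ 4 := one_le_pow₀ (by linarith)
      nlinarith
    linarith
  have h7 : (2 / κ ^ 2) • ((-κ) • (1 - e)) ^ 3 + (1 / κ ^ 5) • ((-κ) • (1 - e)) ^ 6 ∈ G T := by
    by_cases hz : 2 / κ ^ 2 + 1 / κ ^ 5 = 0
    · have := add_pos (show (0 : ℝ) < 2 / κ ^ 2 by positivity) (show (0 : ℝ) < 1 / κ ^ 5 by positivity)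
      linarith
    · have hs : 0 < 2 / κ ^ 2 + 1 / κ ^ 5 := lt_of_le_of_ne (by positivity) (Ne.symm hz)
      set s := 2 / κ ^ 2 + 1 / κ ^ 5 with hsdef
      have h8 : ((2 / κ ^ 2) / s) • ((-κ) • (1 - e)) ^ 3 + ((1 / κ ^ 5) / s) • ((-κ) • (1 - e)) ^ 6 ∈ G T := by
        apply G_convex T h3 h6 (by positivity) (by positivity)
        rw [← add_div, ← hsdef, div_self hs.ne']
      have h9 := G_convex T h8 h0 hs.le (sub_nonneg.2 hab) (by ring)
      rw [smul_zero, add_zero, smul_add, smul_smul, smul_smul, mul_div_cancel₀ _ hs.ne',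
        mul_div_cancel₀ _ hs.ne'] at h9
      exact h9
  have h8 : (-κ) • (1 - (1 - (1 - e) ^ 3) ^ 2) =
      (2 / κ ^ 2) • ((-κ) • (1 - e)) ^ 3 + (1 / κ ^ 5) • ((-κ) • (1 - e)) ^ 6 := by
    rw [smul_pow, smul_pow, smul_smul, smul_smul]
    have e1 : 2 / κ ^ 2 * (-κ) ^ 3 = -κ * 2 := by field_simp
    have e2 : 1 / κ ^ 5 * (-κ) ^ 6 = -κ * (-1) := by field_simp
    have e3 : (1 - (1 - (1 - e) ^ 3) ^ 2) = (2 : ℝ) • (1 - e) ^ 3 + (-1 : ℝ) • (1 - e) ^ 6 := by
      have : (1 - e) ^ 6 = (1 - e) ^ 3 * (1 - e) ^ 3 := by rw [← pow_add]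
      rw [this]
      generalize (1 - e) ^ 3 = X
      rw [two_smul, neg_one_smul]
      noncomm_ring
    rw [e1, e2, e3, smul_add, smul_smul, smul_smul]
  rw [h8]
  exact h7

lemma norm_step {e : A} (he : ‖e‖ ≤ 1 / 50) : ‖(1 - (1 - e) ^ 3) ^ 2‖ ≤ (1 / 5) * ‖e‖ := by
  have e1 : 1 - (1 - e) ^ 3 = (3 : ℝ) • e - (3 : ℝ) • (e * e) + e * e * e := by
    have h1 : (3 : ℝ) • e = e + e + e := by module
    have h2 : (3 : ℝ) • (e * e) = e * e + e * e + e * e := by module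
    rw [h1, h2]
    noncomm_ring
  have h0 := norm_nonneg e
  have e2 : ‖1 - (1 - e) ^ 3‖ ≤ 31 / 10 * ‖e‖ := by
    rw [e1]
    have h1 : ‖(3 : ℝ) • e‖ = 3 * ‖e‖ := by rw [norm_smul]; norm_num
    have h2 : ‖(3 : ℝ) • (e * e)‖ ≤ 3 * (‖e‖ * ‖e‖) := by
      rw [norm_smul]
      have := norm_mul_le e e
      norm_num
      exact this
    have h3 : ‖e * e * e‖ ≤ ‖e‖ * ‖e‖ * ‖e‖ :=
      (norm_mul_le _ _).trans (mul_le_mul_of_nonneg_right (norm_mul_le _ _) h0)
    calc ‖(3 : ℝ) • e - (3 : ℝ) • (e * e) + e * e * e‖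
        ≤ ‖(3 : ℝ) • e‖ + ‖(3 : ℝ) • (e * e)‖ + ‖e * e * e‖ :=
          (norm_add_le _ _).trans (add_le_add_left (norm_sub_le _ _) _)
      _ ≤ 3 * ‖e‖ + 3 * (‖e‖ * ‖e‖) + ‖e‖ * ‖e‖ * ‖e‖ := by linarith
      _ ≤ 31 / 10 * ‖e‖ := by nlinarith [mul_nonneg h0 h0]
  have e3 : ‖(1 - (1 - e) ^ 3) ^ 2‖ ≤ ‖1 - (1 - e) ^ 3‖ ^ 2 := norm_pow_le' _ (by norm_num)
  have h1 := norm_nonneg (1 - (1 - e) ^ 3)
  calc _ ≤ ‖1 - (1 - e) ^ 3‖ ^ 2 := e3
    _ ≤ (31 / 10 * ‖e‖) ^ 2 := pow_le_pow_left₀ h1 e2 2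
    _ ≤ (1 / 5) * ‖e‖ := by nlinarith

lemma neg_mem (hκ : 100 ≤ κ) (hB : ‖B‖ ≤ 2) (hT : T = -(κ • (1 : A)) - B) :
    (-κ) • (1 : A) ∈ G T := by
  have hk : 0 < κ := by linarith
  have h0 := zero_mem hκ hB hT
  have hseq : ∀ n : ℕ, ∃ e : A, ‖e‖ ≤ 1 / 50 * (1 / 5) ^ n ∧ (-κ) • (1 - e) ∈ G T := by
    intro n
    induction n with
    | zero =>
      refine ⟨-((1 / κ) • B), ?_, ?_⟩
      · rw [norm_neg, norm_smul, Real.norm_eq_abs, abs_of_pos (by positivity), pow_zero, mul_one,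
          one_div, inv_mul_le_iff₀ hk]
        linarith
      · have : (-κ) • (1 - -((1 / κ) • B)) = T := by
          rw [hT, sub_neg_eq_add, smul_add, smul_smul, neg_smul, neg_mul, mul_one_div_cancel hk.ne',
            neg_one_smul]
          abel
        rw [this]
        simpa using pow_mem T 1
    | succ n ih =>
      obtain ⟨e, he1, he2⟩ := ih
      have h5 : ‖e‖ ≤ 1 / 50 := he1.trans (by
        have : ((1 : ℝ) / 5) ^ n ≤ 1 := pow_le_one₀ (by norm_num) (by norm_num)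
        linarith)
      refine ⟨_, (norm_step h5).trans ?_, step hκ h0 he2⟩
      rw [pow_succ]
      linarith
  choose e he1 he2 using hseq
  have hlim : Tendsto (fun n => (-κ) • (1 - e n)) atTop (𝓝 ((-κ) • (1 - 0))) := by
    apply Tendsto.const_smul
    apply Tendsto.const_sub
    apply squeeze_zero_norm he1
    have := (tendsto_pow_atTop_nhds_zero_of_lt_one (r := (1 / 5 : ℝ)) (by norm_num) (by norm_num)).const_mul (1 / 50)
    simpa using this
  rw [sub_zero] at hlim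
  exact (G_closed T).mem_of_tendsto hlim (Eventually.of_forall he2)

lemma scalar_mem (hκ : 100 ≤ κ) (hB : ‖B‖ ≤ 2) (hT : T = -(κ • (1 : A)) - B) (c : ℝ) :
    c • (1 : A) ∈ G T := by
  have h1 := neg_mem hκ hB hT
  have hΛ : Convex ℝ {c : ℝ | c • (1 : A) ∈ G T} :=
    (G_convex T).linear_preimage (LinearMap.toSpanSingleton ℝ A 1)
  have hord := hΛ.ordConnected
  have hpow : ∀ n : ℕ, (-κ) ^ n ∈ {c : ℝ | c • (1 : A) ∈ G T} := by
    intro n
    have := pow_mem' T h1 n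
    rw [smul_pow, one_pow] at this
    exact this
  obtain ⟨n, hn⟩ := pow_unbounded_of_one_lt |c| (show (1 : ℝ) < κ by linarith)
  have hk1 : (1 : ℝ) ≤ κ := by linarith
  have e1 : (-κ) ^ (2 * n) = κ ^ (2 * n) := by rw [pow_mul, pow_mul, neg_sq]
  have e2 : (-κ) ^ (2 * n + 1) = -κ ^ (2 * n + 1) := by rw [pow_succ, e1]; ring
  have h2 : κ ^ n ≤ κ ^ (2 * n) := pow_le_pow_right₀ hk1 (by omega)
  have h3 : κ ^ n ≤ κ ^ (2 * n + 1) := pow_le_pow_right₀ hk1 (by omega)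
  obtain ⟨h4, h5⟩ := abs_lt.1 hn
  apply hord.out (hpow (2 * n + 1)) (hpow (2 * n))
  rw [e1, e2]
  constructor <;> linarith

/-- All real multiples of powers of `B` are in the closed convex hull of the powers of `T`. -/
lemma powB_mem (hκ : 100 ≤ κ) (hB : ‖B‖ ≤ 2) (hT : T = -(κ • (1 : A)) - B) (n : ℕ) :
    ∀ c : ℝ, c • (B ^ n) ∈ G T := by
  induction n with
  | zero => intro c; rw [pow_zero]; exact scalar_mem hκ hB hT c
  | succ n ih =>
    intro c
    have e1 : c • B ^ (n + 1) = (1 / 2 : ℝ) • (((-2 * c) • B ^ n) * T) + (1 / 2 : ℝ) • ((-2 * κ * c) • B ^ n) := by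
      have : B = -T - κ • (1 : A) := by rw [hT]; abel
      rw [pow_succ]
      nth_rewrite 2 [this]
      rw [mul_sub, mul_neg, mul_smul_comm, mul_one, smul_mul_assoc]
      module
    rw [e1]
    refine G_convex T ?_ (ih _) (by norm_num) (by norm_num) (by norm_num)
    simpa using mul_pow_mem T 1 (ih (-2 * c))

end semigroup

end Pool.Agent.R644.CC
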