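import Mathlib
import Pool.Agent.Helper280.Shift
import Pool.Agent.R644.CCa

set_option autoImplicit false

/-!
`-(κ+i) - S` is convex-cyclic for the unilateral shift `S`.
-/

namespace Pool.Agent.R644.CC

open Set Filter Topology Pool.Agent.Helper280
open scoped InnerProductSpace ComplexConjugate

/-- power series with geometrically bounded coefficients -/
lemma hasFPS (a : ℕ → ℂ) (r : ℝ) (hr : 0 < r) (M : ℝ) (h : ∀ n, ‖a n‖ * r ^ n ≤ M) :
    HasFPowerSeriesOnBall (fun v => ∑' n, a n * v ^ n) (FormalMultilinearSeries.ofScalars ℂ a) 0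
      (ENNReal.ofReal r) := by
  have h1 : ENNReal.ofReal r ≤ (FormalMultilinearSeries.ofScalars ℂ a).radius := by
    apply FormalMultilinearSeries.le_radius_of_bound _ M
    intro n
    rw [FormalMultilinearSeries.ofScalars_norm, Real.coe_toNNReal r hr.le]
    exact h n
  have h2 := (FormalMultilinearSeries.ofScalars ℂ a).hasFPowerSeriesOnBall
    (lt_of_lt_of_le (ENNReal.ofReal_pos.2 hr) h1)
  have h3 : (FormalMultilinearSeries.ofScalars ℂ a).sum = fun v => ∑' n, a n * v ^ n := by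
    funext v
    exact FormalMultilinearSeries.ofScalars_sum_eq a v
  rw [← h3]
  exact h2.mono (ENNReal.ofReal_pos.2 hr) h1

lemma coeff_zero (a : ℕ → ℂ) (r : ℝ) (hr : 0 < r) (M : ℝ) (h : ∀ n, ‖a n‖ * r ^ n ≤ M)
    (h0 : ∀ᶠ v in 𝓝 (0 : ℂ), ∑' n, a n * v ^ n = 0) (n : ℕ) : a n = 0 := by
  have h1 := (hasFPS a r hr M h).hasFPowerSeriesAt
  have h2 := h1.eq_zero_of_eventually h0
  have h3 := (FormalMultilinearSeries.ofScalars_series_eq_zero ℂ).1 h2
  exact congrFun h3 n

lemma kv_mem (v : ℂ) (hv : ‖v‖ < 1) : Memℓp (fun n : ℕ => v ^ n) 2 := by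
  apply memlp_of_sq
  have : (fun n : ℕ => ‖v ^ n‖ ^ 2) = fun n => (‖v‖ ^ 2) ^ n := by
    funext n; rw [norm_pow, ← pow_mul, ← pow_mul, mul_comm]
  rw [this]
  exact summable_geometric_of_lt_one (by positivity) (by nlinarith [norm_nonneg v])

open Classical in
/-- the kernel vector `(vⁿ)` -/
noncomputable def kv (v : ℂ) : HH := if h : ‖v‖ < 1 then ⟨fun n => v ^ n, kv_mem v h⟩ else 0

lemma kv_apply {v : ℂ} (hv : ‖v‖ < 1) (n : ℕ) : (kv v : ℕ → ℂ) n = v ^ n := by
  rw [kv, dif_pos hv]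

lemma kv_norm_sq {v : ℂ} (hv : ‖v‖ < 1) : ‖kv v‖ ^ 2 = (1 - ‖v‖ ^ 2)⁻¹ := by
  have h := norm_sq_hasSum (kv v)
  have h2 : HasSum (fun n : ℕ => (‖v‖ ^ 2) ^ n) ((1 - ‖v‖ ^ 2)⁻¹) :=
    hasSum_geometric_of_lt_one (by positivity) (by nlinarith [norm_nonneg v])
  have h3 : (fun n => ‖(kv v : ℕ → ℂ) n‖ ^ 2) = fun n => (‖v‖ ^ 2) ^ n := by
    funext n; rw [kv_apply hv, norm_pow, ← pow_mul, ← pow_mul, mul_comm]
  rw [h3] at h
  exact h.unique h2

lemma hasSum_eb (x : HH) : HasSum (fun n => (x : ℕ → ℂ) n • eb n) x := by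
  have h := lp.hasSum_single (p := 2) (by norm_num) x
  have e : (fun n => (x : ℕ → ℂ) n • eb n) = fun i => lp.single 2 i ((x : ℕ → ℂ) i) := by
    funext n
    unfold eb
    rw [← lp.single_smul, smul_eq_mul, mul_one]
  rw [e]
  exact h

lemma eb_norm (n : ℕ) : ‖eb n‖ = 1 := by
  unfold eb
  rw [lp.norm_single (by norm_num)]
  simp

lemma f_kv (f : HH →L[ℂ] ℂ) {v : ℂ} (hv : ‖v‖ < 1) : f (kv v) = ∑' n, f (eb n) * v ^ n := by
  have h := (hasSum_eb (kv v)).mapL f
  rw [← h.tsum_eq]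
  apply tsum_congr
  intro n
  rw [map_smul, kv_apply hv, smul_eq_mul, mul_comm]

lemma f_bound (f : HH →L[ℂ] ℂ) (n : ℕ) : ‖f (eb n)‖ * 1 ^ n ≤ ‖f‖ := by
  have := f.le_opNorm (eb n)
  rw [eb_norm] at this
  simpa using this

lemma f_zero (f : HH →L[ℂ] ℂ) (h : ∀ n, f (eb n) = 0) : f = 0 := by
  ext x
  have h1 := (hasSum_eb x).mapL f
  have h2 : (fun n => f ((x : ℕ → ℂ) n • eb n)) = fun _ => 0 := by
    funext n
    rw [map_smul, h n, smul_zero]
  rw [h2] at h1
  exact h1.unique hasSum_zero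

/-- `B = i + S` -/
noncomputable def Bop : HH →L[ℂ] HH := Complex.I • (1 : HH →L[ℂ] HH) + S

lemma Bop_apply (x : HH) : Bop x = Complex.I • x + S x := rfl

lemma Bop_norm : ‖Bop‖ ≤ 2 := by
  unfold Bop
  refine (norm_add_le _ _).trans ?_
  have h1 : ‖Complex.I • (1 : HH →L[ℂ] HH)‖ ≤ 1 := by
    rw [norm_smul, Complex.norm_I, one_mul]
    exact ContinuousLinearMap.norm_id_le
  have h2 := S_opnorm
  linarith

/-- the change of variable -/
noncomputable def vv (u : ℂ) : ℂ := -u / (1 + Complex.I * u)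

lemma normSq_den (u : ℂ) : Complex.normSq (1 + Complex.I * u) - Complex.normSq u = 1 - 2 * u.im := by
  rw [Complex.normSq_apply, Complex.normSq_apply]
  simp
  ring

lemma den_ne {u : ℂ} (hu : u.im < 1 / 2) : 1 + Complex.I * u ≠ 0 := by
  intro h
  have h1 := normSq_den u
  rw [h, Complex.normSq_zero] at h1
  have := Complex.normSq_nonneg u
  linarith

lemma vv_norm_sq {u : ℂ} (hu : u.im < 1 / 2) :
    1 - ‖vv u‖ ^ 2 = (1 - 2 * u.im) / ‖1 + Complex.I * u‖ ^ 2 := by
  have h1 := normSq_den u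
  have h2 : 0 < ‖1 + Complex.I * u‖ ^ 2 := by
    have := den_ne hu
    positivity
  unfold vv
  rw [norm_div, norm_neg, div_pow, eq_div_iff h2.ne', sub_mul, div_mul_cancel₀ _ h2.ne', one_mul,
    Complex.sq_norm, Complex.sq_norm]
  exact h1

lemma vv_lt {u : ℂ} (hu : u.im < 1 / 2) : ‖vv u‖ < 1 := by
  have h1 := vv_norm_sq hu
  have h2 : 0 < ‖1 + Complex.I * u‖ ^ 2 := by
    have := den_ne hu
    positivity
  have h3 : 0 < (1 - 2 * u.im) / ‖1 + Complex.I * u‖ ^ 2 := div_pos (by linarith) h2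
  have h4 : ‖vv u‖ ^ 2 < 1 := by linarith
  by_contra h5
  push Not at h5
  nlinarith

lemma kv_eq {u : ℂ} (hu : u.im < 1 / 2) :
    kv (vv u) + u • Bop (kv (vv u)) = (1 + Complex.I * u) • eb 0 := by
  have hv := vv_lt hu
  have hd := den_ne hu
  apply HH_ext
  intro n
  rw [Bop_apply]
  cases n with
  | zero =>
    simp only [lp.coeFn_add, lp.coeFn_smul, Pi.add_apply, Pi.smul_apply, smul_eq_mul, S_zero,
      kv_apply hv, eb_apply]
    simp [mul_comm]
  | succ n =>
    simp only [lp.coeFn_add, lp.coeFn_smul, Pi.add_apply, Pi.smul_apply, smul_eq_mul, S_succ,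
      kv_apply hv, eb_apply]
    have h1 : vv u * (1 + Complex.I * u) = -u := by
      unfold vv
      rw [div_mul_cancel₀ _ hd]
    have h2 : vv u ^ (n + 1) + u * (Complex.I * vv u ^ (n + 1) + vv u ^ n) =
        vv u ^ n * (vv u * (1 + Complex.I * u) + u) := by ring
    rw [h2, h1]
    simp

/-- `K(u) = f((1+uB)⁻¹ e₀)` -/
noncomputable def KK (f : HH →L[ℂ] ℂ) (u : ℂ) : ℂ := f (kv (vv u)) / (1 + Complex.I * u)

lemma KK_real (f : HH →L[ℂ] ℂ) (h : ∀ n : ℕ, (f ((Bop ^ n) (eb 0))).re = 0) (u : ℝ)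
    (hu : |u| < 1 / 2) : (KK f u).re = 0 := by
  set X : HH →L[ℂ] HH := -((u : ℂ) • Bop) with hX
  have hXn : ‖X‖ < 1 := by
    rw [hX, norm_neg, norm_smul, Complex.norm_real, Real.norm_eq_abs]
    have := Bop_norm
    nlinarith [abs_nonneg u, norm_nonneg Bop]
  have him : ((u : ℂ)).im < 1 / 2 := by simp
  have h1 := kv_eq him
  have hd := den_ne him
  set r : HH := (1 + Complex.I * (u : ℂ))⁻¹ • kv (vv u) with hr
  have h2 : (1 - X) r = eb 0 := by
    rw [hX, sub_neg_eq_add, hr, map_smul]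
    change (1 + Complex.I * (u : ℂ))⁻¹ • (kv (vv u) + (u : ℂ) • Bop (kv (vv u))) = _
    rw [h1, smul_smul, inv_mul_cancel₀ hd, one_smul]
  have h3 := geom_series_mul_neg X hXn
  have h4 : r = (∑' i : ℕ, X ^ i) (eb 0) := by
    rw [← h2, ← mul_apply_eq_comp, h3]; rfl
  have h5 : HasSum (fun i : ℕ => X ^ i) (∑' i : ℕ, X ^ i) := (summable_geometric_of_norm_lt_one hXn).hasSum
  have h6 := h5.mapL (f ∘L (ContinuousLinearMap.apply ℂ HH (eb 0)))
  have h7 := h6.mapL Complex.reCLM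
  have h8 : KK f u = f ((∑' i : ℕ, X ^ i) (eb 0)) := by
    rw [← h4, hr, map_smul, KK, smul_eq_mul, div_eq_inv_mul]
  rw [h8]
  have h9 : (fun i : ℕ => Complex.reCLM ((f ∘L (ContinuousLinearMap.apply ℂ HH (eb 0))) (X ^ i))) = fun _ => 0 := by
    funext i
    change (f ((X ^ i) (eb 0))).re = 0
    have e : X ^ i = (((-u : ℝ) : ℂ) ^ i) • Bop ^ i := by
      rw [hX, ← neg_smul, smul_pow]; push_cast; rfl
    rw [e]
    change (f ((((-u : ℝ) : ℂ) ^ i) • (Bop ^ i) (eb 0))).re = 0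
    rw [map_smul, smul_eq_mul, ← Complex.ofReal_pow, Complex.re_ofReal_mul, h i, mul_zero]
  rw [h9] at h7
  exact (hasSum_zero.unique h7).symm

lemma KK_diff (f : HH →L[ℂ] ℂ) {u : ℂ} (hu : u.im < 1 / 2) : DifferentiableAt ℂ (KK f) u := by
  have hF := (hasFPS (fun n => f (eb n)) 1 one_pos ‖f‖ (f_bound f)).differentiableOn
  have hv := vv_lt hu
  have h1 : DifferentiableAt ℂ (fun v => ∑' n, f (eb n) * v ^ n) (vv u) := by
    apply (hF (vv u) ?_).differentiableAt
    · rw [Metric.eball_ofReal]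
      exact Metric.isOpen_ball.mem_nhds (by simpa using hv)
    · rw [Metric.eball_ofReal]
      simpa using hv
  have hvd : DifferentiableAt ℂ vv u := by
    unfold vv
    have := den_ne hu
    fun_prop (disch := assumption)
  have h2 : DifferentiableAt ℂ (fun u => (∑' n, f (eb n) * (vv u) ^ n) / (1 + Complex.I * u)) u := by
    apply DifferentiableAt.div
    · exact h1.comp u hvd
    · fun_prop
    · exact den_ne hu
  apply h2.congr_of_eventuallyEq
  have h3 : ∀ᶠ z : ℂ in 𝓝 u, z.im < 1 / 2 := Complex.continuous_im.continuousAt.eventually (gt_mem_nhds hu)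
  filter_upwards [h3] with z hz
  rw [KK, f_kv f (vv_lt hz)]

lemma KK_bound (f : HH →L[ℂ] ℂ) {u : ℂ} (hu : u.im < 1 / 2) :
    ‖KK f u‖ ^ 2 * (1 - 2 * u.im) ≤ ‖f‖ ^ 2 := by
  have h1 := kv_norm_sq (vv_lt hu)
  rw [vv_norm_sq hu] at h1
  have h2 := f.le_opNorm (kv (vv u))
  have h3 : 0 < ‖1 + Complex.I * u‖ ^ 2 := by
    have := den_ne hu
    positivity
  have h4 : 0 < 1 - 2 * u.im := by linarith
  rw [KK, norm_div, div_pow, div_mul_eq_mul_div, div_le_iff₀ h3]
  have h5 : ‖f (kv (vv u))‖ ^ 2 ≤ (‖f‖ * ‖kv (vv u)‖) ^ 2 := pow_le_pow_left₀ (norm_nonneg _) h2 2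
  rw [mul_pow, h1] at h5
  calc ‖f (kv (vv u))‖ ^ 2 * (1 - 2 * u.im)
      ≤ (‖f‖ ^ 2 * ((1 - 2 * u.im) / ‖1 + Complex.I * u‖ ^ 2)⁻¹) * (1 - 2 * u.im) :=
        mul_le_mul_of_nonneg_right h5 h4.le
    _ = ‖f‖ ^ 2 * ‖1 + Complex.I * u‖ ^ 2 := by field_simp

/-- A functional whose real part vanishes on the real polynomials in `B` at `e₀` is zero. -/
lemma key (f : HH →L[ℂ] ℂ) (h : ∀ n : ℕ, (f ((Bop ^ n) (eb 0))).re = 0) : f = 0 := by
  -- reflected function
  have hstrip : ∀ u : ℂ, |u.im| < 1 / 2 → KK f u = -conj (KK f (conj u)) := by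
    set U : Set ℂ := {u : ℂ | |u.im| < 1 / 2} with hU
    have hUo : IsOpen U := isOpen_lt (by fun_prop) (by fun_prop)
    have hUc : Convex ℝ U := by
      have : U = Complex.im ⁻¹' (Ioo (-(1 / 2)) (1 / 2)) := by
        ext u
        simp only [hU, mem_ofPred_eq, mem_preimage, mem_Ioo, abs_lt]
      rw [this]
      exact (convex_Ioo _ _).linear_preimage Complex.imLm
    have hd : DifferentiableOn ℂ (fun u => KK f u + conj (KK f (conj u))) U := by
      intro u hu
      have hu' := abs_lt.1 (show |u.im| < 1 / 2 from hu)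
      have h1 : DifferentiableAt ℂ (KK f) u := KK_diff f hu'.2
      have h2 : DifferentiableAt ℂ (KK f) (conj u) := KK_diff f (by
        rw [Complex.conj_im]; linarith [hu'.1])
      have h3 : DifferentiableAt ℂ (conj ∘ KK f ∘ conj) u := by
        have := h2.conj_conj
        rwa [Complex.conj_conj] at this
      exact (h1.add h3).differentiableWithinAt
    have han := hd.analyticOnNhd hUo
    have hfreq : ∃ᶠ z in 𝓝[≠] (0 : ℂ), KK f z + conj (KK f (conj z)) = 0 := by
      have htend : Tendsto (fun n : ℕ => (((1 : ℝ) / ((n : ℝ) + 1) : ℝ) : ℂ)) atTop (𝓝[≠] (0 : ℂ)) := by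
        rw [tendsto_nhdsWithin_iff]
        constructor
        · have := (Complex.continuous_ofReal.tendsto 0).comp (tendsto_one_div_add_atTop_nhds_zero_nat (𝕜 := ℝ))
          rw [Complex.ofReal_zero] at this
          exact this
        · refine Eventually.of_forall fun n => ?_
          simp only [mem_compl_iff, mem_singleton_iff, Complex.ofReal_eq_zero]
          positivity
      refine htend.frequently (Eventually.frequently ?_)
      filter_upwards [eventually_ge_atTop 2] with n hn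
      have hn' : (2 : ℝ) ≤ n := by exact_mod_cast hn
      have h1 : |(1 : ℝ) / ((n : ℝ) + 1)| < 1 / 2 := by
        rw [abs_of_pos (by positivity), div_lt_div_iff₀ (by positivity) (by norm_num)]
        linarith
      have h2 := KK_real f h _ h1
      rw [Complex.conj_ofReal, Complex.add_conj, h2]
      simp
    have h0 : (0 : ℂ) ∈ U := by simp [hU]
    have := han.eqOn_zero_of_preconnected_of_frequently_eq_zero hUc.isPreconnected h0 hfreq
    intro u hu
    exact eq_neg_of_add_eq_zero_left (this hu)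
  classical
  let g : ℂ → ℂ := fun u => if u.im ≤ 0 then KK f u else -conj (KK f (conj u))
  have hg1 : ∀ u : ℂ, u.im < 1 / 2 → g u = KK f u := by
    intro u hu
    by_cases h1 : u.im ≤ 0
    · simp only [g, if_pos h1]
    · simp only [g, if_neg h1]
      push Not at h1
      exact (hstrip u (by rw [abs_of_pos h1]; exact hu)).symm
  have hg2 : ∀ u : ℂ, -(1 / 2) < u.im → g u = -conj (KK f (conj u)) := by
    intro u hu
    by_cases h1 : u.im ≤ 0
    · simp only [g, if_pos h1]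
      exact hstrip u (by rw [abs_of_nonpos h1]; linarith)
    · simp only [g, if_neg h1]
  have hgd : Differentiable ℂ g := by
    intro u
    by_cases h1 : u.im < 1 / 2
    · apply (KK_diff f h1).congr_of_eventuallyEq
      have h3 : ∀ᶠ z : ℂ in 𝓝 u, z.im < 1 / 2 := Complex.continuous_im.continuousAt.eventually (gt_mem_nhds h1)
      filter_upwards [h3] with z hz
      exact hg1 z hz
    · push Not at h1
      have h2 : DifferentiableAt ℂ (KK f) (conj u) := KK_diff f (by
        rw [Complex.conj_im]; linarith)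
      have h3 : DifferentiableAt ℂ (conj ∘ KK f ∘ conj) u := by
        have := h2.conj_conj
        rwa [Complex.conj_conj] at this
      apply h3.neg.congr_of_eventuallyEq
      have h4 : ∀ᶠ z : ℂ in 𝓝 u, -(1 / 2) < z.im :=
        Complex.continuous_im.continuousAt.eventually (lt_mem_nhds (by linarith))
      filter_upwards [h4] with z hz
      exact hg2 z hz
  have hKb : ∀ u : ℂ, u.im ≤ 0 → ‖KK f u‖ ≤ ‖f‖ := by
    intro u hu
    have h1 := KK_bound f (show u.im < 1 / 2 by linarith)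
    have h2 : ‖KK f u‖ ^ 2 ≤ ‖f‖ ^ 2 := by nlinarith [sq_nonneg ‖KK f u‖]
    exact (pow_le_pow_iff_left₀ (norm_nonneg _) (norm_nonneg _) two_ne_zero).1 h2
  have hgb : Bornology.IsBounded (range g) := by
    rw [isBounded_iff_forall_norm_le]
    refine ⟨‖f‖, ?_⟩
    rintro _ ⟨u, rfl⟩
    by_cases h1 : u.im ≤ 0
    · simp only [g, if_pos h1]
      exact hKb u h1
    · simp only [g, if_neg h1, norm_neg, RCLike.norm_conj]
      push Not at h1
      exact hKb _ (by rw [Complex.conj_im]; linarith)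
  have hconst := fun u => hgd.apply_eq_apply_of_bounded hgb u 0
  have hg0 : g 0 = 0 := by
    have h1 : ∀ y : ℝ, 0 ≤ y → ‖g 0‖ ^ 2 * (1 + 2 * y) ≤ ‖f‖ ^ 2 := by
      intro y hy
      have h2 : (-(y : ℂ) * Complex.I).im = -y := by simp
      have h3 := KK_bound f (u := -(y : ℂ) * Complex.I) (by rw [h2]; linarith)
      rw [← hg1 _ (by rw [h2]; linarith), hconst, h2] at h3
      linarith
    by_contra hne
    have h4 : 0 < ‖g 0‖ ^ 2 := by positivity
    have h5 := h1 (‖f‖ ^ 2 / ‖g 0‖ ^ 2) (by positivity)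
    have h6 : ‖g 0‖ ^ 2 * (1 + 2 * (‖f‖ ^ 2 / ‖g 0‖ ^ 2)) = ‖g 0‖ ^ 2 + 2 * ‖f‖ ^ 2 := by
      field_simp
    rw [h6] at h5
    nlinarith [sq_nonneg ‖f‖]
  have hK0 : ∀ u : ℂ, u.im < 1 / 2 → KK f u = 0 := by
    intro u hu
    rw [← hg1 u hu, hconst, hg0]
  apply f_zero
  apply coeff_zero _ 1 one_pos ‖f‖ (f_bound f)
  have hball : Metric.ball (0 : ℂ) (1 / 4) ∈ 𝓝 (0 : ℂ) := Metric.ball_mem_nhds _ (by norm_num)
  filter_upwards [hball] with v hv
  rw [mem_ball_zero_iff] at hv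
  have hd : 1 + Complex.I * v ≠ 0 := by
    intro h1
    have h2 : Complex.I * v = -1 := by rw [eq_neg_iff_add_eq_zero, add_comm]; exact h1
    have h3 := congrArg norm h2
    rw [norm_mul, Complex.norm_I, norm_neg, norm_one, one_mul] at h3
    linarith
  have hdn : 3 / 4 ≤ ‖1 + Complex.I * v‖ := by
    have h1 := norm_sub_norm_le (1 : ℂ) (-(Complex.I * v))
    rw [norm_neg, norm_mul, Complex.norm_I, norm_one, one_mul, sub_neg_eq_add] at h1
    linarith
  set u : ℂ := -v / (1 + Complex.I * v) with hu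
  have hun : ‖u‖ < 1 / 2 := by
    rw [hu, norm_div, norm_neg, div_lt_iff₀ (by linarith)]
    linarith
  have huim : u.im < 1 / 2 := lt_of_le_of_lt ((le_abs_self _).trans (Complex.abs_im_le_norm u)) hun
  have hd2 : 1 + Complex.I * u = 1 / (1 + Complex.I * v) := by
    rw [hu]; field_simp; ring
  have hvv : vv u = v := by
    unfold vv
    have h5 : u * (1 + Complex.I * v) = -v := div_mul_cancel₀ _ hd
    rw [hd2, div_div_eq_mul_div, div_one, neg_mul, h5, neg_neg]
  have h1 := hK0 u huim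
  rw [KK, hvv, div_eq_zero_iff] at h1
  rcases h1 with h1 | h1
  · rw [← f_kv f (by linarith)]; exact h1
  · exact absurd h1 (den_ne huim)

/-- `-κ - B` is convex-cyclic with vector `e₀`. -/
theorem convexCyclic (κ : ℝ) (hκ : 100 ≤ κ) (T : HH →L[ℂ] HH)
    (hT : T = -(κ • (1 : HH →L[ℂ] HH)) - Bop) :
    Dense (convexHull ℝ (range fun n : ℕ => (T ^ n) (eb 0))) := by
  by_contra hnd
  rw [dense_iff_closure_eq, eq_univ_iff_forall] at hnd
  push Not at hnd
  obtain ⟨x, hx⟩ := hnd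
  obtain ⟨f, u, hf1, hf2⟩ := RCLike.geometric_hahn_banach_closed_point (𝕜 := ℂ)
    ((convex_convexHull ℝ (range fun n : ℕ => (T ^ n) (eb 0))).closure) isClosed_closure hx
  have hG : ∀ X ∈ G T, X (eb 0) ∈ closure (convexHull ℝ (range fun n : ℕ => (T ^ n) (eb 0))) := by
    have : G T ⊆ (fun X : HH →L[ℂ] HH => X (eb 0)) ⁻¹'
        closure (convexHull ℝ (range fun n : ℕ => (T ^ n) (eb 0))) := by
      apply G_min
      · intro n
        exact subset_closure (subset_convexHull ℝ _ ⟨n, rfl⟩)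
      · exact ((convex_convexHull ℝ _).closure).linear_preimage
          ((ContinuousLinearMap.apply ℂ HH (eb 0)).restrictScalars ℝ).toLinearMap
      · exact isClosed_closure.preimage (ContinuousLinearMap.apply ℂ HH (eb 0)).continuous
    exact this
  have hre : ∀ n : ℕ, (f ((Bop ^ n) (eb 0))).re = 0 := by
    intro n
    have h1 : ∀ c : ℝ, c * (f ((Bop ^ n) (eb 0))).re < u := by
      intro c
      have h2 : (f ((c • Bop ^ n) (eb 0))).re < u := hf1 _ (hG _ (powB_mem hκ Bop_norm hT n c))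
      have h3 : f ((c • Bop ^ n) (eb 0)) = (c : ℂ) * f ((Bop ^ n) (eb 0)) := by
        have : (c • Bop ^ n) (eb 0) = (c : ℂ) • (Bop ^ n) (eb 0) := rfl
        rw [this, map_smul, smul_eq_mul]
      rw [h3] at h2
      simpa using h2
    by_contra hne
    have h2 := h1 (u / (f ((Bop ^ n) (eb 0))).re)
    rw [div_mul_cancel₀ _ hne] at h2
    exact lt_irrefl _ h2
  have hf0 := key f hre
  have h1 := hf1 _ (hG _ (pow_mem T 0))
  rw [hf0] at h1 hf2
  simp at h1 hf2
  linarith

end Pool.Agent.R644.CC
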