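import Mathlib

set_option autoImplicit false

/-!
Uniform bounds for convex polynomials from a bound on the disc with centre `κ + i` and radius 1.
-/

namespace Pool.Agent.R644.CC

open Set Filter Topology Polynomial Real
open scoped ComplexConjugate

/-- nonnegative coefficients, sum one -/
def CvxPoly (p : ℝ[X]) : Prop := (∀ n, 0 ≤ p.coeff n) ∧ p.eval 1 = 1

section poly

variable {p : ℝ[X]} (hp : CvxPoly p)
include hp

lemma aeval_le (z : ℂ) : ‖aeval z p‖ ≤ p.eval ‖z‖ := by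
  rw [aeval_eq_sum_range, eval_eq_sum_range]
  refine (norm_sum_le _ _).trans (Finset.sum_le_sum fun n _ => ?_)
  rw [norm_smul, norm_pow, Real.norm_eq_abs, abs_of_nonneg (hp.1 n)]

lemma eval_mono {x y : ℝ} (hx : 0 ≤ x) (hxy : x ≤ y) : p.eval x ≤ p.eval y := by
  rw [eval_eq_sum_range, eval_eq_sum_range]
  exact Finset.sum_le_sum fun n _ => mul_le_mul_of_nonneg_left (pow_le_pow_left₀ hx hxy n) (hp.1 n)

lemma one_le_eval {x : ℝ} (hx : 1 ≤ x) : 1 ≤ p.eval x := by
  have := eval_mono hp zero_le_one hx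
  rwa [hp.2] at this

lemma coeff_le {x : ℝ} (hx : 0 ≤ x) (n : ℕ) : p.coeff n * x ^ n ≤ p.eval x := by
  by_cases hn : n ∈ Finset.range (p.natDegree + 1)
  · rw [eval_eq_sum_range]
    exact Finset.single_le_sum (f := fun i => p.coeff i * x ^ i)
      (fun i _ => mul_nonneg (hp.1 i) (pow_nonneg hx i)) hn
  · rw [Finset.mem_range, not_lt] at hn
    rw [coeff_eq_zero_of_natDegree_lt (by omega), zero_mul, eval_eq_sum_range]
    exact Finset.sum_nonneg fun i _ => mul_nonneg (hp.1 i) (pow_nonneg hx i)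

end poly

/-- Jensen's inequality -/
lemma jensen_le (p : ℝ[X]) (c ρ : ℝ) (hρ : 0 < ρ) (hc : 0 < p.eval c) :
    Real.log (p.eval c) ≤ circleAverage (fun z : ℂ => Real.log ‖aeval z p‖) c ρ := by
  have han : AnalyticOnNhd ℂ (fun z : ℂ => aeval z p) (Metric.closedBall (c : ℂ) |ρ|) := by
    intro z _
    have : Differentiable ℂ (fun z : ℂ => aeval z p) := by
      have h : (fun z : ℂ => aeval z p) = fun z => (p.map (algebraMap ℝ ℂ)).eval z := by
        funext z
        rw [eval_map_algebraMap]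
      rw [h]
      exact Polynomial.differentiable _
    exact this.analyticAt z
  have hval : aeval (c : ℂ) p = ((p.eval c : ℝ) : ℂ) := by
    have := Polynomial.aeval_algebraMap_apply ℂ c p
    simpa [Polynomial.coe_aeval_eq_eval] using this
  have hne : (fun z : ℂ => aeval z p) (c : ℂ) ≠ 0 := by
    simp only [hval]
    exact_mod_cast hc.ne'
  have hJ := han.circleAverage_log_norm hρ.ne' hne
  rw [hJ]
  simp only [hval, Complex.norm_real, Real.norm_eq_abs, abs_of_pos hc]
  have : 0 ≤ ∑ᶠ u, (MeromorphicOn.divisor (fun z : ℂ => aeval z p) (Metric.closedBall (c : ℂ) |ρ|) u : ℝ) *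
      Real.log (ρ * ‖(c : ℂ) - u‖⁻¹) := by
    apply finsum_nonneg
    intro u
    by_cases hu : u ∈ Metric.closedBall (c : ℂ) |ρ|
    · refine mul_nonneg (mod_cast (MeromorphicOn.AnalyticOnNhd.divisor_nonneg han) u) ?_
      rw [Metric.mem_closedBall, dist_comm, dist_eq_norm, abs_of_pos hρ] at hu
      by_cases h0 : ‖(c : ℂ) - u‖ = 0
      · rw [h0]; simp
      · have h1 : 0 < ‖(c : ℂ) - u‖ := lt_of_le_of_ne (norm_nonneg _) (Ne.symm h0)
        apply Real.log_nonneg
        rw [← div_eq_mul_inv, le_div_iff₀ h1, one_mul]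
        exact hu
    · rw [Function.locallyFinsuppWithin.apply_eq_zero_of_notMem _ hu]
      simp
  linarith

lemma ind_integral (α β : ℝ) (hαβ : α ≤ β) :
    IntervalIntegrable ((Icc α β).indicator (fun _ => (1 : ℝ))) MeasureTheory.volume 0 (2 * π) ∧
    ∫ θ in (0 : ℝ)..(2 * π), (Icc α β).indicator (fun _ => (1 : ℝ)) θ ≤ β - α := by
  have hpi : (0 : ℝ) ≤ 2 * π := by positivity
  constructor
  · rw [intervalIntegrable_iff_integrableOn_Ioc_of_le hpi]
    apply MeasureTheory.IntegrableOn.indicator _ measurableSet_Icc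
    exact MeasureTheory.integrableOn_const (by rw [Real.volume_Ioc]; exact ENNReal.ofReal_ne_top)
  · rw [intervalIntegral.integral_of_le hpi, MeasureTheory.setIntegral_indicator measurableSet_Icc,
      MeasureTheory.setIntegral_const, smul_eq_mul, mul_one]
    have h1 : MeasureTheory.volume.real (Ioc 0 (2 * π) ∩ Icc α β) ≤ MeasureTheory.volume.real (Icc α β) :=
      MeasureTheory.measureReal_mono inter_subset_right (by simp)
    rw [Real.volume_real_Icc_of_le hαβ] at h1
    exact h1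

lemma sin_good {s θ : ℝ} (hs : 0 ≤ s) (hs1 : s ≤ 1) (h1 : π * s / 2 ≤ θ) (h2 : θ ≤ π - π * s / 2) :
    s ≤ Real.sin θ := by
  have hpi := Real.pi_pos
  have h0 : 0 ≤ π * s / 2 := by positivity
  have key : ∀ x : ℝ, π * s / 2 ≤ x → x ≤ π / 2 → s ≤ Real.sin x := by
    intro x hx1 hx2
    have h3 := Real.mul_le_sin (h0.trans hx1) hx2
    have h4 : s ≤ 2 / π * x := by
      rw [div_mul_eq_mul_div, le_div_iff₀ hpi]
      linarith
    linarith
  rcases le_total θ (π / 2) with h | h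
  · exact key θ h1 h
  · rw [← Real.sin_pi_sub]
    exact key (π - θ) (by linarith) (by linarith)

/-- circle average estimate -/
lemma avg_le (f : ℂ → ℝ) (c : ℂ) (ρ : ℝ) (hf : CircleIntegrable f c ρ) (a b s : ℝ) (ha : 0 ≤ a)
    (hb : 0 ≤ b) (hs : 0 ≤ s) (hs1 : s ≤ 1)
    (hall : ∀ θ : ℝ, f (circleMap c ρ θ) ≤ b)
    (hgood : ∀ θ : ℝ, s ≤ |Real.sin θ| → f (circleMap c ρ θ) ≤ a) :
    circleAverage f c ρ ≤ a + s * b := by
  have hpi := Real.pi_pos
  set δ : ℝ := π * s / 2 with hδ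
  have hδ0 : 0 ≤ δ := by positivity
  have hδ1 : δ ≤ π / 2 := by rw [hδ]; nlinarith
  obtain ⟨i1, I1⟩ := ind_integral 0 δ hδ0
  obtain ⟨i2, I2⟩ := ind_integral (π - δ) (π + δ) (by linarith)
  obtain ⟨i3, I3⟩ := ind_integral (2 * π - δ) (2 * π) (by linarith)
  let g : ℝ → ℝ := fun θ => a + b * ((Icc 0 δ).indicator (fun _ => (1 : ℝ)) θ +
    (Icc (π - δ) (π + δ)).indicator (fun _ => (1 : ℝ)) θ + (Icc (2 * π - δ) (2 * π)).indicator (fun _ => (1 : ℝ)) θ)
  have hgi : IntervalIntegrable g MeasureTheory.volume 0 (2 * π) :=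
    intervalIntegrable_const.add (((i1.add i2).add i3).const_mul b)
  have hnn : ∀ (t : Set ℝ) (θ : ℝ), 0 ≤ t.indicator (fun _ => (1 : ℝ)) θ := fun t θ =>
    indicator_nonneg (fun _ _ => zero_le_one) θ
  have hle : ∀ θ ∈ Icc (0 : ℝ) (2 * π), f (circleMap c ρ θ) ≤ g θ := by
    intro θ hθ
    have n1 := hnn (Icc 0 δ) θ
    have n2 := hnn (Icc (π - δ) (π + δ)) θ
    have n3 := hnn (Icc (2 * π - δ) (2 * π)) θ
    by_cases c1 : θ ∈ Icc 0 δ
    · have e1 : (Icc 0 δ).indicator (fun _ => (1 : ℝ)) θ = 1 := indicator_of_mem c1 _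
      have := hall θ
      simp only [g]
      rw [e1]
      nlinarith [mul_nonneg hb n2, mul_nonneg hb n3]
    by_cases c2 : θ ∈ Icc (π - δ) (π + δ)
    · have e1 : (Icc (π - δ) (π + δ)).indicator (fun _ => (1 : ℝ)) θ = 1 := indicator_of_mem c2 _
      have := hall θ
      simp only [g]
      rw [e1]
      nlinarith [mul_nonneg hb n1, mul_nonneg hb n3]
    by_cases c3 : θ ∈ Icc (2 * π - δ) (2 * π)
    · have e1 : (Icc (2 * π - δ) (2 * π)).indicator (fun _ => (1 : ℝ)) θ = 1 := indicator_of_mem c3 _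
      have := hall θ
      simp only [g]
      rw [e1]
      nlinarith [mul_nonneg hb n1, mul_nonneg hb n2]
    · have h1 : s ≤ |Real.sin θ| := by
        simp only [mem_Icc, not_and_or, not_le] at c1 c2 c3
        have d1 : δ < θ := by
          rcases c1 with h | h
          · exact absurd hθ.1 (not_le.2 h)
          · exact h
        have d3 : θ < 2 * π - δ := by
          rcases c3 with h | h
          · exact h
          · exact absurd hθ.2 (not_le.2 h)
        rcases c2 with h | h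
        · exact (sin_good hs hs1 d1.le h.le).trans (le_abs_self _)
        · have := sin_good (θ := θ - π) hs hs1 (by rw [← hδ]; linarith) (by rw [← hδ]; linarith)
          rw [Real.sin_sub_pi] at this
          exact this.trans (neg_le_abs _)
      have := hgood θ h1
      simp only [g]
      nlinarith [mul_nonneg hb n1, mul_nonneg hb n2, mul_nonneg hb n3]
  have hint : ∫ θ in (0 : ℝ)..(2 * π), f (circleMap c ρ θ) ≤ ∫ θ in (0 : ℝ)..(2 * π), g θ :=
    intervalIntegral.integral_mono_on (by positivity) hf hgi hle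
  have hgint : ∫ θ in (0 : ℝ)..(2 * π), g θ ≤ 2 * π * a + b * (2 * π * s) := by
    simp only [g]
    rw [intervalIntegral.integral_add intervalIntegrable_const (((i1.add i2).add i3).const_mul b),
      intervalIntegral.integral_const, intervalIntegral.integral_const_mul,
      intervalIntegral.integral_add (i1.add i2) i3, intervalIntegral.integral_add i1 i2]
    have h5 : δ - 0 + (π + δ - (π - δ)) + (2 * π - (2 * π - δ)) = 2 * π * s := by rw [hδ]; ring
    have h6 := add_le_add (add_le_add I1 I2) I3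
    rw [h5] at h6
    have := mul_le_mul_of_nonneg_left h6 hb
    simp only [smul_eq_mul, sub_zero]
    linarith
  rw [circleAverage_def, smul_eq_mul, inv_mul_le_iff₀ (by positivity)]
  calc _ ≤ _ := hint
    _ ≤ _ := hgint
    _ = _ := by ring

/-- one step of the iteration -/
lemma one_step {p : ℝ[X]} (hp : CvxPoly p) (κ : ℝ) (hκ : 100 ≤ κ) (C : ℝ) (hC : 0 ≤ C)
    (hb : ∀ w : ℂ, ‖w‖ < 1 → ‖aeval ((κ : ℂ) + Complex.I + w) p‖ ≤ Real.exp (C / (1 - ‖w‖) ^ 2))
    (d : ℝ) (hd : 0 < d) (hd1 : d ≤ 1 / 200) :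
    Real.log (p.eval (κ - d)) ≤ C / d ^ 4 + 5 * d * Real.log (p.eval (κ - d / 2)) := by
  have hc1 : 1 ≤ κ - d := by linarith
  have hc2 : 1 ≤ κ - d / 2 := by linarith
  have hL : 0 ≤ Real.log (p.eval (κ - d / 2)) := Real.log_nonneg (one_le_eval hp hc2)
  refine (jensen_le p (κ - d) (d / 2) (by linarith)
    (lt_of_lt_of_le one_pos (one_le_eval hp hc1))).trans ?_
  apply avg_le
  · apply MeromorphicOn.circleIntegrable_log_norm
    intro z _
    have : Differentiable ℂ (fun z : ℂ => aeval z p) := by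
      have h : (fun z : ℂ => aeval z p) = fun z => (p.map (algebraMap ℝ ℂ)).eval z := by
        funext z
        rw [eval_map_algebraMap]
      rw [h]
      exact Polynomial.differentiable _
    exact (this.analyticAt z).meromorphicAt
  · positivity
  · exact hL
  · linarith
  · linarith
  · intro θ
    have h1 : ‖circleMap ((κ - d : ℝ) : ℂ) (d / 2) θ‖ ≤ κ - d / 2 := by
      have : circleMap ((κ - d : ℝ) : ℂ) (d / 2) θ = ((κ - d : ℝ) : ℂ) + circleMap 0 (d / 2) θ := by
        simp [circleMap]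
      rw [this]
      refine (norm_add_le _ _).trans ?_
      rw [norm_circleMap_zero, Complex.norm_real, Real.norm_eq_abs, abs_of_pos (by linarith : 0 < κ - d),
        abs_of_pos (by linarith : 0 < d / 2)]
      linarith
    have h2 := (aeval_le hp _).trans (eval_mono hp (norm_nonneg _) h1)
    by_cases h0 : ‖aeval (circleMap ((κ - d : ℝ) : ℂ) (d / 2) θ) p‖ = 0
    · rw [h0, Real.log_zero]; exact hL
    · exact Real.log_le_log (lt_of_le_of_ne (norm_nonneg _) (Ne.symm h0)) h2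
  · intro θ hθ
    -- the bound at good points, for `sin θ > 0`
    have key : ∀ φ : ℝ, 5 * d ≤ Real.sin φ →
        ‖aeval (circleMap ((κ - d : ℝ) : ℂ) (d / 2) φ) p‖ ≤ Real.exp (C / d ^ 4) := by
      intro φ hφ
      set w : ℂ := circleMap ((κ - d : ℝ) : ℂ) (d / 2) φ - κ - Complex.I with hw
      have hwre : w.re = -d + d / 2 * Real.cos φ := by
        rw [hw, circleMap]
        simp [Complex.exp_re, Complex.exp_im]
        ring
      have hwim : w.im = d / 2 * Real.sin φ - 1 := by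
        rw [hw, circleMap]
        simp [Complex.exp_re, Complex.exp_im]
      have hwn : ‖w‖ ^ 2 ≤ 1 - 11 / 4 * d ^ 2 := by
        rw [Complex.sq_norm, Complex.normSq_apply, hwre, hwim]
        have h3 := Real.sin_sq_add_cos_sq φ
        have h4 := Real.neg_one_le_cos φ
        have h5 : (-d + d / 2 * Real.cos φ) * (-d + d / 2 * Real.cos φ) +
            (d / 2 * Real.sin φ - 1) * (d / 2 * Real.sin φ - 1) =
            1 + d ^ 2 * (1 - Real.cos φ) + d ^ 2 / 4 * (Real.sin φ ^ 2 + Real.cos φ ^ 2) - d * Real.sin φ := by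
          ring
        rw [h5, h3]
        nlinarith [mul_le_mul_of_nonneg_left hφ hd.le, mul_nonneg (sq_nonneg d) (by linarith : 0 ≤ 1 + Real.cos φ)]
      have hw1 : ‖w‖ < 1 := by
        by_contra h6
        push Not at h6
        nlinarith [pow_pos hd 2]
      have h7 : d ^ 2 ≤ 1 - ‖w‖ := by nlinarith [norm_nonneg w]
      have h8 := hb w hw1
      have h9 : (κ : ℂ) + Complex.I + w = circleMap ((κ - d : ℝ) : ℂ) (d / 2) φ := by rw [hw]; ring
      rw [h9] at h8
      refine h8.trans (Real.exp_le_exp.2 ?_)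
      have h10 : d ^ 4 ≤ (1 - ‖w‖) ^ 2 := by
        have := pow_le_pow_left₀ (by positivity) h7 2
        calc d ^ 4 = (d ^ 2) ^ 2 := by ring
          _ ≤ _ := this
      exact div_le_div_of_nonneg_left hC (by positivity) h10
    have hbd : ‖aeval (circleMap ((κ - d : ℝ) : ℂ) (d / 2) θ) p‖ ≤ Real.exp (C / d ^ 4) := by
      rcases le_abs.1 hθ with h | h
      · exact key θ h
      · have h1 := key (-θ) (by rw [Real.sin_neg]; exact h)
        have h2 : circleMap ((κ - d : ℝ) : ℂ) (d / 2) (-θ) = conj (circleMap ((κ - d : ℝ) : ℂ) (d / 2) θ) := by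
          simp only [circleMap, map_add, map_mul, Complex.conj_ofReal, ← Complex.exp_conj, Complex.conj_I]
          simp
        rw [h2, Polynomial.aeval_conj, RCLike.norm_conj] at h1
        exact h1
    by_cases h0 : ‖aeval (circleMap ((κ - d : ℝ) : ℂ) (d / 2) θ) p‖ = 0
    · rw [h0, Real.log_zero]; positivity
    · have := Real.log_le_log (lt_of_le_of_ne (norm_nonneg _) (Ne.symm h0)) hbd
      rwa [Real.log_exp] at this

/-- The uniform bound. -/
lemma uniform_bound {p : ℝ[X]} (hp : CvxPoly p) (κ : ℝ) (hκ : 100 ≤ κ) (C : ℝ) (hC : 0 ≤ C)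
    (hb : ∀ w : ℂ, ‖w‖ < 1 → ‖aeval ((κ : ℂ) + Complex.I + w) p‖ ≤ Real.exp (C / (1 - ‖w‖) ^ 2)) :
    p.eval (κ - 1 / 200) ≤ Real.exp (2 * C * 200 ^ 4) := by
  set Linf := Real.log (p.eval κ) with hLinf
  have hLinf0 : 0 ≤ Linf := Real.log_nonneg (one_le_eval hp (by linarith))
  have hle : ∀ d : ℝ, 0 < d → d ≤ 1 / 200 → Real.log (p.eval (κ - d)) ≤ Linf := by
    intro d hd hd1
    apply Real.log_le_log (lt_of_lt_of_le one_pos (one_le_eval hp (by linarith)))
    exact eval_mono hp (by linarith) (by linarith)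
  have key : ∀ m : ℕ, ∀ d : ℝ, 0 < d → d ≤ 1 / 200 →
      Real.log (p.eval (κ - d)) - 2 * C / d ^ 4 ≤ (1 / 40) ^ m * Linf := by
    intro m
    induction m with
    | zero =>
      intro d hd hd1
      have := hle d hd hd1
      have h2 : 0 ≤ 2 * C / d ^ 4 := by positivity
      rw [pow_zero, one_mul]
      linarith
    | succ m ih =>
      intro d hd hd1
      have h1 := one_step hp κ hκ C hC hb d hd hd1
      have h2 := ih (d / 2) (by linarith) (by linarith)
      have e1 : 2 * C / (d / 2) ^ 4 = 16 * (2 * C / d ^ 4) := by field_simp; ring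
      rw [e1] at h2
      have h3 : 0 ≤ C / d ^ 4 := by positivity
      have e2 : 2 * C / d ^ 4 = 2 * (C / d ^ 4) := by ring
      rw [e2] at h2 ⊢
      obtain ⟨c, hc⟩ : ∃ c, c = C / d ^ 4 := ⟨_, rfl⟩
      rw [← hc] at h1 h2 h3 ⊢
      have h4 : 5 * d * Real.log (p.eval (κ - d / 2)) ≤ 5 * d * ((1 / 40) ^ m * Linf + 16 * (2 * c)) :=
        mul_le_mul_of_nonneg_left (by linarith) (by linarith)
      have h5 : 0 ≤ (1 / 40 : ℝ) ^ m * Linf := by positivity
      have h6 : 5 * d * ((1 / 40) ^ m * Linf) ≤ 1 / 40 * ((1 / 40) ^ m * Linf) :=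
        mul_le_mul_of_nonneg_right (by linarith) h5
      have h7 : 5 * d * (16 * (2 * c)) ≤ 1 / 40 * (16 * (2 * c)) :=
        mul_le_mul_of_nonneg_right (by linarith) (by linarith)
      rw [pow_succ]
      rw [mul_add] at h4
      linarith
  have h1 := fun m => key m (1 / 200) (by norm_num) le_rfl
  have h2 : Real.log (p.eval (κ - 1 / 200)) - 2 * C / (1 / 200) ^ 4 ≤ 0 := by
    have htend : Tendsto (fun m : ℕ => (1 / 40 : ℝ) ^ m * Linf) atTop (𝓝 0) := by
      have := (tendsto_pow_atTop_nhds_zero_of_lt_one (r := (1 / 40 : ℝ)) (by norm_num) (by norm_num)).mul_const Linf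
      simpa using this
    exact ge_of_tendsto' htend h1
  have h3 : Real.log (p.eval (κ - 1 / 200)) ≤ 2 * C * 200 ^ 4 := by
    have : 2 * C / (1 / 200) ^ 4 = 2 * C * 200 ^ 4 := by field_simp
    linarith
  have h4 : 0 < p.eval (κ - 1 / 200) := lt_of_lt_of_le one_pos (one_le_eval hp (by linarith))
  exact (Real.log_le_iff_le_exp h4).1 h3

/-- Lower bound for zero-free functions. -/
lemma lower (g : ℂ → ℂ) (hg : DifferentiableOn ℂ g (Metric.ball 0 1)) (hne : ∀ w : ℂ, ‖w‖ < 1 → g w ≠ 0)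
    (N : ℝ) (hN : ∀ w : ℂ, ‖w‖ < 1 → ‖g w‖ ^ 2 * (1 - ‖w‖ ^ 2) ≤ N ^ 2) :
    ∃ C : ℝ, 0 ≤ C ∧ ∀ w : ℂ, ‖w‖ < 1 → Real.exp (-(C / (1 - ‖w‖) ^ 2)) ≤ ‖g w‖ := by
  -- logarithm
  obtain ⟨q, hqd, hq⟩ : ∃ q : ℂ → ℂ, DifferentiableOn ℂ q (Metric.ball 0 1) ∧
      ∀ w : ℂ, ‖w‖ < 1 → Complex.exp (q w) = g w := by
    have hgd : DifferentiableOn ℂ (deriv g) (Metric.ball 0 1) := hg.deriv Metric.isOpen_ball
    have hquo : DifferentiableOn ℂ (fun z => deriv g z / g z) (Metric.ball 0 1) :=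
      hgd.div hg (fun z hz => hne z (by simpa using hz))
    obtain ⟨F, hF⟩ := hquo.isExactOn_ball
    have hFd : DifferentiableOn ℂ F (Metric.ball 0 1) := fun z hz => (hF z hz).differentiableAt.differentiableWithinAt
    have hconst : ∀ w ∈ Metric.ball (0 : ℂ) 1, g w * Complex.exp (-F w) = g 0 * Complex.exp (-F 0) := by
      intro w hw
      have h0 : (0 : ℂ) ∈ Metric.ball (0 : ℂ) 1 := by simp
      apply Metric.isOpen_ball.is_const_of_deriv_eq_zero (f := fun w => g w * Complex.exp (-F w))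
        (convex_ball (0 : ℂ) 1).isPreconnected _ _ hw h0
      · exact hg.mul (hFd.neg.cexp)
      · intro z hz
        have h1 : HasDerivAt g (deriv g z) z :=
          (hg.differentiableAt (Metric.isOpen_ball.mem_nhds hz)).hasDerivAt
        have h2 : HasDerivAt (fun w => g w * Complex.exp (-F w)) (deriv g z * Complex.exp (-F z) +
            g z * (Complex.exp (-F z) * -(deriv g z / g z))) z := h1.mul ((hF z hz).neg.cexp)
        rw [h2.deriv]
        have := hne z (by simpa using hz)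
        simp only [Pi.zero_apply]
        field_simp
        ring
    have hc : g 0 * Complex.exp (-F 0) ≠ 0 := mul_ne_zero (hne 0 (by simp)) (Complex.exp_ne_zero _)
    refine ⟨fun w => F w + Complex.log (g 0 * Complex.exp (-F 0)), hFd.add_const _, ?_⟩
    intro w hw
    rw [Complex.exp_add, Complex.exp_log hc, ← hconst w (by simpa using hw), mul_comm (g w), ← mul_assoc,
      ← Complex.exp_add, add_neg_cancel, Complex.exp_zero, one_mul]
  have hre : ∀ w : ℂ, ‖w‖ < 1 → (q w).re ≤ N ^ 2 + 1 / (1 - ‖w‖) := by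
    intro w hw
    have h1 := hN w hw
    have h2 : 0 < 1 - ‖w‖ := by linarith
    have h3 : 0 < 1 - ‖w‖ ^ 2 := by nlinarith [norm_nonneg w]
    have h4 : ‖g w‖ = Real.exp (q w).re := by rw [← hq w hw, Complex.norm_exp]
    have h5 : ‖g w‖ ^ 2 ≤ (N ^ 2 + 1) * (1 / (1 - ‖w‖)) := by
      rw [mul_one_div, le_div_iff₀ h2]
      have h6 : 1 - ‖w‖ ≤ 1 - ‖w‖ ^ 2 := by nlinarith [norm_nonneg w]
      nlinarith [sq_nonneg ‖g w‖, mul_le_mul_of_nonneg_left h6 (sq_nonneg ‖g w‖)]
    have h7 : Real.log (‖g w‖ ^ 2) = 2 * (q w).re := by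
      rw [Real.log_pow, h4, Real.log_exp]; norm_num
    have h8 : Real.log (‖g w‖ ^ 2) ≤ Real.log ((N ^ 2 + 1) * (1 / (1 - ‖w‖))) :=
      Real.log_le_log (by rw [h4]; positivity) h5
    rw [Real.log_mul (by positivity) (by positivity), h7] at h8
    have h9 := Real.log_le_sub_one_of_pos (show 0 < N ^ 2 + 1 by positivity)
    have h10 := Real.log_le_sub_one_of_pos (show 0 < 1 / (1 - ‖w‖) by positivity)
    have h11 : 0 < 1 / (1 - ‖w‖) := by positivity
    nlinarith [sq_nonneg N]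
  refine ⟨4 * N ^ 2 + 8 + 4 * ‖q 0‖, by positivity, fun w hw => ?_⟩
  have ht : 0 < 1 - ‖w‖ := by linarith
  have ht1 : 1 - ‖w‖ ≤ 1 := by linarith [norm_nonneg w]
  set R : ℝ := (1 + ‖w‖) / 2 with hR
  have hR0 : 0 < R := by have := norm_nonneg w; positivity
  have hR1 : R < 1 := by rw [hR]; linarith
  have hRw : R - ‖w‖ = (1 - ‖w‖) / 2 := by rw [hR]; ring
  have h1R : 1 - R = (1 - ‖w‖) / 2 := by rw [hR]; ring
  have hsub : Metric.ball (0 : ℂ) R ⊆ Metric.ball 0 1 := Metric.ball_subset_ball hR1.le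
  have hM : 0 < N ^ 2 + 1 / (1 - R) := by
    have : 0 < 1 - R := by linarith
    positivity
  have hmaps : Set.MapsTo q (Metric.ball 0 R) {z | z.re ≤ N ^ 2 + 1 / (1 - R)} := by
    intro z hz
    rw [mem_ball_zero_iff] at hz
    have h1 := hre z (by linarith)
    have h2 : 1 / (1 - ‖z‖) ≤ 1 / (1 - R) := one_div_le_one_div_of_le (by linarith) (by linarith)
    show (q z).re ≤ _
    linarith
  have hBC := Complex.borelCaratheodory hM (hqd.mono hsub) hmaps hR0
    (z := w) (by rw [mem_ball_zero_iff, hR]; linarith)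
  rw [hRw, h1R] at hBC
  have h4 : ‖g w‖ = Real.exp (q w).re := by rw [← hq w hw, Complex.norm_exp]
  rw [h4]
  apply Real.exp_le_exp.2
  have h5 : -‖q w‖ ≤ (q w).re := neg_le_of_abs_le (Complex.abs_re_le_norm _)
  refine le_trans ?_ h5
  apply neg_le_neg
  refine hBC.trans ?_
  set t := 1 - ‖w‖ with htdef
  have e1 : 2 * (N ^ 2 + 1 / (t / 2)) * ‖w‖ / (t / 2) ≤ (4 * N ^ 2 + 8) / t ^ 2 := by
    rw [div_le_div_iff₀ (by positivity) (by positivity)]
    have h6 : 2 * (N ^ 2 + 1 / (t / 2)) * ‖w‖ * t ^ 2 = (2 * N ^ 2 * t + 4) * ‖w‖ * t := by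
      field_simp
      ring
    rw [h6]
    have h7 : (2 * N ^ 2 * t + 4) * ‖w‖ ≤ 2 * N ^ 2 + 4 := by
      have h8 : 2 * N ^ 2 * t + 4 ≤ 2 * N ^ 2 + 4 := by nlinarith [sq_nonneg N]
      have h9 : 0 ≤ 2 * N ^ 2 * t + 4 := by positivity
      nlinarith [norm_nonneg w]
    nlinarith
  have e2 : ‖q 0‖ * (R + ‖w‖) / (t / 2) ≤ (4 * ‖q 0‖) / t ^ 2 := by
    rw [div_le_div_iff₀ (by positivity) (by positivity)]
    have h6 : R + ‖w‖ ≤ 2 := by linarith
    have h7 := norm_nonneg (q 0)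
    have h8 : ‖q 0‖ * (R + ‖w‖) * t ^ 2 ≤ ‖q 0‖ * 2 * t := by
      have : (R + ‖w‖) * t ^ 2 ≤ 2 * t := by nlinarith [norm_nonneg w]
      nlinarith
    linarith
  calc _ ≤ (4 * N ^ 2 + 8) / t ^ 2 + (4 * ‖q 0‖) / t ^ 2 := add_le_add e1 e2
    _ = _ := by rw [← add_div]

end Pool.Agent.R644.CC
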