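import Mathlib
import Pool.Agent.R644.CCb
import Pool.Agent.R644.CCc

set_option autoImplicit false

/-!
`(κ+i) + S` is not convex-cyclic for the unilateral shift `S`.
-/

namespace Pool.Agent.R644.CC

open Set Filter Topology Pool.Agent.Helper280 Polynomial
open scoped InnerProductSpace ComplexConjugate

/-- evaluation at `w` -/
noncomputable def ev (w : ℂ) : HH →L[ℂ] ℂ := innerSL ℂ (kv (conj w))

lemma conj_lt {w : ℂ} (hw : ‖w‖ < 1) : ‖conj w‖ < 1 := by rwa [RCLike.norm_conj]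

lemma ev_eb {w : ℂ} (hw : ‖w‖ < 1) (n : ℕ) : ev w (eb n) = w ^ n := by
  change ⟪kv (conj w), eb n⟫_ℂ = _
  rw [inner_eb_right, kv_apply (conj_lt hw), map_pow, Complex.conj_conj]

lemma ev_S {w : ℂ} (hw : ‖w‖ < 1) (x : HH) : ev w (S x) = w * ev w x := by
  have h : (ev w).comp S - w • ev w = 0 := by
    apply f_zero
    intro n
    change ev w (S (eb n)) - w * ev w (eb n) = 0
    rw [S_eb, ev_eb hw, ev_eb hw, pow_succ]
    ring
  have h2 := congrArg (fun f : HH →L[ℂ] ℂ => f x) h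
  change ev w (S x) - w * ev w x = 0 at h2
  exact sub_eq_zero.1 h2

lemma ev_bound {w : ℂ} (hw : ‖w‖ < 1) (x : HH) : ‖ev w x‖ ^ 2 * (1 - ‖w‖ ^ 2) ≤ ‖x‖ ^ 2 := by
  have h1 : ‖ev w x‖ ≤ ‖kv (conj w)‖ * ‖x‖ := norm_inner_le_norm (𝕜 := ℂ) (kv (conj w)) x
  have h2 := kv_norm_sq (conj_lt hw)
  rw [RCLike.norm_conj] at h2
  have h3 : 0 < 1 - ‖w‖ ^ 2 := by nlinarith [norm_nonneg w]
  have h4 := pow_le_pow_left₀ (norm_nonneg _) h1 2
  rw [mul_pow, h2] at h4
  calc ‖ev w x‖ ^ 2 * (1 - ‖w‖ ^ 2) ≤ ((1 - ‖w‖ ^ 2)⁻¹ * ‖x‖ ^ 2) * (1 - ‖w‖ ^ 2) :=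
        mul_le_mul_of_nonneg_right h4 h3.le
    _ = ‖x‖ ^ 2 := by field_simp

lemma ev_series (y : HH) {w : ℂ} (hw : ‖w‖ < 1) : ev w y = ∑' n, (y : ℕ → ℂ) n * w ^ n := by
  have h := (hasSum_eb y).mapL (ev w)
  rw [← h.tsum_eq]
  apply tsum_congr
  intro n
  rw [map_smul, ev_eb hw, smul_eq_mul]

lemma ev_diff (y : HH) : DifferentiableOn ℂ (fun w => ev w y) (Metric.ball 0 1) := by
  have hb : ∀ n, ‖(y : ℕ → ℂ) n‖ * 1 ^ n ≤ ‖y‖ := by
    intro n
    rw [one_pow, mul_one]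
    exact lp.norm_apply_le_norm (by norm_num) y n
  have hF := (hasFPS (fun n => (y : ℕ → ℂ) n) 1 one_pos ‖y‖ hb).differentiableOn
  rw [Metric.eball_ofReal] at hF
  apply hF.congr
  intro w hw
  exact ev_series y (by simpa using hw)

lemma hull_poly (κ : ℝ) (A : HH →L[ℂ] HH) (hA : A = κ • (1 : HH →L[ℂ] HH) + Bop) (y x : HH)
    (hx : x ∈ convexHull ℝ (range fun n : ℕ => (A ^ n) y)) :
    ∃ p : ℝ[X], CvxPoly p ∧ ∀ w : ℂ, ‖w‖ < 1 →
      ev w x = aeval ((κ : ℂ) + Complex.I + w) p * ev w y := by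
  have h : convexHull ℝ (range fun n : ℕ => (A ^ n) y) ⊆ {x | ∃ p : ℝ[X], CvxPoly p ∧
      ∀ w : ℂ, ‖w‖ < 1 → ev w x = aeval ((κ : ℂ) + Complex.I + w) p * ev w y} := by
    apply convexHull_min
    · rintro _ ⟨n, rfl⟩
      refine ⟨X ^ n, ⟨fun m => ?_, by simp⟩, ?_⟩
      · rw [coeff_X_pow]; split_ifs <;> norm_num
      · intro w hw
        simp only [map_pow, aeval_X]
        induction n with
        | zero => simp
        | succ n ih =>
          have e1 : (A ^ (n + 1)) y = (κ : ℂ) • ((A ^ n) y) + (Complex.I • ((A ^ n) y) + S ((A ^ n) y)) := by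
            rw [pow_succ', mul_apply_eq_comp]
            nth_rewrite 1 [hA]
            rfl
          rw [e1, map_add, map_add, map_smul, map_smul, ev_S hw, ih, pow_succ, smul_eq_mul, smul_eq_mul]
          ring
    · rintro x ⟨p, hp, hpx⟩ z ⟨q, hq, hqz⟩ a b ha hb hab
      refine ⟨C a * p + C b * q, ⟨fun n => ?_, ?_⟩, ?_⟩
      · rw [coeff_add, coeff_C_mul, coeff_C_mul]
        exact add_nonneg (mul_nonneg ha (hp.1 n)) (mul_nonneg hb (hq.1 n))
      · rw [eval_add, eval_mul, eval_mul, eval_C, eval_C, hp.2, hq.2, mul_one, mul_one, hab]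
      · intro w hw
        have e1 : a • x + b • z = (a : ℂ) • x + (b : ℂ) • z := rfl
        rw [e1, map_add, map_smul, map_smul, hpx w hw, hqz w hw, map_add, map_mul, map_mul, aeval_C, aeval_C]
        simp only [smul_eq_mul, Complex.coe_algebraMap]
        ring
  exact h hx

lemma ev_ne {A : HH →L[ℂ] HH} {κ : ℝ} (hA : A = κ • (1 : HH →L[ℂ] HH) + Bop) {y : HH}
    (hy : Dense (convexHull ℝ (range fun n : ℕ => (A ^ n) y))) {w : ℂ} (hw : ‖w‖ < 1) : ev w y ≠ 0 := by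
  intro h0
  have h1 : convexHull ℝ (range fun n : ℕ => (A ^ n) y) ⊆ {x | ev w x = 0} := by
    intro x hx
    obtain ⟨p, -, hp⟩ := hull_poly κ A hA y x hx
    show ev w x = 0
    rw [hp w hw, h0, mul_zero]
  have h2 : IsClosed {x | ev w x = 0} := isClosed_eq (ev w).continuous continuous_const
  have h3 := (hy.mono h1).closure_eq
  rw [h2.closure_eq] at h3
  have h4 : eb 0 ∈ {x | ev w x = 0} := by rw [h3]; trivial
  have h5 : ev w (eb 0) = 0 := h4
  rw [ev_eb hw, pow_zero] at h5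
  exact one_ne_zero h5

/-- `κ + B` is not convex-cyclic. -/
theorem not_convexCyclic (κ : ℝ) (hκ : 100 ≤ κ) (A : HH →L[ℂ] HH)
    (hA : A = κ • (1 : HH →L[ℂ] HH) + Bop) (y : HH) :
    ¬ Dense (convexHull ℝ (range fun n : ℕ => (A ^ n) y)) := by
  intro hy
  obtain ⟨C1, hC1, hlow⟩ := lower (fun w => ev w y) (ev_diff y) (fun w hw => ev_ne hA hy hw) ‖y‖
    (fun w hw => ev_bound hw y)
  -- convex combinations tending to zero
  have hseq : ∀ k : ℕ, ∃ x ∈ convexHull ℝ (range fun n : ℕ => (A ^ n) y), ‖x‖ ≤ 1 / ((k : ℝ) + 1) := by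
    intro k
    obtain ⟨x, hx1, hx2⟩ := Metric.dense_iff.1 hy 0 (1 / ((k : ℝ) + 1)) (by positivity)
    rw [mem_ball_zero_iff] at hx1
    exact ⟨x, hx2, hx1.le⟩
  choose x hx hxn using hseq
  choose p hp hpx using fun k => hull_poly κ A hA y (x k) (hx k)
  have hx1 : ∀ k, ‖x k‖ ≤ 1 := fun k => (hxn k).trans (by
    rw [div_le_one (by positivity)]; have : (0 : ℝ) ≤ k := Nat.cast_nonneg k; linarith)
  set r : ℝ := κ - 1 / 200 with hr
  have hr0 : 0 < r := by rw [hr]; linarith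
  set M : ℝ := Real.exp (2 * (C1 + 1) * 200 ^ 4) with hM
  have hbound : ∀ k, (p k).eval r ≤ M := by
    intro k
    apply uniform_bound (hp k) κ hκ (C1 + 1) (by linarith)
    intro w hw
    have ht : 0 < 1 - ‖w‖ := by linarith
    have ht1 : 1 - ‖w‖ ≤ 1 := by linarith [norm_nonneg w]
    have h1 := hlow w hw
    have h2 := ev_bound hw (x k)
    have h3 : ‖ev w (x k)‖ ≤ Real.exp (1 / (1 - ‖w‖) ^ 2) := by
      have h4 : 1 - ‖w‖ ≤ 1 - ‖w‖ ^ 2 := by nlinarith [norm_nonneg w]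
      have h5 : ‖ev w (x k)‖ ^ 2 * (1 - ‖w‖) ≤ 1 := by
        have h6 : ‖x k‖ ^ 2 ≤ 1 := pow_le_one₀ (norm_nonneg _) (hx1 k)
        nlinarith [mul_le_mul_of_nonneg_left h4 (sq_nonneg ‖ev w (x k)‖)]
      have h7 : ‖ev w (x k)‖ ^ 2 ≤ (1 / (1 - ‖w‖) ^ 2) ^ 2 := by
        have h8 : ‖ev w (x k)‖ ^ 2 ≤ 1 / (1 - ‖w‖) := by rwa [le_div_iff₀ ht]
        refine h8.trans ?_
        rw [div_pow, one_pow, ← pow_mul]
        apply one_div_le_one_div_of_le (by positivity)
        have := pow_le_pow_of_le_one ht.le ht1 (show 1 ≤ 2 * 2 by norm_num)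
        rwa [pow_one] at this
      have h9 := (pow_le_pow_iff_left₀ (norm_nonneg _) (by positivity) two_ne_zero).1 h7
      have h10 := Real.add_one_le_exp (1 / (1 - ‖w‖) ^ 2)
      linarith
    have h4 := hpx k w hw
    have h5 : ‖aeval ((κ : ℂ) + Complex.I + w) (p k)‖ * ‖ev w y‖ = ‖ev w (x k)‖ := by
      rw [h4, norm_mul]
    have h6 : ‖aeval ((κ : ℂ) + Complex.I + w) (p k)‖ * Real.exp (-(C1 / (1 - ‖w‖) ^ 2)) ≤
        Real.exp (1 / (1 - ‖w‖) ^ 2) :=
      (mul_le_mul_of_nonneg_left h1 (norm_nonneg _)).trans (h5.le.trans h3)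
    have h7 : Real.exp ((C1 + 1) / (1 - ‖w‖) ^ 2) = Real.exp (1 / (1 - ‖w‖) ^ 2) * Real.exp (C1 / (1 - ‖w‖) ^ 2) := by
      rw [← Real.exp_add]; congr 1; ring
    rw [Real.exp_neg, mul_inv_le_iff₀ (Real.exp_pos _)] at h6
    rw [h7]
    exact h6
  have hM0 : 0 < M := Real.exp_pos _
  have hcoef : ∀ k n, (p k).coeff n * r ^ n ≤ M := fun k n => (coeff_le (hp k) hr0.le n).trans (hbound k)
  -- limits of the coefficients
  have hlim : ∀ n, ∃ c : ℝ, 0 ≤ c ∧ c * r ^ n ≤ M ∧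
      Tendsto (fun k => (p k).coeff n) (hyperfilter ℕ : Filter ℕ) (𝓝 c) := by
    intro n
    have hcomp : IsCompact (Icc (0 : ℝ) (M / r ^ n)) := isCompact_Icc
    have hmem : Icc (0 : ℝ) (M / r ^ n) ∈ (hyperfilter ℕ).map (fun k => (p k).coeff n) := by
      rw [Ultrafilter.mem_map]
      refine Filter.Eventually.of_forall fun k => ?_
      exact ⟨(hp k).1 n, by rw [le_div_iff₀ (by positivity)]; exact hcoef k n⟩
    obtain ⟨c, hc, hc2⟩ := hcomp.ultrafilter_le_nhds' _ hmem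
    refine ⟨c, hc.1, ?_, ?_⟩
    · rw [← le_div_iff₀ (by positivity)]; exact hc.2
    · exact hc2
  choose c hc0 hcM hct using hlim
  have hnorm : ∀ n, ‖(c n : ℂ)‖ * r ^ n ≤ M := by
    intro n
    rw [Complex.norm_real, Real.norm_eq_abs, abs_of_nonneg (hc0 n)]
    exact hcM n
  have hP := hasFPS (fun n => (c n : ℂ)) r hr0 M hnorm
  have hPt : ∀ z : ℂ, ‖z‖ < r → Tendsto (fun k => aeval z (p k)) (hyperfilter ℕ : Filter ℕ)
      (𝓝 (∑' n, (c n : ℂ) * z ^ n)) := by
    intro z hz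
    have e1 : ∀ k, aeval z (p k) = ∑' n, ((p k).coeff n : ℂ) * z ^ n := by
      intro k
      rw [aeval_eq_sum_range, tsum_eq_sum (s := Finset.range ((p k).natDegree + 1))]
      · apply Finset.sum_congr rfl
        intro n _
        rfl
      · intro n hn
        rw [Finset.mem_range, not_lt] at hn
        rw [coeff_eq_zero_of_natDegree_lt (by omega)]
        simp
    simp only [e1]
    apply tendsto_tsum_of_dominated_convergence (bound := fun n => M * (‖z‖ / r) ^ n)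
    · apply Summable.mul_left
      apply summable_geometric_of_lt_one (by positivity)
      rwa [div_lt_one hr0]
    · intro n
      apply Tendsto.mul_const
      exact (Complex.continuous_ofReal.tendsto _).comp (hct n)
    · refine Filter.Eventually.of_forall fun k n => ?_
      rw [norm_mul, norm_pow, Complex.norm_real, Real.norm_eq_abs, abs_of_nonneg ((hp k).1 n), div_pow,
        mul_div_assoc', le_div_iff₀ (by positivity)]
      have := mul_le_mul_of_nonneg_right (hcoef k n) (pow_nonneg (norm_nonneg z) n)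
      linarith
  -- the limit vanishes on an open set
  have hzero : ∀ z : ℂ, ‖z‖ < r → ‖z - (κ + Complex.I)‖ < 1 → ∑' n, (c n : ℂ) * z ^ n = 0 := by
    intro z hz hz2
    set w : ℂ := z - (κ + Complex.I) with hw
    have hzw : (κ : ℂ) + Complex.I + w = z := by rw [hw]; ring
    have hne := ev_ne hA hy hz2
    have e1 : ∀ k, aeval z (p k) = ev w (x k) / ev w y := by
      intro k
      rw [hpx k w hz2, hzw, mul_div_cancel_right₀ _ hne]
    have h1 := hPt z hz
    have hxt : Tendsto x atTop (𝓝 0) := by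
      apply squeeze_zero_norm hxn
      exact tendsto_one_div_add_atTop_nhds_zero_nat
    have h2 : Tendsto (fun k => aeval z (p k)) (hyperfilter ℕ : Filter ℕ) (𝓝 0) := by
      simp only [e1]
      have h3 : Tendsto (fun k => ev w (x k) / ev w y) atTop (𝓝 (ev w 0 / ev w y)) :=
        (((ev w).continuous.tendsto 0).comp hxt).div_const _
      rw [map_zero, zero_div] at h3
      exact h3.mono_left Nat.hyperfilter_le_atTop
    exact tendsto_nhds_unique h1 h2
  have hone : ∑' n, (c n : ℂ) * (1 : ℂ) ^ n = 1 := by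
    have h1 := hPt 1 (by rw [norm_one, hr]; linarith)
    have h2 : ∀ k, aeval (1 : ℂ) (p k) = 1 := by
      intro k
      have := Polynomial.aeval_algebraMap_apply ℂ (1 : ℝ) (p k)
      rw [map_one, Polynomial.coe_aeval_eq_eval, (hp k).2, map_one] at this
      exact this
    simp only [h2] at h1
    exact (tendsto_nhds_unique tendsto_const_nhds h1).symm
  have han : AnalyticOnNhd ℂ (fun z : ℂ => ∑' n, (c n : ℂ) * z ^ n) (Metric.ball 0 r) := by
    have := hP.analyticOnNhd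
    rwa [Metric.eball_ofReal] at this
  set z0 : ℂ := (κ : ℂ) + Complex.I - 9 / 10 with hz0
  have hz0n : ‖z0‖ < r := by
    have h1 : ‖z0‖ ^ 2 < r ^ 2 := by
      rw [Complex.sq_norm, Complex.normSq_apply]
      have e1 : z0.re = κ - 9 / 10 := by rw [hz0]; simp
      have e2 : z0.im = 1 := by rw [hz0]; simp
      rw [e1, e2, hr]
      nlinarith
    exact (pow_lt_pow_iff_left₀ (norm_nonneg _) hr0.le two_ne_zero).1 h1
  have hz0w : ‖z0 - (κ + Complex.I)‖ < 1 := by
    have : z0 - (κ + Complex.I) = ((-(9 / 10) : ℝ) : ℂ) := by rw [hz0]; push_cast; ring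
    rw [this, Complex.norm_real]; norm_num
  have hev : (fun z : ℂ => ∑' n, (c n : ℂ) * z ^ n) =ᶠ[𝓝 z0] 0 := by
    have h1 : ∀ᶠ z in 𝓝 z0, ‖z‖ < r := (continuous_norm.continuousAt).eventually (gt_mem_nhds hz0n)
    have h2 : ∀ᶠ z in 𝓝 z0, ‖z - (κ + Complex.I)‖ < 1 :=
      (show ContinuousAt (fun z : ℂ => ‖z - ((κ : ℂ) + Complex.I)‖) z0 by fun_prop).eventually (gt_mem_nhds hz0w)
    filter_upwards [h1, h2] with z h3 h4
    exact hzero z h3 h4
  have hfin := han.eqOn_zero_of_preconnected_of_eventuallyEq_zero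
    (convex_ball (0 : ℂ) r).isPreconnected (by rw [mem_ball_zero_iff]; exact hz0n) hev
  have h1 := hfin (show (1 : ℂ) ∈ Metric.ball 0 r by rw [mem_ball_zero_iff, norm_one, hr]; linarith)
  simp only [Pi.zero_apply] at h1
  rw [hone] at h1
  exact one_ne_zero h1

end Pool.Agent.R644.CC
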