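import Mathlib

/-!
# Kurosh's group: universal property, torsion-freeness, almost invariant sets
-/

set_option autoImplicit false

namespace Pool.Agent.R644.K

/-- the relators of Kurosh's group: generators `a n` (`Sum.inl n`) and `b n` (`Sum.inr n`), and the
relations `a (n+1) * b n * (a (n+1))⁻¹ * (b n)⁻¹ = a n` -/
def rels : Set (FreeGroup (ℕ ⊕ ℕ)) :=
  {r | ∃ n : ℕ, r = FreeGroup.of (Sum.inl (n + 1)) * FreeGroup.of (Sum.inr n) *
    (FreeGroup.of (Sum.inl (n + 1)))⁻¹ * (FreeGroup.of (Sum.inr n))⁻¹ *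
    (FreeGroup.of (Sum.inl n))⁻¹}

/-- Kurosh's group -/
abbrev Γ : Type := PresentedGroup rels

def a (n : ℕ) : Γ := PresentedGroup.of (Sum.inl n)
def b (n : ℕ) : Γ := PresentedGroup.of (Sum.inr n)

theorem rel (n : ℕ) : a (n + 1) * b n * (a (n + 1))⁻¹ * (b n)⁻¹ = a n := by
  have h : (PresentedGroup.mk rels (FreeGroup.of (Sum.inl (n + 1)) * FreeGroup.of (Sum.inr n) *
    (FreeGroup.of (Sum.inl (n + 1)))⁻¹ * (FreeGroup.of (Sum.inr n))⁻¹ *
    (FreeGroup.of (Sum.inl n))⁻¹)) = 1 :=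
    PresentedGroup.one_of_mem ⟨n, rfl⟩
  simp only [map_mul, map_inv] at h
  exact mul_inv_eq_one.1 h

theorem univ0 {H : Type*} [Group H] (α β : ℕ → H)
    (h : ∀ k, α (k + 1) * β k * (α (k + 1))⁻¹ * (β k)⁻¹ = α k) :
    ∃ f : Γ →* H, (∀ k, f (a k) = α k) ∧ ∀ k, f (b k) = β k := by
  refine ⟨PresentedGroup.toGroup (f := Sum.elim α β) ?_, fun k => ?_, fun k => ?_⟩
  · rintro r ⟨n, rfl⟩
    simp [h n]
  · exact PresentedGroup.toGroup.of _
  · exact PresentedGroup.toGroup.of _

/-- universal property -/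
theorem univ {H : Type*} [Group H] (N : ℕ) : ∀ (α β : ℕ → H)
    (_ : ∀ k, N ≤ k → α (k + 1) * β k * (α (k + 1))⁻¹ * (β k)⁻¹ = α k),
    ∃ f : Γ →* H, (∀ k, N ≤ k → f (a k) = α k) ∧ ∀ k, f (b k) = β k := by
  induction N with
  | zero =>
    intro α β h
    obtain ⟨f, h1, h2⟩ := univ0 α β (fun k => h k (Nat.zero_le k))
    exact ⟨f, fun k _ => h1 k, h2⟩
  | succ N ih =>
    intro α β h
    obtain ⟨f, h1, h2⟩ := ih
      (Function.update α N (α (N + 1) * β N * (α (N + 1))⁻¹ * (β N)⁻¹)) β (by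
        intro k hk
        rcases hk.eq_or_lt with rfl | hk
        · simp
        · rw [Function.update_of_ne (by omega), Function.update_of_ne (by omega)]
          exact h k hk)
    refine ⟨f, fun k hk => ?_, h2⟩
    rw [h1 k (by omega), Function.update_of_ne (by omega)]

/-- a subgroup which contains all `b k` and the `a k`, `k ≥ N`, is everything -/
theorem top_of (S : Subgroup Γ) (N : ℕ) (h1 : ∀ k, N ≤ k → a k ∈ S) (h2 : ∀ k, b k ∈ S) :
    S = ⊤ := by
  have h3 : ∀ j k, k + j = N → a k ∈ S := by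
    intro j
    induction j with
    | zero => intro k hk; exact h1 k (by omega)
    | succ j ih =>
      intro k hk
      rw [← rel k]
      have := ih (k + 1) (by omega)
      exact S.mul_mem (S.mul_mem (S.mul_mem this (h2 k)) (S.inv_mem this)) (S.inv_mem (h2 k))
  have h4 : ∀ k, a k ∈ S := by
    intro k
    rcases le_total N k with h | h
    · exact h1 k h
    · exact h3 (N - k) k (by omega)
  rw [eq_top_iff, ← PresentedGroup.closure_range_of rels, Subgroup.closure_le]
  rintro _ ⟨k | k, rfl⟩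
  · exact h4 k
  · exact h2 k

instance : Countable Γ := by
  have h : Function.Surjective
      (FreeGroup.mk : List ((ℕ ⊕ ℕ) × Bool) → FreeGroup (ℕ ⊕ ℕ)) :=
    fun x => ⟨x.toWord, FreeGroup.mk_toWord⟩
  exact ((QuotientGroup.mk_surjective (s := Subgroup.normalClosure rels)).comp h).countable

/-! ### torsion -/

/-- the image of `a k` in the free group on `b 0, …, b (m - 1)` and `a m` -/
def A : ℕ → ℕ → FreeGroup (Option ℕ)
  | 0, _ => FreeGroup.of none
  | j + 1, k => A j (k + 1) * FreeGroup.of (some k) * (A j (k + 1))⁻¹ * (FreeGroup.of (some k))⁻¹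

/-- the approximating homomorphisms -/
def θ (m : ℕ) : FreeGroup (ℕ ⊕ ℕ) →* FreeGroup (Option ℕ) :=
  FreeGroup.lift (Sum.elim (fun k => A (m - k) k) (fun k => FreeGroup.of (some k)))

def ψ (m : ℕ) : FreeGroup (Option ℕ) →* Γ := FreeGroup.lift (fun o => match o with
  | none => a m
  | some k => b k)

theorem ψ_A (m : ℕ) : ∀ j k, k + j = m → ψ m (A j k) = a k := by
  intro j
  induction j with
  | zero =>
    intro k hk
    have : k = m := by omega
    subst this
    simp [A, ψ]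
  | succ j ih =>
    intro k hk
    have h1 := ih (k + 1) (by omega)
    have h2 : ψ m (FreeGroup.of (some k)) = b k := by simp [ψ]
    rw [A, map_mul, map_mul, map_mul, map_inv, map_inv, h1, h2, rel]

theorem ψ_θ (w : FreeGroup (ℕ ⊕ ℕ)) :
    ∃ M : ℕ, ∀ m, M ≤ m → ψ m (θ m w) = PresentedGroup.mk rels w := by
  induction w using FreeGroup.induction_on with
  | C1 => exact ⟨0, fun m _ => by simp⟩
  | of x =>
    rcases x with k | k
    · refine ⟨k, fun m hm => ?_⟩
      have : θ m (FreeGroup.of (Sum.inl k)) = A (m - k) k := by simp [θ]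
      rw [this, ψ_A m (m - k) k (by omega)]
      rfl
    · refine ⟨0, fun m _ => ?_⟩
      have : θ m (FreeGroup.of (Sum.inr k)) = FreeGroup.of (some k) := by simp [θ]
      rw [this]
      simp [ψ, b]
      rfl
  | inv_of x ih =>
    obtain ⟨M, hM⟩ := ih
    exact ⟨M, fun m hm => by rw [map_inv, map_inv, hM m hm, map_inv]⟩
  | mul x y hx hy =>
    obtain ⟨M, hM⟩ := hx
    obtain ⟨M', hM'⟩ := hy
    exact ⟨max M M', fun m hm => by
      rw [map_mul, map_mul, hM m (le_trans (le_max_left _ _) hm),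
        hM' m (le_trans (le_max_right _ _) hm), map_mul]⟩

theorem θ_ker (w : FreeGroup (ℕ ⊕ ℕ)) (h : w ∈ Subgroup.normalClosure rels) :
    ∃ M : ℕ, ∀ m, M ≤ m → θ m w = 1 := by
  let N : Subgroup (FreeGroup (ℕ ⊕ ℕ)) :=
    { carrier := {w | ∃ M : ℕ, ∀ m, M ≤ m → θ m w = 1}
      one_mem' := ⟨0, fun m _ => map_one _⟩
      mul_mem' := by
        rintro x y ⟨M, hM⟩ ⟨M', hM'⟩
        exact ⟨max M M', fun m hm => by
          rw [map_mul, hM m (le_trans (le_max_left _ _) hm),
            hM' m (le_trans (le_max_right _ _) hm), mul_one]⟩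
      inv_mem' := by
        rintro x ⟨M, hM⟩
        exact ⟨M, fun m hm => by rw [map_inv, hM m hm, inv_one]⟩ }
  have hN : N.Normal := ⟨by
    rintro n ⟨M, hM⟩ g
    exact ⟨M, fun m hm => by rw [map_mul, map_mul, hM m hm, mul_one, map_inv, mul_inv_cancel]⟩⟩
  have h1 : Subgroup.normalClosure rels ≤ N := by
    apply Subgroup.normalClosure_le_normal
    rintro _ ⟨k, rfl⟩
    refine ⟨k + 1, fun m hm => ?_⟩
    have e1 : θ m (FreeGroup.of (Sum.inl k)) = A (m - k) k := by simp [θ]
    have e2 : θ m (FreeGroup.of (Sum.inl (k + 1))) = A (m - (k + 1)) (k + 1) := by simp [θ]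
    have e3 : θ m (FreeGroup.of (Sum.inr k)) = FreeGroup.of (some k) := by simp [θ]
    rw [map_mul, map_mul, map_mul, map_mul, map_inv, map_inv, map_inv, e1, e2, e3]
    have : m - k = (m - (k + 1)) + 1 := by omega
    rw [this, A]
    group
  exact h1 h

theorem torsionFree (g : Γ) (hg : g ≠ 1) (n : ℕ) (hn : n ≠ 0) : g ^ n ≠ 1 := by
  intro h
  obtain ⟨w, rfl⟩ := QuotientGroup.mk_surjective g
  have h1 : w ^ n ∈ Subgroup.normalClosure rels := by
    rw [← QuotientGroup.eq_one_iff]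
    exact h
  obtain ⟨M, hM⟩ := θ_ker _ h1
  obtain ⟨M', hM'⟩ := ψ_θ w
  have h2 := hM (max M M') (le_max_left _ _)
  rw [map_pow] at h2
  have h3 : θ (max M M') w = 1 := by
    by_contra h4
    exact h4 (pow_left_injective hn (by simpa using h2))
  have h4 := hM' (max M M') (le_max_right _ _)
  rw [h3, map_one] at h4
  exact hg h4.symm

/-- the `a n` have infinite order, quantitatively -/
theorem exists_act : ∃ f : Γ →* Equiv.Perm ℚ, ∀ k (q : ℚ), f (a k) q = q + (1 / 2) ^ k := by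
  obtain ⟨f, h1, -⟩ := univ0 (H := Equiv.Perm ℚ) (fun k => Equiv.addRight ((1 / 2 : ℚ) ^ k))
    (fun _ => Equiv.neg ℚ) (by
      intro k
      ext q
      simp [Equiv.Perm.mul_apply, Equiv.Perm.inv_def]
      ring)
  exact ⟨f, fun k q => by rw [h1]; simp⟩

theorem a_pow_ne (k : ℕ) (n : ℕ) (hn : n ≠ 0) : a k ^ n ≠ 1 := by
  intro h
  obtain ⟨f, hf⟩ := exists_act
  have h1 : ∀ (n : ℕ) (q : ℚ), f (a k ^ n) q = q + n * (1 / 2) ^ k := by
    intro n
    induction n with
    | zero => intro q; simp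
    | succ n ih =>
      intro q
      rw [pow_succ, map_mul, Equiv.Perm.mul_apply, hf, ih]
      push_cast
      ring
  have h2 := h1 n 0
  rw [h, map_one] at h2
  simp at h2
  exact hn h2

end Pool.Agent.R644.K
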