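import Pool.Agent.R644.K1

/-!
# Kurosh's group: almost invariant sets
-/

set_option autoImplicit false

namespace Pool.Agent.R644.K

/-- a twisted right translation -/
def P (s : Γ) (c : Γ → ZMod 2) : Equiv.Perm (Γ × ZMod 2) where
  toFun p := (p.1 * s, p.2 + c p.1)
  invFun p := (p.1 * s⁻¹, p.2 - c (p.1 * s⁻¹))
  left_inv p := by simp
  right_inv p := by simp

theorem P_apply (s : Γ) (c : Γ → ZMod 2) (p : Γ × ZMod 2) :
    P s c p = (p.1 * s, p.2 + c p.1) := rfl

theorem P_inv_apply (s : Γ) (c : Γ → ZMod 2) (p : Γ × ZMod 2) :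
    (P s c)⁻¹ p = (p.1 * s⁻¹, p.2 - c (p.1 * s⁻¹)) := rfl

theorem twist (n : ℕ) (φ : Γ → ZMod 2) : ∃ F : Γ → ZMod 2,
    (∀ g k, n + 1 ≤ k → F (g * a k) = F g) ∧ (∀ g k, k ≠ n → F (g * b k) = F g) ∧
    ∀ g, F (g * b n) = F g + φ g := by
  classical
  obtain ⟨f, h1, h2⟩ := univ (H := (Equiv.Perm (Γ × ZMod 2))ᵐᵒᵖ) (n + 1)
    (fun k => MulOpposite.op (P (a k) 0))
    (fun k => MulOpposite.op (P (b k) (if k = n then φ else 0))) (by
      intro k hk
      have hkn : k ≠ n := by omega
      apply MulOpposite.unop_injective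
      simp only [MulOpposite.unop_mul, MulOpposite.unop_inv, MulOpposite.unop_op, if_neg hkn]
      ext p
      · simp only [Equiv.Perm.mul_apply, P_apply, P_inv_apply]
        rw [← rel k]
        simp only [mul_assoc]
      · simp [Equiv.Perm.mul_apply, P_apply, P_inv_apply])
  have hact : ∀ w w' p, (f (w * w')).unop p = (f w').unop ((f w).unop p) := by
    intro w w' p
    rw [map_mul]
    rfl
  have hfst : ∀ w p, ((f w).unop p).1 = p.1 * w := by
    let S : Subgroup Γ :=
      { carrier := {w | ∀ p, ((f w).unop p).1 = p.1 * w}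
        one_mem' := by intro p; simp
        mul_mem' := by
          intro w w' hw hw' p
          rw [hact, hw', hw, mul_assoc]
        inv_mem' := by
          intro w hw p
          have h3 := hw ((f w⁻¹).unop p)
          rw [← hact, inv_mul_cancel, map_one] at h3
          rw [← mul_inv_eq_iff_eq_mul] at h3
          exact h3.symm }
    have hS : S = ⊤ := by
      apply top_of S (n + 1)
      · intro k hk p
        rw [h1 k hk]
        rfl
      · intro k p
        rw [h2 k]
        rfl
    intro w
    have : w ∈ S := by rw [hS]; trivial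
    exact this
  refine ⟨fun g => ((f g).unop (1, 0)).2, ?_, ?_, ?_⟩
  · intro g k hk
    beta_reduce
    rw [hact, h1 k hk, MulOpposite.unop_op, P_apply]
    simp
  · intro g k hk
    beta_reduce
    rw [hact, h2 k, MulOpposite.unop_op, P_apply, if_neg hk]
    simp
  · intro g
    beta_reduce
    rw [hact, h2 n, MulOpposite.unop_op, P_apply, if_pos rfl]
    simp [hfst]

/-- the indicator function mod 2 -/
noncomputable def chi (B : Set Γ) : Γ → ZMod 2 := by
  classical exact fun z => if z ∈ B then 1 else 0

theorem chi_eq {B : Set Γ} {z w : Γ} : chi B z = chi B w ↔ (z ∈ B ↔ w ∈ B) := by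
  classical
  unfold chi
  by_cases h1 : z ∈ B <;> by_cases h2 : w ∈ B <;> simp [h1, h2]

theorem add_self' (x : ZMod 2) : x + x = 0 := by
  revert x; decide

theorem add_eq_zero' (x y : ZMod 2) : x + y = 0 ↔ x = y := by
  revert x y; decide

theorem finsum_translate (f : Γ → ZMod 2) (g : Γ) : ∑ᶠ z, f (z * g) = ∑ᶠ z, f z :=
  finsum_comp_equiv (Equiv.mulRight g)

theorem key (χ : Γ → ZMod 2) (hfin : ∀ g, {z | χ (z * g) ≠ χ z}.Finite) (n : ℕ)
    (h0 : ∀ z, χ (z * a n) = χ z) : (∀ z, χ (z * a (n + 1)) = χ z) ∧ ∀ z, χ (z * b n) = χ z := by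
  classical
  set x := a (n + 1) with hx
  set y := b n with hy
  -- coboundaries
  let D : Γ → Γ → ZMod 2 := fun g z => χ z + χ (z * g⁻¹)
  have hD : ∀ g, (Function.support (D g)).Finite := by
    intro g
    apply (hfin g⁻¹).subset
    intro z hz h
    apply hz
    change χ z + χ (z * g⁻¹) = 0
    rw [h, add_self']
  have hD' : ∀ g z, D g z = 0 ↔ χ (z * g⁻¹) = χ z := by
    intro g z
    change χ z + χ (z * g⁻¹) = 0 ↔ _
    rw [add_eq_zero', eq_comm]
  have hrel : ∀ z, χ (z * y⁻¹ * x⁻¹) = χ (z * x⁻¹ * y⁻¹) := by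
    intro z
    have h1 : x * y = a n * y * x := by
      rw [← rel n, hx, hy]; group
    have h2 : z * y⁻¹ * x⁻¹ = z * x⁻¹ * y⁻¹ * (a n)⁻¹ := by
      have : z * y⁻¹ * x⁻¹ = z * (x * y)⁻¹ := by group
      rw [this, h1]; group
    rw [h2, ← h0 (z * x⁻¹ * y⁻¹ * (a n)⁻¹)]
    simp
  have hcomm : ∀ z, D x z + D x (z * y⁻¹) = D y z + D y (z * x⁻¹) := by
    intro z
    change (χ z + χ (z * x⁻¹)) + (χ (z * y⁻¹) + χ (z * y⁻¹ * x⁻¹)) =
      (χ z + χ (z * y⁻¹)) + (χ (z * x⁻¹) + χ (z * x⁻¹ * y⁻¹))
    rw [hrel]
    ring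
  have hfm : ∀ (F : Γ → ZMod 2) (g h : Γ), (Function.support (fun z => F z * D g (z * h))).Finite := by
    intro F g h
    have h1 : (Function.support (fun z => D g (z * h))).Finite := by
      have : (fun z => D g (z * h)) = D g ∘ (Equiv.mulRight h) := rfl
      rw [this, Function.support_comp_eq_preimage]
      exact (hD g).preimage ((Equiv.mulRight h).injective.injOn)
    apply h1.subset
    intro z hz h
    apply hz
    have h' : D g (z * _) = 0 := h
    change F z * D g (z * _) = 0
    rw [h', mul_zero]
  have hpair : ∀ (F : Γ → ZMod 2) (g s : Γ), ∑ᶠ z, F z * (D g z + D g (z * s⁻¹)) =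
      ∑ᶠ z, (F z + F (z * s)) * D g z := by
    intro F g s
    have e1 : ∀ z, F z * (D g z + D g (z * s⁻¹)) = F z * D g (z * 1) + F z * D g (z * s⁻¹) := by
      intro z; rw [mul_one]; ring
    have e2 : ∀ z, (F z + F (z * s)) * D g z = F z * D g (z * 1) + F (z * s) * D g (z * 1) := by
      intro z; rw [mul_one]; ring
    rw [finsum_congr e1, finsum_congr e2, finsum_add_distrib (hfm F g 1) (hfm F g s⁻¹),
      finsum_add_distrib (hfm F g 1) (hfm (fun z => F (z * s)) g 1)]
    congr 1
    rw [← finsum_translate (fun z => F z * D g (z * s⁻¹)) s]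
    apply finsum_congr
    intro z
    rw [mul_inv_cancel_right, mul_one]
  have hDx : ∀ z, D x z = 0 := by
    intro w
    obtain ⟨F, hF1, -, hF3⟩ := twist n (fun z => if z = w then 1 else 0)
    have h1 : ∑ᶠ z, F z * (D x z + D x (z * y⁻¹)) = D x w := by
      rw [hpair F x y]
      have : ∀ z, (F z + F (z * y)) * D x z = if z = w then D x w else 0 := by
        intro z
        rw [hy, hF3]
        by_cases hz : z = w
        · subst hz
          simp only [if_true]
          rw [← add_assoc, add_self', zero_add, one_mul]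
        · simp only [if_neg hz]
          rw [add_zero, add_self', zero_mul]
      rw [finsum_congr this]
      rw [finsum_eq_single _ w (fun z hz => if_neg hz), if_pos rfl]
    have h2 : ∑ᶠ z, F z * (D x z + D x (z * y⁻¹)) = 0 := by
      rw [finsum_congr (fun z => by rw [hcomm z]), hpair F y x]
      have : ∀ z, (F z + F (z * x)) * D y z = 0 := by
        intro z
        rw [hx, hF1 _ _ le_rfl, add_self', zero_mul]
      rw [finsum_congr this, finsum_zero]
    rw [← h1, h2]
  have hDy : ∀ z, D y z = 0 := by
    intro w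
    by_contra hw
    have h1 : ∀ z, D y (z * x⁻¹) = D y z := by
      intro z
      have := hcomm z
      rw [hDx, hDx, add_zero] at this
      exact ((add_eq_zero' _ _).1 this.symm).symm
    have h2 : ∀ m : ℕ, D y (w * (x⁻¹) ^ m) = D y w := by
      intro m
      induction m with
      | zero => simp
      | succ m ih => rw [pow_succ, ← mul_assoc, h1, ih]
    have hinj : Function.Injective (fun m : ℕ => w * (x⁻¹) ^ m) := by
      intro m m' hmm
      have h3 : (x⁻¹) ^ m = (x⁻¹) ^ m' := mul_left_cancel hmm
      rw [inv_pow, inv_pow, inv_inj] at h3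
      by_contra hne
      rcases lt_or_gt_of_ne hne with hl | hl
      · apply a_pow_ne (n + 1) (m' - m) (by omega)
        have : a (n + 1) ^ m' = a (n + 1) ^ (m' - m) * a (n + 1) ^ m := by
          rw [← pow_add]; congr 1; omega
        rw [← hx] at this ⊢
        rw [← h3] at this
        exact right_eq_mul.1 this
      · apply a_pow_ne (n + 1) (m - m') (by omega)
        have : a (n + 1) ^ m = a (n + 1) ^ (m - m') * a (n + 1) ^ m' := by
          rw [← pow_add]; congr 1; omega
        rw [← hx] at this ⊢
        rw [h3] at this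
        exact right_eq_mul.1 this
    refine Set.infinite_of_injective_forall_mem hinj (s := Function.support (D y)) ?_ (hD y)
    intro m
    rw [Function.mem_support, h2]
    exact hw
  constructor
  · intro z
    have := (hD' x (z * x)).1 (hDx _)
    rw [mul_inv_cancel_right] at this
    exact this.symm
  · intro z
    have := (hD' y (z * y)).1 (hDy _)
    rw [mul_inv_cancel_right] at this
    exact this.symm

/-- an almost invariant function which is invariant under `a 0` is constant -/
theorem const_of (χ : Γ → ZMod 2) (hfin : ∀ g, {z | χ (z * g) ≠ χ z}.Finite)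
    (h0 : ∀ z, χ (z * a 0) = χ z) (z : Γ) : χ z = χ 1 := by
  have h1 : ∀ n, ∀ z, χ (z * a n) = χ z := by
    intro n
    induction n with
    | zero => exact h0
    | succ n ih => exact (key χ hfin n ih).1
  let S : Subgroup Γ :=
    { carrier := {w | ∀ z, χ (z * w) = χ z}
      one_mem' := by intro p; simp
      mul_mem' := by
        intro w w' hw hw' p
        rw [← mul_assoc, hw', hw]
      inv_mem' := by
        intro w hw p
        have h3 := hw (p * w⁻¹)
        rw [inv_mul_cancel_right] at h3
        exact h3.symm }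
  have hS : S = ⊤ := top_of S 0 (fun k _ => h1 k) (fun k => (key χ hfin k (h1 k)).2)
  have : z ∈ S := by rw [hS]; trivial
  have h2 := this 1
  rwa [one_mul] at h2

end Pool.Agent.R644.K
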