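import Pool.Agent.R644.K2
import Pool.Agent.H599R3.RH.Bs2

/-!
# Kurosh's group: no finite decomposition into freely indecomposable factors
-/

set_option autoImplicit false

namespace Pool.Agent.R644.K

open Pool.Agent.H599R3.RH

/-- the shift and its retraction -/
theorem exists_shift : ∃ σ ρ : Γ →* Γ, (∀ k, σ (a k) = a (k + 1)) ∧
    (∀ k, σ (b k) = b (k + 1)) ∧ ∀ g, ρ (σ g) = g := by
  obtain ⟨σ, h1, h2⟩ := univ0 (fun k => a (k + 1)) (fun k => b (k + 1)) (fun k => rel (k + 1))
  obtain ⟨ρ, h3, h4⟩ := univ 1 (fun k => a (k - 1)) (fun k => if k = 0 then 1 else b (k - 1)) (by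
    intro k hk
    obtain ⟨j, rfl⟩ : ∃ j, k = j + 1 := ⟨k - 1, by omega⟩
    simp only [Nat.add_sub_cancel, Nat.succ_ne_zero, if_false]
    exact rel j)
  refine ⟨σ, ρ, h1, h2, ?_⟩
  have : (ρ.comp σ).eqLocus (MonoidHom.id Γ) = ⊤ := by
    apply top_of _ 0
    · intro k _
      change ρ (σ (a k)) = a k
      rw [h1, h3 _ (by omega)]
      simp
    · intro k
      change ρ (σ (b k)) = b k
      rw [h2, h4]
      simp
  intro g
  have hg : g ∈ (ρ.comp σ).eqLocus (MonoidHom.id Γ) := by rw [this]; trivial
  exact hg

theorem fixes {K : Type} [Group K] (f : K →* Γ) (hf : Function.Injective f) (hs : ¬ Splits K)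
    (hc : ¬ Cyc K) (σ : Γ →* Γ) (hσa : ∀ k, σ (a k) = a (k + 1))
    (hσb : ∀ k, σ (b k) = b (k + 1)) : ∃ x : Γ, ∀ g : K, x⁻¹ * f g * x ∈ σ.range := by
  have htf : ∀ g : K, g ≠ 1 → ∀ n : ℕ, n ≠ 0 → g ^ n ≠ 1 := by
    intro g hg n hn h
    have h1 : f g ≠ 1 := fun h' => hg (hf (by rw [h', map_one]))
    apply torsionFree (f g) h1 n hn
    rw [← map_pow, h, map_one]
  letI actE : MulAction K Γ := MulAction.compHom Γ f
  letI actV : MulAction K (Γ ⧸ σ.range) := MulAction.compHom (Γ ⧸ σ.range) f
  have hE : ∀ (g : K) (e : Γ), g • e = f g * e := fun g e => rfl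
  have hV : ∀ (g : K) (e : Γ), g • (e : Γ ⧸ σ.range) = ((f g * e : Γ) : Γ ⧸ σ.range) :=
    fun g e => rfl
  let T : Tree K (Γ ⧸ σ.range) Γ :=
    { d0 := fun g => (g : Γ ⧸ σ.range)
      d1 := fun g => ((g * b 0 : Γ) : Γ ⧸ σ.range)
      s0 := fun g e => rfl
      s1 := fun g e => by
        rw [hV, hE, mul_assoc]
      conn := by
        intro M F hF
        have hS : ∀ s : Γ, ∀ g : Γ, F ((g * s : Γ) : Γ ⧸ σ.range) = F (g : Γ ⧸ σ.range) := by
          let S : Subgroup Γ :=
            { carrier := {s | ∀ g : Γ, F ((g * s : Γ) : Γ ⧸ σ.range) = F (g : Γ ⧸ σ.range)}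
              one_mem' := by intro p; simp
              mul_mem' := by
                intro w w' hw hw' p
                rw [← mul_assoc, hw', hw]
              inv_mem' := by
                intro w hw p
                have h3 := hw (p * w⁻¹)
                rw [inv_mul_cancel_right] at h3
                exact h3.symm }
          have hS : S = ⊤ := by
            have hr : ∀ s ∈ σ.range, s ∈ S := by
              intro s hs g
              congr 1
              rw [QuotientGroup.eq]
              have : (g * s)⁻¹ * g = s⁻¹ := by group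
              rw [this]
              exact inv_mem hs
            apply top_of S 1
            · intro k hk
              obtain ⟨j, rfl⟩ : ∃ j, k = j + 1 := ⟨k - 1, by omega⟩
              exact hr _ ⟨a j, hσa j⟩
            · intro k
              rcases k with _ | k
              · exact hF
              · exact hr _ ⟨b k, hσb k⟩
          intro s
          have : s ∈ S := by rw [hS]; trivial
          exact this
        intro u v
        obtain ⟨u, rfl⟩ := QuotientGroup.mk_surjective u
        obtain ⟨v, rfl⟩ := QuotientGroup.mk_surjective v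
        have h1 := hS u 1
        have h2 := hS v 1
        rw [one_mul] at h1 h2
        exact h1.trans h2.symm
      surj := by
        intro φ
        obtain ⟨F, hF1, hF2, hF3⟩ := twist 0 φ
        have hS : ∀ s : Γ, ∀ g : Γ, F (g * σ s) = F g := by
          let S : Subgroup Γ :=
            { carrier := {s | ∀ g : Γ, F (g * σ s) = F g}
              one_mem' := by intro p; simp
              mul_mem' := by
                intro w w' hw hw' p
                rw [map_mul, ← mul_assoc, hw', hw]
              inv_mem' := by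
                intro w hw p
                have h3 := hw (p * (σ w)⁻¹)
                rw [inv_mul_cancel_right] at h3
                rw [map_inv]
                exact h3.symm }
          have hS : S = ⊤ := by
            apply top_of S 0
            · intro k hk g
              rw [hσa]
              exact hF1 _ _ (by omega)
            · intro k g
              rw [hσb]
              exact hF2 _ _ (by omega)
          intro s
          have : s ∈ S := by rw [hS]; trivial
          exact this
        refine ⟨fun v => Quotient.liftOn' v F ?_, ?_⟩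
        · intro u v huv
          rw [QuotientGroup.leftRel_apply] at huv
          obtain ⟨s, hs⟩ := huv
          have : v = u * σ s := by rw [hs]; group
          rw [this, hS]
        · intro e
          change F (e * b 0) - F e = φ e
          rw [hF3]
          ring }
  have hfix : ∃ v : Γ ⧸ σ.range, ∃ h : K, h ≠ 1 ∧ h • v = v := by
    by_contra hcon
    push Not at hcon
    have hfree : ∀ (v : Γ ⧸ σ.range) (g : K), g • v = v → g = 1 := by
      intro v g hg
      by_contra hg1
      exact hcon v g hg1 hg
    have : ∃ g0 : K, g0 ≠ 1 := by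
      by_contra hK
      push Not at hK
      exact hc ⟨1, fun g => ⟨0, by rw [hK g, zpow_zero]⟩⟩
    obtain ⟨g0, hg0⟩ := this
    rcases free_case htf T hfree ((1 : Γ) : Γ ⧸ σ.range) g0 hg0 with h | h
    · exact hs h
    · exact hc h
  obtain ⟨v, h, h1, hv⟩ := hfix
  obtain ⟨x, rfl⟩ := QuotientGroup.mk_surjective v
  refine ⟨x, fun g => ?_⟩
  have h2 : g • (x : Γ ⧸ σ.range) = (x : Γ ⧸ σ.range) := by
    apply eq_of_unsep T
    intro e
    have he : ∀ g : K, g • e = e → g = 1 := by
      intro g hg
      rw [hE] at hg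
      apply hf
      rw [map_one]
      exact mul_eq_right.1 hg
    have h3 := step1 (T := T) htf hs hc e he (x : Γ ⧸ σ.range) h h1 hv g 1
    rw [one_smul] at h3
    exact h3
  rw [hV] at h2
  have h3 := QuotientGroup.eq.1 h2.symm
  rwa [← mul_assoc] at h3

/-- the coordinates of the exponents of the `b k` modulo 2 -/
theorem exists_p : ∃ p : ℕ → (Γ →* Multiplicative (ZMod 2)), (∀ k j, p k (a j) = 1) ∧
    ∀ k j, p k (b j) = if j = k then Multiplicative.ofAdd 1 else 1 := by
  have : ∀ k : ℕ, ∃ p : Γ →* Multiplicative (ZMod 2), (∀ j, p (a j) = 1) ∧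
    ∀ j, p (b j) = if j = k then Multiplicative.ofAdd 1 else 1 := by
    intro k
    obtain ⟨f, h1, h2⟩ := univ0 (H := Multiplicative (ZMod 2)) (fun _ => 1)
      (fun j => if j = k then Multiplicative.ofAdd 1 else 1) (by intro j; simp)
    exact ⟨f, h1, h2⟩
  choose p h1 h2 using this
  exact ⟨p, h1, h2⟩

theorem coord (p : ℕ → (Γ →* Multiplicative (ZMod 2))) (h1 : ∀ k j, p k (a j) = 1)
    (h2 : ∀ k j, p k (b j) = if j = k then Multiplicative.ofAdd 1 else 1) (k : ℕ) :
    ∀ (K : Type) [Group K] (f : K →* Γ), Function.Injective f → ¬ Splits K → ¬ Cyc K →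
      ∀ g, p k (f g) = 1 := by
  obtain ⟨σ, ρ, hσa, hσb, hρ⟩ := exists_shift
  have hp0 : ∀ g, p 0 (σ g) = 1 := by
    intro g
    have : ((p 0).comp σ).eqLocus 1 = ⊤ := by
      apply top_of _ 0
      · intro k _
        change p 0 (σ (a k)) = 1
        rw [hσa, h1]
      · intro k
        change p 0 (σ (b k)) = 1
        rw [hσb, h2]
        simp
    have hg : g ∈ ((p 0).comp σ).eqLocus 1 := by rw [this]; trivial
    exact hg
  have hp1 : ∀ k g, p (k + 1) (σ g) = p k g := by
    intro k g
    have : ((p (k + 1)).comp σ).eqLocus (p k) = ⊤ := by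
      apply top_of _ 0
      · intro j _
        change p (k + 1) (σ (a j)) = p k (a j)
        rw [hσa, h1, h1]
      · intro j
        change p (k + 1) (σ (b j)) = p k (b j)
        rw [hσb, h2, h2]
        simp
    have hg : g ∈ ((p (k + 1)).comp σ).eqLocus (p k) := by rw [this]; trivial
    exact hg
  have hconj : ∀ k (x g : Γ), p k (x⁻¹ * g * x) = p k g := by
    intro k x g
    rw [map_mul, map_mul, map_inv, mul_comm (p k x)⁻¹, inv_mul_cancel_right]
  induction k with
  | zero =>
    intro K _ f hf hs hc g
    obtain ⟨x, hx⟩ := fixes f hf hs hc σ hσa hσb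
    obtain ⟨y, hy⟩ := hx g
    rw [← hconj 0 x, ← hy, hp0]
  | succ k ih =>
    intro K _ f hf hs hc g
    obtain ⟨x, hx⟩ := fixes f hf hs hc σ hσa hσb
    let f' : K →* Γ := ρ.comp ((MulAut.conj x⁻¹).toMonoidHom.comp f)
    have hf' : ∀ g, σ (f' g) = x⁻¹ * f g * x := by
      intro g
      obtain ⟨y, hy⟩ := hx g
      have : f' g = ρ (x⁻¹ * f g * x) := by
        simp [f']
      rw [this, ← hy, hρ]
    have hinj : Function.Injective f' := by
      intro u v huv
      have h3 := congrArg σ huv
      rw [hf', hf'] at h3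
      exact hf (mul_left_cancel (mul_right_cancel h3))
    have h4 := ih K f' hinj hs hc g
    rw [← hp1, hf', hconj] at h4
    exact h4

theorem no_decomp (n : ℕ) (K : Fin n → Type) [∀ i, Group (K i)] (hK : ∀ i, ¬ Splits (K i))
    (e : Γ ≃* Monoid.CoprodI K) : False := by
  classical
  obtain ⟨p, h1, h2⟩ := exists_p
  let Q : Γ → (ℕ → ZMod 2) := fun g k => (p k g).toAdd
  have hQmul : ∀ g h, Q (g * h) = Q g + Q h := by
    intro g h
    funext k
    change (p k (g * h)).toAdd = (p k g).toAdd + (p k h).toAdd
    rw [map_mul, toAdd_mul]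
  have hQone : Q 1 = 0 := by
    funext k
    change (p k 1).toAdd = 0
    rw [map_one, toAdd_one]
  have hQz : ∀ g (m : ℤ), Q (g ^ m) = m • Q g := by
    intro g m
    funext k
    change (p k (g ^ m)).toAdd = m • (p k g).toAdd
    rw [map_zpow, toAdd_zpow]
  have ht : ∀ i, ∃ t : ℕ → ZMod 2, ∀ x : K i, ∃ m : ℤ, Q (e.symm (Monoid.CoprodI.of x)) = m • t := by
    intro i
    by_cases hc : Cyc (K i)
    · obtain ⟨t, ht⟩ := hc
      refine ⟨Q (e.symm (Monoid.CoprodI.of t)), fun x => ?_⟩
      obtain ⟨m, rfl⟩ := ht x
      refine ⟨m, ?_⟩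
      rw [← hQz, map_zpow, map_zpow]
    · refine ⟨0, fun x => ⟨0, ?_⟩⟩
      rw [smul_zero]
      funext k
      have := coord p h1 h2 k (K i) (e.symm.toMonoidHom.comp Monoid.CoprodI.of)
        (e.symm.injective.comp (Monoid.CoprodI.of_injective i)) (hK i) hc x
      change (p k _).toAdd = 0
      exact congrArg Multiplicative.toAdd this
  choose t ht using ht
  let W : Submodule (ZMod 2) (ℕ → ZMod 2) := Submodule.span (ZMod 2) (Set.range t)
  have hW : ∀ g, Q g ∈ W := by
    intro g
    obtain ⟨w, rfl⟩ := e.symm.surjective g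
    induction w using Monoid.CoprodI.induction_on with
    | one => rw [map_one, hQone]; exact W.zero_mem
    | of i x =>
      obtain ⟨m, hm⟩ := ht i x
      rw [hm]
      exact W.smul_of_tower_mem m (Submodule.subset_span ⟨i, rfl⟩)
    | mul x y hx hy =>
      rw [map_mul, hQmul]
      exact W.add_mem hx hy
  have hfin : Module.Finite (ZMod 2) W := Module.Finite.span_of_finite _ (Set.finite_range t)
  have hfin' : Finite W := Module.finite_of_finite (ZMod 2)
  have hinj : Function.Injective (fun k : ℕ => (⟨Q (b k), hW _⟩ : W)) := by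
    intro k j hkj
    have h3 : Q (b k) = Q (b j) := congrArg Subtype.val hkj
    have h4 := congrFun h3 k
    change (p k (b k)).toAdd = (p k (b j)).toAdd at h4
    rw [h2, h2, if_pos rfl] at h4
    by_contra hne
    rw [if_neg (fun h => hne h.symm)] at h4
    exact absurd h4 (by decide)
  exact not_injective_infinite_finite _ hinj

end Pool.Agent.R644.K
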