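import Pool.Agent.R974.SA.Stm

/-! Piece D of project SA (MP_d3a052_pr): duality `PG d k = PG k d`. -/

namespace Pool.Agent.R644.SAD

open MeasureTheory ProbabilityTheory Filter Topology
open scoped ENNReal MatrixOrder
open Pool.Agent.R974.SA

/-! ### Generalities -/

lemma lintegral_fin_prod {n : ℕ} {E : Fin n → Type*}
    {mE : ∀ i, MeasurableSpace (E i)} {μ : (i : Fin n) → Measure (E i)} [∀ i, SigmaFinite (μ i)]
    (f : (i : Fin n) → E i → ℝ≥0∞) (hf : ∀ i, Measurable (f i)) :
    ∫⁻ x : (i : Fin n) → E i, ∏ i, f i (x i) ∂(Measure.pi μ) = ∏ i, ∫⁻ x, f i x ∂(μ i) := by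
  induction n with
  | zero => simp
  | succ n ih =>
    calc
      _ = ∫⁻ x : E 0 × ((i : Fin n) → E (Fin.succ i)),
            f 0 x.1 * ∏ i : Fin n, f (Fin.succ i) (x.2 i)
            ∂((μ 0).prod (Measure.pi (fun i ↦ μ i.succ))) := by
          rw [← ((measurePreserving_piFinSuccAbove μ 0).symm).lintegral_comp_emb
            (MeasurableEquiv.measurableEmbedding _)]
          simp_rw [MeasurableEquiv.piFinSuccAbove_symm_apply, Fin.insertNthEquiv,
            Fin.prod_univ_succ, Fin.insertNth_zero, Equiv.coe_fn_mk, Fin.cons_succ,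
            Fin.zero_succAbove, cast_eq, Fin.cons_zero]
          rfl
      _ = (∫⁻ x, f 0 x ∂μ 0)
            * ∏ i : Fin n, ∫⁻ (x : E (Fin.succ i)), f (Fin.succ i) x ∂(μ i.succ) := by
          rw [← ih _ (fun i => hf i.succ), ← lintegral_prod_mul (hf 0).aemeasurable]
          exact (Finset.measurable_prod _ fun i _ =>
            (hf i.succ).comp (measurable_pi_apply i)).aemeasurable
      _ = ∏ i, ∫⁻ x, f i x ∂(μ i) := by rw [Fin.prod_univ_succ]

lemma pi_withDensity {n : ℕ} {E : Fin n → Type*}
    {mE : ∀ i, MeasurableSpace (E i)} {μ : (i : Fin n) → Measure (E i)} [∀ i, SigmaFinite (μ i)]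
    (f : (i : Fin n) → E i → ℝ≥0∞) (hf : ∀ i, Measurable (f i))
    [∀ i, SigmaFinite ((μ i).withDensity (f i))] :
    Measure.pi (fun i => (μ i).withDensity (f i)) =
      (Measure.pi μ).withDensity (fun x => ∏ i, f i (x i)) := by
  refine Measure.pi_eq fun s hs => ?_
  rw [withDensity_apply _ (MeasurableSet.univ_pi hs), Measure.restrict_pi_pi,
    lintegral_fin_prod _ hf]
  exact Finset.prod_congr rfl fun i _ => (withDensity_apply _ (hs i)).symm

/-- `a × b` matrices, as plain functions. -/
abbrev Mt (a b : ℕ) := Fin a → Fin b → ℝ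

/-- product of matrices -/
def mm {a b c : ℕ} (X : Mt a b) (Y : Mt b c) : Mt a c := fun i j => ∑ l, X i l * Y l j

/-- transpose -/
def tr {a b : ℕ} (X : Mt a b) : Mt b a := fun i j => X j i

/-- determinant -/
noncomputable def dt {a : ℕ} (X : Mt a a) : ℝ := Matrix.det (Matrix.of X)

lemma of_mm {a b c : ℕ} (X : Mt a b) (Y : Mt b c) :
    Matrix.of (mm X Y) = Matrix.of X * Matrix.of Y := by
  ext i j; simp [mm, Matrix.mul_apply]

lemma continuous_mm {a b c : ℕ} : Continuous (fun p : Mt a b × Mt b c => mm p.1 p.2) := by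
  unfold mm; fun_prop

lemma continuous_dt {a : ℕ} : Continuous (dt : Mt a a → ℝ) := by
  unfold dt; exact Continuous.matrix_det continuous_id

lemma continuous_tr {a b : ℕ} : Continuous (tr : Mt a b → Mt b a) := by
  unfold tr; fun_prop

/-- Transposition preserves volume. -/
lemma mp_tr (a b : ℕ) : MeasurePreserving (tr : Mt a b → Mt b a) volume volume := by
  refine ⟨continuous_tr.measurable, ?_⟩
  -- both are `pi` of a reindexed product
  have key : ∀ a b : ℕ, Measure.map (fun (z : Fin a × Fin b → ℝ) => (fun i j => z (i, j) : Mt a b))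
      volume = volume := by
    intro a b
    have h := Measure.pi_eq (μ := fun _ : Fin a × Fin b => (volume : Measure ℝ))
      (μ' := Measure.map (fun (X : Mt a b) => (fun p => X p.1 p.2 : Fin a × Fin b → ℝ)) volume) ?_
    · have h' : (volume : Measure (Fin a × Fin b → ℝ)) =
        Measure.map (fun (X : Mt a b) => (fun p => X p.1 p.2 : Fin a × Fin b → ℝ)) volume := h
      rw [h', Measure.map_map (by fun_prop) (by fun_prop)]
      exact Measure.map_id
    · intro s hs
      rw [Measure.map_apply (by fun_prop) (MeasurableSet.univ_pi hs)]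
      have : (fun (X : Mt a b) => (fun p => X p.1 p.2 : Fin a × Fin b → ℝ)) ⁻¹' (Set.univ.pi s) =
          Set.univ.pi (fun i => Set.univ.pi (fun j => s (i, j))) := by
        ext X; simp
      rw [this, volume_pi_pi]
      simp_rw [volume_pi_pi]
      rw [Fintype.prod_prod_type]
  have sw : Measure.map (fun (z : Fin a × Fin b → ℝ) => (fun p => z p.swap : Fin b × Fin a → ℝ))
      volume = volume := by
    refine (Measure.pi_eq fun s hs => ?_).symm
    rw [Measure.map_apply (by fun_prop) (MeasurableSet.univ_pi hs)]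
    have : (fun (z : Fin a × Fin b → ℝ) => (fun p => z p.swap : Fin b × Fin a → ℝ)) ⁻¹'
        (Set.univ.pi s) = Set.univ.pi (fun p : Fin a × Fin b => s p.swap) := by
      ext z
      simp only [Set.mem_preimage, Set.mem_univ_pi]
      constructor
      · intro h p
        simpa using h p.swap
      · intro h p
        simpa using h p.swap
    rw [this, volume_pi_pi]
    exact (Equiv.prodComm (Fin a) (Fin b)).prod_comp (fun p => volume (s p))
  rw [← key a b, Measure.map_map continuous_tr.measurable (by fun_prop), ← key b a, ← sw,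
    Measure.map_map (by fun_prop) (by fun_prop)]
  rfl

lemma lintegral_tr {a b : ℕ} (g : Mt b a → ℝ≥0∞) (hg : Measurable g) :
    ∫⁻ X : Mt a b, g (tr X) = ∫⁻ Y : Mt b a, g Y :=
  (mp_tr a b).lintegral_comp hg

/-- Right multiplication by a square matrix. -/
lemma lintegral_mm {a b : ℕ} (M : Mt b b) (hM : dt M ≠ 0) (g : Mt a b → ℝ≥0∞) (hg : Measurable g) :
    ∫⁻ X : Mt a b, g X = (ENNReal.ofReal |dt M|) ^ a * ∫⁻ X : Mt a b, g (mm X M) := by
  have h1 := Real.map_matrix_volume_pi_eq_smul_volume_pi (M := (Matrix.of M).transpose)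
    (by rw [Matrix.det_transpose]; exact hM)
  rw [Matrix.det_transpose] at h1
  have hc : ENNReal.ofReal |(Matrix.of M).det⁻¹| ≠ ∞ := ENNReal.ofReal_ne_top
  have h2 : Measure.map (fun (X : Mt a b) => mm X M) volume =
      (ENNReal.ofReal |(dt M)⁻¹|) ^ a • (volume : Measure (Mt a b)) := by
    have hs : ∀ _ : Fin a, SigmaFinite (Measure.map (Matrix.toLin' (Matrix.of M).transpose)
        (volume : Measure (Fin b → ℝ))) := by
      intro i
      rw [h1]
      exact (inferInstance : SigmaFinite
        ((Real.toNNReal |(Matrix.of M).det⁻¹|) • (volume : Measure (Fin b → ℝ))))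
    have h3 := Measure.pi_map_pi (ι := Fin a) (μ := fun _ => (volume : Measure (Fin b → ℝ)))
      (f := fun _ => Matrix.toLin' (Matrix.of M).transpose) (hμ := hs)
      (fun _ => (LinearMap.continuous_of_finiteDimensional _).measurable.aemeasurable)
    have h4 : (fun (x : Fin a → Fin b → ℝ) i => Matrix.toLin' (Matrix.of M).transpose (x i)) =
        fun X => mm X M := by
      funext X i j
      simp only [Matrix.toLin'_apply, Matrix.mulVec, dotProduct, mm, Matrix.transpose_apply,
        Matrix.of_apply]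
      exact Finset.sum_congr rfl fun l _ => mul_comm _ _
    rw [h4] at h3
    rw [show (volume : Measure (Mt a b)) = Measure.pi (fun _ => volume) from rfl, h3]
    refine @Measure.pi_eq _ _ _ _ _ hs _ fun s hs' => ?_
    rw [Measure.smul_apply, Measure.pi_pi]
    simp_rw [h1, Measure.smul_apply, smul_eq_mul]
    rw [Finset.prod_mul_distrib, Finset.prod_const, Finset.card_univ, Fintype.card_fin]
    rfl
  have h5 : ∫⁻ X : Mt a b, g (mm X M) = (ENNReal.ofReal |(dt M)⁻¹|) ^ a * ∫⁻ X : Mt a b, g X := by
    rw [← lintegral_map hg, h2, lintegral_smul_measure, smul_eq_mul]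
    exact (continuous_mm.comp (by fun_prop : Continuous fun X : Mt a b => (X, M))).measurable
  rw [h5, ← mul_assoc, ← mul_pow, ← ENNReal.ofReal_mul (abs_nonneg _), ← abs_mul,
    mul_inv_cancel₀ hM, abs_one, ENNReal.ofReal_one, one_pow, one_mul]

/-- The singular matrices form a null set. -/
lemma null_dt (n : ℕ) : (volume : Measure (Mt n n)) {U : Mt n n | dt U = 0} = 0 := by
  let I : Mt n n := fun i j => if i = j then 1 else 0
  let s : Set (Mt n n × ℝ) := {p | dt (p.1 + p.2 • I) = 0}
  have hs : MeasurableSet s :=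
    (isClosed_eq (continuous_dt.comp (by fun_prop)) continuous_const).measurableSet
  have h0 : ((volume : Measure (Mt n n)).prod (volume : Measure ℝ)) s = 0 := by
    rw [Measure.measure_prod_null hs]
    refine Filter.Eventually.of_forall fun U => ?_
    have hfin : (Prod.mk U ⁻¹' s).Finite := by
      have hne : (Matrix.charpoly (-(Matrix.of U))) ≠ 0 := (Matrix.charpoly_monic _).ne_zero
      refine (Polynomial.finite_setOfPred_isRoot hne).subset ?_
      intro t ht
      have ht' : dt (U + t • I) = 0 := ht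
      show (Matrix.charpoly (-(Matrix.of U))).IsRoot t
      rw [Polynomial.IsRoot, Matrix.eval_charpoly, ← ht']
      unfold dt
      congr 1
      ext i j
      by_cases hij : i = j
      · subst hij; simp [I, add_comm]
      · simp [I, hij]
    exact hfin.measure_zero _
  rw [Measure.prod_apply_symm hs] at h0
  have h1 : ∀ t : ℝ, (volume : Measure (Mt n n)) ((fun x => (x, t)) ⁻¹' s) =
      (volume : Measure (Mt n n)) {U : Mt n n | dt U = 0} := by
    intro t
    have : ((fun x => (x, t)) ⁻¹' s) = (fun x => x + t • I) ⁻¹' {U | dt U = 0} := rfl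
    rw [this, measure_preimage_add_right]
  simp_rw [h1, lintegral_const] at h0
  simpa using h0

/-! ### Gaussian densities -/

/-- Density of a Gaussian matrix. -/
noncomputable def G {a b : ℕ} (X : Mt a b) : ℝ≥0∞ := ∏ i, ∏ j, gaussianPDF 0 1 (X i j)

lemma measurable_G {a b : ℕ} : Measurable (G : Mt a b → ℝ≥0∞) := by
  unfold G
  refine Finset.measurable_prod _ fun i _ => Finset.measurable_prod _ fun j _ => ?_
  exact (measurable_gaussianPDF 0 1).comp (by fun_prop)

lemma gam_eq (n : ℕ) : gam n = (volume : Measure (Fin n → ℝ)).withDensity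
    (fun x => ∏ j, gaussianPDF 0 1 (x j)) := by
  unfold gam
  have h1 : gaussianReal 0 1 = volume.withDensity (gaussianPDF 0 1) :=
    gaussianReal_of_var_ne_zero 0 one_ne_zero
  have _inst : SigmaFinite ((volume : Measure ℝ).withDensity (gaussianPDF 0 1)) := by
    rw [← h1]
    infer_instance
  have h := pi_withDensity (n := n) (μ := fun _ => (volume : Measure ℝ))
    (fun _ => gaussianPDF 0 1) (fun _ => measurable_gaussianPDF 0 1)
  simp_rw [h1]
  exact h

lemma pig_eq (m n : ℕ) : (Measure.pi fun _ : Fin m => gam n) =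
    (volume : Measure (Mt m n)).withDensity G := by
  have hm : Measurable (fun x : Fin n → ℝ => ∏ j, gaussianPDF 0 1 (x j)) :=
    Finset.measurable_prod _ fun j _ => (measurable_gaussianPDF 0 1).comp (by fun_prop)
  have _inst : SigmaFinite ((volume : Measure (Fin n → ℝ)).withDensity
      (fun x => ∏ j, gaussianPDF 0 1 (x j))) := by
    rw [← gam_eq]
    infer_instance
  have h := pi_withDensity (n := m) (μ := fun _ => (volume : Measure (Fin n → ℝ)))
    (fun _ => fun x => ∏ j, gaussianPDF 0 1 (x j)) (fun _ => hm)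
  simp_rw [gam_eq]
  exact h

/-- squared Hilbert-Schmidt norm -/
def nsq {a b : ℕ} (X : Mt a b) : ℝ := ∑ i, ∑ j, X i j ^ 2

lemma nsq_tr {a b : ℕ} (X : Mt a b) : nsq (tr X) = nsq X := by
  unfold nsq tr
  exact Finset.sum_comm

lemma nsq_eq {a b : ℕ} (X : Mt a b) :
    nsq X = (Matrix.of X * (Matrix.of X).transpose).trace := by
  simp [nsq, Matrix.trace, Matrix.mul_apply, sq]

/-- `(2π)^{-1/2}` -/
noncomputable def c0 : ℝ := (Real.sqrt (2 * Real.pi * (1 : NNReal)))⁻¹

lemma c0_nonneg : 0 ≤ c0 := by unfold c0; positivity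

lemma G_eq {a b : ℕ} (X : Mt a b) :
    G X = ENNReal.ofReal (c0 ^ (a * b) * Real.exp (-(nsq X) / 2)) := by
  unfold G gaussianPDF
  have h1 : ∀ i j, 0 ≤ gaussianPDFReal 0 1 (X i j) := fun i j => gaussianPDFReal_nonneg _ _ _
  simp_rw [← ENNReal.ofReal_prod_of_nonneg (fun j _ => h1 _ j)]
  rw [← ENNReal.ofReal_prod_of_nonneg (fun i _ => Finset.prod_nonneg fun j _ => h1 i j)]
  congr 1
  unfold gaussianPDFReal
  simp_rw [Finset.prod_mul_distrib, Finset.prod_const, Finset.card_univ, Fintype.card_fin,
    ← Real.exp_sum]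
  rw [← pow_mul, mul_comm b a]
  unfold c0 nsq
  congr 2
  rw [← Finset.sum_neg_distrib, Finset.sum_div]
  refine Finset.sum_congr rfl fun i _ => ?_
  rw [← Finset.sum_neg_distrib, Finset.sum_div]
  refine Finset.sum_congr rfl fun j _ => ?_
  simp

/-! ### Inner integral -/

/-- the constant -/
noncomputable def C (d k : ℕ) : ℝ≥0∞ :=
  ∫⁻ W : Mt d d, ENNReal.ofReal |dt W| ^ k *
    ENNReal.ofReal (c0 ^ (d * d + k * d) * Real.exp (-(nsq W) / 2))

lemma continuous_nsq {a b : ℕ} : Continuous (nsq : Mt a b → ℝ) := by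
  unfold nsq; fun_prop

lemma measurable_e {d : ℕ} (c : ℝ) : Measurable (fun W : Mt d d =>
    ENNReal.ofReal (c * Real.exp (-(nsq W) / 2))) :=
  (continuous_const.mul
        (Real.continuous_exp.comp (continuous_nsq.neg.div_const _))).measurable.ennreal_ofReal

/-- the matrix-`t` kernel -/
noncomputable def J {k d : ℕ} (L : Mt k d) : ℝ≥0∞ :=
  ENNReal.ofReal ((Real.sqrt (1 + (Matrix.of L).transpose * (Matrix.of L)).det)⁻¹) ^ (k + d)

lemma inner {d k : ℕ} (L : Mt k d) :
    ∫⁻ U : Mt d d, ENNReal.ofReal |dt U| ^ k * (G U * G (mm L U)) = C d k * J L := by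
  classical
  set S : Matrix (Fin d) (Fin d) ℝ := 1 + (Matrix.of L).transpose * (Matrix.of L) with hS
  have hpd : S.PosDef := by
    have h1 : (1 : Matrix (Fin d) (Fin d) ℝ).PosDef := Matrix.PosDef.one
    have h2 : ((Matrix.of L).transpose * (Matrix.of L)).PosSemidef := by
      have := Matrix.posSemidef_conjTranspose_mul_self (Matrix.of L)
      rwa [Matrix.conjTranspose_eq_transpose_of_trivial] at this
    exact h1.add_posSemidef h2
  obtain ⟨B', hB'⟩ := CStarAlgebra.nonneg_iff_eq_star_mul_self.mp hpd.posSemidef.nonneg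
  rw [Matrix.star_eq_conjTranspose, Matrix.conjTranspose_eq_transpose_of_trivial] at hB'
  let B : Mt d d := fun i j => B' j i
  have hB : S = Matrix.of B * (Matrix.of B).transpose := by
    rw [hB']; rfl
  have hdet : S.det = dt B ^ 2 := by
    rw [hB, Matrix.det_mul, Matrix.det_transpose, sq]; rfl
  have hBne : dt B ≠ 0 := by
    intro h
    rw [h] at hdet
    exact hpd.det_pos.ne' (by rw [hdet]; norm_num)
  have hsq : Real.sqrt S.det = |dt B| := by rw [hdet, Real.sqrt_sq_eq_abs]
  -- transposition
  have hm : Measurable fun U : Mt d d => ENNReal.ofReal |dt U| ^ k * (G U * G (mm L U)) := by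
    have e1 : Measurable fun U : Mt d d => ENNReal.ofReal |dt U| ^ k :=
      (continuous_dt.abs.measurable.ennreal_ofReal).pow_const _
    have e2 : Measurable fun U : Mt d d => mm L U :=
      (continuous_mm.comp (by fun_prop : Continuous fun U : Mt d d => (L, U))).measurable
    have e3 : Measurable fun U : Mt d d => G (mm L U) := measurable_G.comp e2
    exact e1.mul (measurable_G.mul e3)
  rw [← lintegral_tr _ hm]
  let h : Mt d d → ℝ≥0∞ := fun W => ENNReal.ofReal |dt W * (dt B)⁻¹| ^ k *
    ENNReal.ofReal (c0 ^ (d * d + k * d) * Real.exp (-(nsq W) / 2))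
  have hh : Measurable h :=
    (((continuous_dt.mul continuous_const).abs.measurable.ennreal_ofReal).pow_const _).mul
      (measurable_e _)
  have hpt : ∀ T : Mt d d, ENNReal.ofReal |dt (tr T)| ^ k * (G (tr T) * G (mm L (tr T))) =
      h (mm T B) := by
    intro T
    have h1 : dt (tr T) = dt T := Matrix.det_transpose _
    have h2 : dt (mm T B) = dt T * dt B := by
      unfold dt; rw [of_mm, Matrix.det_mul]
    have h3 : nsq (tr T) + nsq (mm L (tr T)) = nsq (mm T B) := by
      have e1 : tr (mm L (tr T)) = mm T (tr L) := by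
        funext i j; simp [tr, mm, mul_comm]
      rw [nsq_tr, ← nsq_tr (mm L (tr T)), e1, nsq_eq, nsq_eq, nsq_eq, of_mm, of_mm,
        Matrix.transpose_mul, Matrix.transpose_mul]
      have e2 : Matrix.of (tr L) = (Matrix.of L).transpose := rfl
      rw [e2, Matrix.transpose_transpose]
      have e3 : Matrix.of T * Matrix.of B * ((Matrix.of B).transpose * (Matrix.of T).transpose) =
          Matrix.of T * S * (Matrix.of T).transpose := by
        rw [hB]; simp only [Matrix.mul_assoc]
      rw [e3, hS, Matrix.mul_add, Matrix.add_mul, Matrix.trace_add, Matrix.mul_one]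
      simp only [Matrix.mul_assoc]
    show _ = ENNReal.ofReal |dt (mm T B) * (dt B)⁻¹| ^ k *
      ENNReal.ofReal (c0 ^ (d * d + k * d) * Real.exp (-(nsq (mm T B)) / 2))
    rw [h1, h2, mul_assoc, mul_inv_cancel₀ hBne, mul_one, G_eq, G_eq, ← ENNReal.ofReal_mul
      (mul_nonneg (pow_nonneg c0_nonneg _) (Real.exp_pos _).le), ← h3]
    congr 2
    rw [pow_add, show -(nsq (tr T) + nsq (mm L (tr T))) / 2 =
      -(nsq (tr T)) / 2 + -(nsq (mm L (tr T))) / 2 by ring, Real.exp_add]
    ring
  simp_rw [hpt]
  have h5 := lintegral_mm B hBne h hh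
  have h6 : ∫⁻ W, h W = ENNReal.ofReal |(dt B)⁻¹| ^ k * C d k := by
    unfold C
    rw [← lintegral_const_mul]
    · refine lintegral_congr fun W => ?_
      show ENNReal.ofReal |dt W * (dt B)⁻¹| ^ k * _ = _
      rw [abs_mul, ENNReal.ofReal_mul (abs_nonneg _), mul_pow]
      ring
    · exact ((continuous_dt.abs.measurable.ennreal_ofReal).pow_const _).mul (measurable_e _)
  have h7 : ENNReal.ofReal |(dt B)⁻¹| ^ d * ENNReal.ofReal |dt B| ^ d = 1 := by
    rw [← mul_pow, ← ENNReal.ofReal_mul (abs_nonneg _), ← abs_mul, inv_mul_cancel₀ hBne, abs_one,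
      ENNReal.ofReal_one, one_pow]
  calc ∫⁻ T, h (mm T B) = (ENNReal.ofReal |(dt B)⁻¹| ^ d * ENNReal.ofReal |dt B| ^ d) *
        ∫⁻ T, h (mm T B) := by rw [h7, one_mul]
    _ = ENNReal.ofReal |(dt B)⁻¹| ^ d * ∫⁻ W, h W := by rw [h5, mul_assoc]
    _ = C d k * J L := by
      rw [h6]
      unfold J
      rw [← hS, hsq, abs_inv, pow_add]
      ring

/-! ### Outer integral -/

/-- inverse matrix -/
noncomputable def iv {d : ℕ} (U : Mt d d) : Mt d d := fun i j => (Matrix.of U)⁻¹ i j

lemma measurable_iv {d : ℕ} : Measurable (iv : Mt d d → Mt d d) := by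
  have h : (iv : Mt d d → Mt d d) = fun U => (dt U)⁻¹ •
      (fun i j => (Matrix.of U).adjugate i j : Mt d d) := by
    funext U i j
    unfold iv dt
    rw [Matrix.inv_def, Ring.inverse_eq_inv']
    simp
  rw [h]
  have h2 : Continuous (fun U : Mt d d => (fun i j => (Matrix.of U).adjugate i j : Mt d d)) :=
    Continuous.matrix_adjugate continuous_id
  exact (continuous_dt.measurable.inv).smul h2.measurable

lemma mm_iv {d k : ℕ} (L : Mt k d) {U : Mt d d} (hU : dt U ≠ 0) : mm (mm L U) (iv U) = L := by
  have h : Matrix.of (mm (mm L U) (iv U)) = Matrix.of L := by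
    rw [of_mm, of_mm, Matrix.mul_assoc]
    have : Matrix.of (iv U) = (Matrix.of U)⁻¹ := rfl
    rw [this, Matrix.mul_nonsing_inv _ (isUnit_iff_ne_zero.mpr hU), Matrix.mul_one]
  exact h

lemma iv_mm {d k : ℕ} (V : Mt k d) {U : Mt d d} (hU : dt U ≠ 0) : mm (mm V (iv U)) U = V := by
  have h : Matrix.of (mm (mm V (iv U)) U) = Matrix.of V := by
    rw [of_mm, of_mm, Matrix.mul_assoc]
    have : Matrix.of (iv U) = (Matrix.of U)⁻¹ := rfl
    rw [this, Matrix.nonsing_inv_mul _ (isUnit_iff_ne_zero.mpr hU), Matrix.mul_one]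
  exact h

/-- the event `V U⁻¹ ∈ P` -/
def A {d k : ℕ} (P : Set (Mt k d)) : Set (Mt d d × Mt k d) :=
  {p | dt p.1 ≠ 0 ∧ mm p.2 (iv p.1) ∈ P}

lemma measurable_A {d k : ℕ} {P : Set (Mt k d)} (hP : MeasurableSet P) : MeasurableSet (A P) := by
  have h1 : MeasurableSet {p : Mt d d × Mt k d | dt p.1 ≠ 0} :=
    (isClosed_eq (continuous_dt.comp continuous_fst) continuous_const).measurableSet.compl
  have h2 : Measurable fun p : Mt d d × Mt k d => mm p.2 (iv p.1) :=
    continuous_mm.measurable.comp (measurable_snd.prodMk (measurable_iv.comp measurable_fst))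
  exact h1.inter (h2 hP)

/-- the joint law -/
noncomputable def mu (d k : ℕ) : Measure (Mt d d × Mt k d) :=
  (Measure.pi fun _ : Fin d => gam d).prod (Measure.pi fun _ : Fin k => gam d)

lemma measurable_J {k d : ℕ} : Measurable (J : Mt k d → ℝ≥0∞) := by
  unfold J
  refine Measurable.pow_const ?_ _
  refine Measurable.ennreal_ofReal ?_
  refine Measurable.inv ?_
  refine Continuous.measurable ?_
  refine Real.continuous_sqrt.comp ?_
  refine Continuous.matrix_det ?_
  refine continuous_const.add ?_
  exact Continuous.matrix_mul (Continuous.matrix_transpose continuous_id) continuous_id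

lemma mu_A {d k : ℕ} (hk : 0 < k) {P : Set (Mt k d)} (hP : MeasurableSet P) :
    mu d k (A P) = C d k * ∫⁻ L in P, J L := by
  classical
  have hA := measurable_A (d := d) hP
  have hJ1 : ∀ U : Mt d d, Measurable fun L : Mt k d => mm L U := fun U =>
    (continuous_mm.comp (by fun_prop : Continuous fun L : Mt k d => (L, U))).measurable
  -- joint measurability
  have hjoint : Measurable fun p : Mt d d × Mt k d => P.indicator (1 : Mt k d → ℝ≥0∞) p.2 *
      (ENNReal.ofReal |dt p.1| ^ k * (G p.1 * G (mm p.2 p.1))) := by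
    have e0 : Measurable fun p : Mt d d × Mt k d => P.indicator (1 : Mt k d → ℝ≥0∞) p.2 :=
      (measurable_one.indicator hP).comp measurable_snd
    have e1 : Measurable fun p : Mt d d × Mt k d => ENNReal.ofReal |dt p.1| ^ k :=
      ((continuous_dt.abs.measurable.ennreal_ofReal).pow_const _).comp measurable_fst
    have e2 : Measurable fun p : Mt d d × Mt k d => G p.1 := measurable_G.comp measurable_fst
    have e3 : Measurable fun p : Mt d d × Mt k d => G (mm p.2 p.1) :=
      measurable_G.comp (continuous_mm.comp continuous_swap).measurable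
    exact e0.mul (e1.mul (e2.mul e3))
  have hF : Measurable fun p : Mt d d × Mt k d => (A P).indicator (fun p => G p.1 * G p.2) p :=
    ((measurable_G.comp measurable_fst).mul (measurable_G.comp measurable_snd)).indicator hA
  unfold mu
  rw [pig_eq, pig_eq, prod_withDensity measurable_G measurable_G, withDensity_apply _ hA,
    ← lintegral_indicator hA, lintegral_prod _ hF.aemeasurable]
  have step : ∀ U : Mt d d, ∫⁻ V : Mt k d, (A P).indicator (fun p => G p.1 * G p.2) (U, V) =
      ∫⁻ L : Mt k d, P.indicator (1 : Mt k d → ℝ≥0∞) L *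
        (ENNReal.ofReal |dt U| ^ k * (G U * G (mm L U))) := by
    intro U
    by_cases hU : dt U = 0
    · have h1 : ∀ V, (A P).indicator (fun p => G p.1 * G p.2) (U, V) = 0 := by
        intro V
        refine Set.indicator_of_notMem ?_ _
        intro h
        exact h.1 hU
      simp only [h1, hU, abs_zero, ENNReal.ofReal_zero, zero_pow hk.ne', zero_mul, mul_zero]
    · have hmF : Measurable fun V : Mt k d => (A P).indicator (fun p => G p.1 * G p.2) (U, V) :=
        hF.comp measurable_prodMk_left
      have hmG : Measurable fun L : Mt k d =>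
          (A P).indicator (fun p => G p.1 * G p.2) (U, mm L U) := hmF.comp (hJ1 U)
      rw [lintegral_mm U hU _ hmF, ← lintegral_const_mul _ hmG]
      refine lintegral_congr fun L => ?_
      by_cases hL : L ∈ P
      · have h1 : (U, mm L U) ∈ A P := ⟨hU, by show mm (mm L U) (iv U) ∈ P; rwa [mm_iv L hU]⟩
        rw [Set.indicator_of_mem h1, Set.indicator_of_mem hL]
        simp
      · have h1 : (U, mm L U) ∉ A P := by
          intro h
          have := h.2
          rw [show mm (U, mm L U).2 (iv (U, mm L U).1) = L from mm_iv L hU] at this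
          exact hL this
        rw [Set.indicator_of_notMem h1, Set.indicator_of_notMem hL]
        simp
  simp_rw [step]
  rw [lintegral_lintegral_swap hjoint.aemeasurable]
  have step2 : ∀ L : Mt k d, ∫⁻ U : Mt d d, P.indicator (1 : Mt k d → ℝ≥0∞) L *
        (ENNReal.ofReal |dt U| ^ k * (G U * G (mm L U))) = C d k * P.indicator J L := by
    intro L
    have hm : Measurable fun U : Mt d d => ENNReal.ofReal |dt U| ^ k * (G U * G (mm L U)) := by
      have e1 : Measurable fun U : Mt d d => ENNReal.ofReal |dt U| ^ k :=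
        (continuous_dt.abs.measurable.ennreal_ofReal).pow_const _
      have e2 : Measurable fun U : Mt d d => mm L U :=
        (continuous_mm.comp (by fun_prop : Continuous fun U : Mt d d => (L, U))).measurable
      have e3 : Measurable fun U : Mt d d => G (mm L U) := measurable_G.comp e2
      exact e1.mul (measurable_G.mul e3)
    rw [lintegral_const_mul _ hm, inner]
    by_cases hL : L ∈ P
    · rw [Set.indicator_of_mem hL, Set.indicator_of_mem hL]; simp
    · rw [Set.indicator_of_notMem hL, Set.indicator_of_notMem hL]; simp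
  simp_rw [step2]
  rw [lintegral_const_mul _ (measurable_J.indicator hP), lintegral_indicator hP]

/-- nonnegative matrices -/
def Pos (k d : ℕ) : Set (Mt k d) := {L | ∀ j i, 0 ≤ L j i}

lemma measurable_Pos (k d : ℕ) : MeasurableSet (Pos k d) := by
  unfold Pos
  refine IsClosed.measurableSet ?_
  simp only [Set.ofPred_forall]
  exact isClosed_iInter fun j => isClosed_iInter fun i =>
    isClosed_le continuous_const (by fun_prop)

lemma null_mu (d k : ℕ) : mu d k {p | dt p.1 = 0} = 0 := by
  have h1 : (Measure.pi fun _ : Fin d => gam d) {U : Mt d d | dt U = 0} = 0 := by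
    rw [pig_eq]
    exact withDensity_absolutelyContinuous _ _ (null_dt d)
  have h2 : {p : Mt d d × Mt k d | dt p.1 = 0} = {U : Mt d d | dt U = 0} ×ˢ Set.univ := by
    ext p; simp
  rw [h2, mu, Measure.prod_prod, h1, zero_mul]

lemma InPos_iff {d k : ℕ} {U : Mt d d} (hU : dt U ≠ 0) (V : Mt k d) :
    (∀ j, InPos U (V j)) ↔ mm V (iv U) ∈ Pos k d := by
  constructor
  · intro h
    choose L hL hV using h
    have h1 : V = mm L U := by
      funext j i
      rw [hV j]
      simp [mm]
    rw [h1, mm_iv _ hU]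
    exact hL
  · intro h j
    refine ⟨mm V (iv U) j, h j, ?_⟩
    have h1 := congrFun (iv_mm V hU) j
    rw [← h1]
    funext i
    simp [mm]

lemma PG_eq {d k : ℕ} (hk : 0 < k) : PG d k = C d k * ∫⁻ L in Pos k d, J L := by
  rw [← mu_A hk (measurable_Pos k d)]
  unfold PG
  refine measure_congr ?_
  have h0 : ∀ᵐ p ∂(mu d k), dt p.1 ≠ 0 := by
    rw [ae_iff]
    simpa using null_mu d k
  filter_upwards [h0] with p hp
  apply propext
  show (∀ j, InPos p.1 (p.2 j)) ↔ (dt p.1 ≠ 0 ∧ mm p.2 (iv p.1) ∈ Pos k d)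
  rw [InPos_iff hp]
  exact ⟨fun h => ⟨hp, h⟩, fun h => h.2⟩

lemma total {d k : ℕ} (hk : 0 < k) : C d k * ∫⁻ L : Mt k d, J L = 1 := by
  have h := mu_A (d := d) hk (P := (Set.univ : Set (Mt k d))) MeasurableSet.univ
  rw [Measure.restrict_univ] at h
  rw [← h]
  have _inst : IsProbabilityMeasure (mu d k) := by unfold mu; infer_instance
  have h0 : ∀ᵐ p ∂(mu d k), dt p.1 ≠ 0 := by
    rw [ae_iff]
    simpa using null_mu d k
  rw [prob_compl_eq_zero_iff₀ (measurable_A MeasurableSet.univ).nullMeasurableSet |>.mp]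
  refine measure_mono_null ?_ (null_mu d k)
  intro p hp
  by_contra h
  exact hp ⟨h, trivial⟩

lemma J_tr {k d : ℕ} (L : Mt k d) : J (tr L) = J L := by
  unfold J
  rw [add_comm d k]
  congr 4
  have : Matrix.of (tr L) = (Matrix.of L).transpose := rfl
  rw [this, Matrix.transpose_transpose, Matrix.det_one_add_mul_comm]

lemma setJ (k d : ℕ) (P : Set (Mt k d)) (Q : Set (Mt d k)) (hP : MeasurableSet P)
    (h : ∀ L, tr L ∈ P ↔ L ∈ Q) : ∫⁻ L in P, J L = ∫⁻ L in Q, J L := by
  classical
  have hQ : Q = tr ⁻¹' P := by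
    ext L; exact (h L).symm
  have hQm : MeasurableSet Q := by
    rw [hQ]; exact continuous_tr.measurable hP
  rw [← lintegral_indicator hP, ← lintegral_indicator hQm,
    ← lintegral_tr _ (measurable_J.indicator hP)]
  refine lintegral_congr fun L => ?_
  by_cases hL : L ∈ Q
  · rw [Set.indicator_of_mem hL, Set.indicator_of_mem ((h L).mpr hL), J_tr]
  · rw [Set.indicator_of_notMem hL, Set.indicator_of_notMem (fun h' => hL ((h L).mp h'))]

theorem stmD : StmD := by
  intro d k hd hk
  have hT : ∫⁻ L : Mt k d, J L = ∫⁻ L : Mt d k, J L := by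
    have := setJ k d Set.univ Set.univ MeasurableSet.univ (by simp)
    simpa using this
  have hP : ∫⁻ L in Pos k d, J L = ∫⁻ L in Pos d k, J L := by
    refine setJ k d _ _ (measurable_Pos k d) fun L => ?_
    exact ⟨fun h i j => h j i, fun h j i => h i j⟩
  have hC : C d k = C k d := by
    calc C d k = C d k * (C k d * ∫⁻ L : Mt d k, J L) := by rw [total hd, mul_one]
      _ = C k d * (C d k * ∫⁻ L : Mt k d, J L) := by rw [hT]; ring
      _ = C k d := by rw [total hk, mul_one]
  rw [PG_eq hk, PG_eq hd, hC, hP]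

end Pool.Agent.R644.SAD
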