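import Pool.Agent.R644.SAD

/-! Piece S of project SA (MP_d3a052_pr): from the sphere to Gaussian vectors. -/

namespace Pool.Agent.R644.SAS

open MeasureTheory ProbabilityTheory Filter Topology
open scoped ENNReal
open Pool.Agent.R974.SA

/-! ### Measurability of the relation `v ∈ pos x` -/

lemma measurable_R (d n : ℕ) : MeasurableSet {p : (Fin d → E n) × E n | p.2 ∈ pos p.1} := by
  have h : {p : (Fin d → E n) × E n | p.2 ∈ pos p.1} = ⋃ N : ℕ,
      Prod.snd '' {q : (Set.Icc (0 : Fin d → ℝ) (fun _ => (N : ℝ))) × ((Fin d → E n) × E n) |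
        q.2.2 = ∑ i, (q.1 : Fin d → ℝ) i • q.2.1 i} := by
    ext p
    simp only [Set.mem_iUnion, Set.mem_image]
    constructor
    · rintro ⟨l, hl, hv⟩
      obtain ⟨N, hN⟩ := exists_nat_ge (∑ i, l i)
      refine ⟨N, ⟨⟨l, ⟨fun i => hl i, fun i => ?_⟩⟩, p⟩, hv, rfl⟩
      exact (Finset.single_le_sum (fun j _ => hl j) (Finset.mem_univ i)).trans hN
    · rintro ⟨N, ⟨⟨l, hl⟩, q⟩, hq, rfl⟩
      exact ⟨l, fun i => hl.1 i, hq⟩
  rw [h]
  refine MeasurableSet.iUnion fun N => IsClosed.measurableSet ?_
  refine isClosedMap_snd_of_compactSpace _ ?_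
  refine isClosed_eq (by fun_prop) (continuous_finsetSum _ fun i _ => ?_)
  have e1 : Continuous fun q : (Set.Icc (0 : Fin d → ℝ) (fun _ => (N : ℝ))) ×
      ((Fin d → E n) × E n) => (q.1 : Fin d → ℝ) i :=
    (continuous_apply i).comp (continuous_subtype_val.comp continuous_fst)
  have e2 : Continuous fun q : (Set.Icc (0 : Fin d → ℝ) (fun _ => (N : ℝ))) ×
      ((Fin d → E n) × E n) => q.2.1 i :=
    (continuous_apply i).comp (continuous_fst.comp continuous_snd)
  exact e1.smul e2

/-! ### The Gaussian measure on Euclidean space -/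

/-- standard Gaussian measure on `E d` -/
noncomputable def gE (d : ℕ) : Measure (E d) := (gam d).map (WithLp.toLp 2)

/-- radial density -/
noncomputable def rd (d : ℕ) (r : ℝ) : ℝ≥0∞ := ENNReal.ofReal (SAD.c0 ^ d * Real.exp (-(r ^ 2) / 2))

lemma measurable_rd (d : ℕ) : Measurable (rd d) := by
  unfold rd; fun_prop

lemma dens_eq (d : ℕ) (x : Fin d → ℝ) :
    ∏ j, gaussianPDF 0 1 (x j) = rd d ‖(WithLp.toLp 2 x : E d)‖ := by
  unfold gaussianPDF rd
  rw [← ENNReal.ofReal_prod_of_nonneg (fun j _ => gaussianPDFReal_nonneg _ _ _)]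
  congr 1
  unfold gaussianPDFReal
  rw [Finset.prod_mul_distrib, Finset.prod_const, Finset.card_univ, Fintype.card_fin,
    ← Real.exp_sum, EuclideanSpace.norm_sq_eq]
  unfold SAD.c0
  congr 2
  rw [← Finset.sum_neg_distrib, Finset.sum_div]
  refine Finset.sum_congr rfl fun i _ => ?_
  simp

lemma measurable_toLp (d : ℕ) : Measurable (WithLp.toLp 2 : (Fin d → ℝ) → E d) :=
  (PiLp.volume_preserving_toLp (Fin d)).measurable

lemma gE_eq (d : ℕ) : gE d = (volume : Measure (E d)).withDensity (fun x => rd d ‖x‖) := by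
  ext s hs
  have hm : Measurable fun x : E d => rd d ‖x‖ := (measurable_rd d).comp measurable_norm
  rw [gE, Measure.map_apply (measurable_toLp d) hs, SAD.gam_eq, withDensity_apply _
    (measurable_toLp d hs), withDensity_apply _ hs,
    ← (PiLp.volume_preserving_toLp (Fin d)).setLIntegral_comp_preimage hs hm]
  exact lintegral_congr fun x => dens_eq d x

/-- Polar coordinates. -/
lemma polar {d : ℕ} (F : E d → ℝ≥0∞) (hd : 0 < d) :
    ∫⁻ x, F x = ∫⁻ q : Metric.sphere (0 : E d) 1 × Set.Ioi (0 : ℝ), F ((q.2 : ℝ) • (q.1 : E d))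
      ∂((volume : Measure (E d)).toSphere.prod (Measure.volumeIoiPow (Module.finrank ℝ (E d) - 1))) := by
  have _inst : Nonempty (Fin d) := ⟨⟨0, hd⟩⟩
  have h := Measure.measurePreserving_homeomorphUnitSphereProd (volume : Measure (E d))
  rw [← h.lintegral_comp_emb (Homeomorph.measurableEmbedding _)]
  have h2 : ∀ x : ({0}ᶜ : Set (E d)), F ((((homeomorphUnitSphereProd (E d)) x).2 : ℝ) •
      (((homeomorphUnitSphereProd (E d)) x).1 : E d)) = F (x : E d) := by
    intro x
    congr 1
    have := homeomorphUnitSphereProd_symm_apply_coe (E d) ((homeomorphUnitSphereProd (E d)) x)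
    rw [← this, Homeomorph.symm_apply_apply]
  simp_rw [h2]
  rw [lintegral_subtype_comap (measurableSet_singleton _).compl]
  rw [restrict_compl_singleton]

/-- Gaussian measure of cones. -/
lemma cone {d : ℕ} (hd : 0 < d) (C : Set (E d)) (hC : MeasurableSet C)
    (hcone : ∀ x, ∀ r : ℝ, 0 < r → (r • x ∈ C ↔ x ∈ C)) :
    gE d C = sph d ((fun u => (u : E d)) ⁻¹' C) := by
  classical
  have _inst : Nonempty (Fin d) := ⟨⟨0, hd⟩⟩
  have hsub : Measurable fun u : Metric.sphere (0 : E d) 1 => (u : E d) := measurable_subtype_coe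
  have key : ∀ D : Set (E d), MeasurableSet D → (∀ x, ∀ r : ℝ, 0 < r → (r • x ∈ D ↔ x ∈ D)) →
      gE d D = (volume : Measure (E d)).toSphere ((fun u => (u : E d)) ⁻¹' D) *
        ∫⁻ r : Set.Ioi (0 : ℝ), rd d r ∂(Measure.volumeIoiPow (Module.finrank ℝ (E d) - 1)) := by
    intro D hD hDc
    rw [gE_eq, withDensity_apply _ hD, ← lintegral_indicator hD, polar _ hd]
    have e : ∀ q : Metric.sphere (0 : E d) 1 × Set.Ioi (0 : ℝ),
        D.indicator (fun x => rd d ‖x‖) ((q.2 : ℝ) • (q.1 : E d)) =
          ((fun u : Metric.sphere (0 : E d) 1 => (u : E d)) ⁻¹' D).indicator 1 q.1 *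
            rd d (q.2 : ℝ) := by
      rintro ⟨u, r⟩
      have hr : (0 : ℝ) < r := r.2
      have hu : ‖(u : E d)‖ = 1 := by simpa using u.2
      by_cases hq : (u : E d) ∈ D
      · rw [Set.indicator_of_mem ((hDc _ _ hr).mpr hq), Set.indicator_of_mem (by exact hq)]
        rw [norm_smul, hu, mul_one, Real.norm_of_nonneg hr.le]
        simp
      · rw [Set.indicator_of_notMem (fun h => hq ((hDc _ _ hr).mp h)),
          Set.indicator_of_notMem (by exact hq)]
        simp
    simp_rw [e]
    have hmr : Measurable fun r : Set.Ioi (0 : ℝ) => rd d (r : ℝ) :=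
      (measurable_rd d).comp measurable_subtype_coe
    rw [lintegral_prod_mul ((measurable_one.indicator (hsub hD)).aemeasurable)
      hmr.aemeasurable]
    rw [lintegral_indicator_one (hsub hD)]
  have h1 := key Set.univ MeasurableSet.univ (by simp)
  have h2 := key C hC hcone
  have hprob : gE d Set.univ = 1 := by
    rw [gE, Measure.map_apply (measurable_toLp d) MeasurableSet.univ, Set.preimage_univ]
    exact measure_univ
  rw [Set.preimage_univ, hprob] at h1
  have hne : (volume : Measure (E d)).toSphere Set.univ ≠ 0 := by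
    intro h
    rw [h, zero_mul] at h1
    exact one_ne_zero h1
  have hnt : (volume : Measure (E d)).toSphere Set.univ ≠ ∞ := measure_ne_top _ _
  rw [h2, sph, Measure.smul_apply, smul_eq_mul]
  have h3 : ∫⁻ r : Set.Ioi (0 : ℝ), rd d r
      ∂(Measure.volumeIoiPow (Module.finrank ℝ (E d) - 1)) =
      ((volume : Measure (E d)).toSphere Set.univ)⁻¹ := by
    exact ENNReal.eq_inv_of_mul_eq_one_left (by rw [mul_comm]; exact h1.symm)
  rw [h3, mul_comm]

/-! ### Normalisation -/

/-- normalised vector (a fixed unit vector at `0`) -/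
noncomputable def nv {d : ℕ} (hd : 0 < d) (x : E d) : E d :=
  if x = 0 then EuclideanSpace.single ⟨0, hd⟩ 1 else ‖x‖⁻¹ • x

lemma nv_mem {d : ℕ} (hd : 0 < d) (x : E d) : nv hd x ∈ Metric.sphere (0 : E d) 1 := by
  rw [mem_sphere_zero_iff_norm]
  unfold nv
  split_ifs with h
  · simp
  · rw [norm_smul, norm_inv, norm_norm, inv_mul_cancel₀ (norm_ne_zero_iff.mpr h)]

/-- normalisation map to the sphere -/
noncomputable def nrm {d : ℕ} (hd : 0 < d) (x : E d) : Metric.sphere (0 : E d) 1 :=
  ⟨nv hd x, nv_mem hd x⟩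

lemma measurable_nrm {d : ℕ} (hd : 0 < d) : Measurable (nrm hd) := by
  refine Measurable.subtype_mk ?_
  refine Measurable.ite (measurableSet_singleton 0) measurable_const ?_
  exact measurable_norm.inv.smul measurable_id

lemma map_nrm {d : ℕ} (hd : 0 < d) : (gE d).map (nrm hd) = sph d := by
  have _inst : Nonempty (Fin d) := ⟨⟨0, hd⟩⟩
  ext A hA
  rw [Measure.map_apply (measurable_nrm hd) hA]
  let C : Set (E d) := nrm hd ⁻¹' A ∩ {0}ᶜ
  have hC : MeasurableSet C := (measurable_nrm hd hA).inter (measurableSet_singleton _).compl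
  have hnull : gE d {0} = 0 := by
    rw [gE_eq]
    exact withDensity_absolutelyContinuous _ _ (measure_singleton _)
  have h1 : gE d (nrm hd ⁻¹' A) = gE d C := by
    refine measure_congr ?_
    have h0 : ∀ᵐ x ∂(gE d), x ≠ 0 := by
      rw [ae_iff]
      simpa using hnull
    filter_upwards [h0] with x hx
    apply propext
    exact ⟨fun h => ⟨h, hx⟩, fun h => h.1⟩
  have hsc : ∀ (x : E d) (r : ℝ), 0 < r → nrm hd (r • x) = nrm hd x := by
    intro x r hr
    apply Subtype.ext
    show nv hd (r • x) = nv hd x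
    unfold nv
    by_cases hx : x = 0
    · simp [hx]
    · rw [if_neg hx, if_neg (smul_ne_zero hr.ne' hx), norm_smul, Real.norm_of_nonneg hr.le,
        smul_smul, mul_inv, mul_assoc, mul_comm ‖x‖⁻¹ r, ← mul_assoc, inv_mul_cancel₀ hr.ne',
        one_mul]
  rw [h1, cone hd C hC]
  · congr 1
    ext u
    have hu : ‖(u : E d)‖ = 1 := by simp
    have hu0 : (u : E d) ≠ 0 := by
      intro h
      rw [h, norm_zero] at hu
      exact zero_ne_one hu
    have hn : nrm hd (u : E d) = u := by
      apply Subtype.ext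
      show nv hd (u : E d) = u
      unfold nv
      rw [if_neg hu0, hu, inv_one, one_smul]
    constructor
    · intro h
      have := h.1
      rw [Set.mem_preimage, hn] at this
      exact this
    · intro h
      refine ⟨?_, hu0⟩
      rw [Set.mem_preimage, hn]
      exact h
  · intro x r hr
    constructor
    · rintro ⟨h, h'⟩
      refine ⟨?_, ?_⟩
      · rw [Set.mem_preimage, hsc x r hr] at h
        exact h
      · intro h0
        apply h'
        rw [Set.mem_singleton_iff] at h0 ⊢
        rw [h0, smul_zero]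
    · rintro ⟨h, h'⟩
      refine ⟨?_, ?_⟩
      · rw [Set.mem_preimage, hsc x r hr]
        exact h
      · intro h0
        rw [Set.mem_singleton_iff] at h0
        rcases smul_eq_zero.mp h0 with h0 | h0
        · exact hr.ne' h0
        · exact h' h0

instance (d : ℕ) : IsProbabilityMeasure (gE d) :=
  Measure.isProbabilityMeasure_map (measurable_toLp d).aemeasurable

lemma pos_scale {n m : ℕ} (x y : Fin m → E n) (r : Fin m → ℝ) (hr : ∀ i, 0 < r i)
    (h : ∀ i, y i = r i • x i) : pos y = pos x := by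
  ext v
  constructor
  · rintro ⟨l, hl, hv⟩
    refine ⟨fun i => l i * r i, fun i => mul_nonneg (hl i) (hr i).le, ?_⟩
    rw [hv]
    refine Finset.sum_congr rfl fun i _ => ?_
    rw [h i, smul_smul]
  · rintro ⟨l, hl, hv⟩
    refine ⟨fun i => l i * (r i)⁻¹, fun i => mul_nonneg (hl i) (inv_nonneg.mpr (hr i).le), ?_⟩
    rw [hv]
    refine Finset.sum_congr rfl fun i _ => ?_
    rw [h i, smul_smul, mul_assoc, inv_mul_cancel₀ (hr i).ne', mul_one]

lemma pos_cone {n m : ℕ} (x : Fin m → E n) (v : E n) (r : ℝ) (hr : 0 < r) :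
    r • v ∈ pos x ↔ v ∈ pos x := by
  constructor
  · rintro ⟨l, hl, hv⟩
    refine ⟨fun i => r⁻¹ * l i, fun i => mul_nonneg (inv_nonneg.mpr hr.le) (hl i), ?_⟩
    have : v = r⁻¹ • (r • v) := by rw [smul_smul, inv_mul_cancel₀ hr.ne', one_smul]
    rw [this, hv, Finset.smul_sum]
    exact Finset.sum_congr rfl fun i _ => by rw [smul_smul]
  · rintro ⟨l, hl, hv⟩
    refine ⟨fun i => r * l i, fun i => mul_nonneg hr.le (hl i), ?_⟩
    rw [hv, Finset.smul_sum]
    exact Finset.sum_congr rfl fun i _ => by rw [smul_smul]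

lemma InPos_iff {n m : ℕ} (U : Fin m → (Fin n → ℝ)) (v : Fin n → ℝ) :
    InPos U v ↔ (WithLp.toLp 2 v : E n) ∈ pos (fun i => (WithLp.toLp 2 (U i) : E n)) := by
  have h : ∀ l : Fin m → ℝ, (WithLp.toLp 2 (∑ i, l i • U i) : E n) =
      ∑ i, l i • (WithLp.toLp 2 (U i) : E n) := by
    intro l
    ext j
    simp
  constructor
  · rintro ⟨l, hl, hv⟩
    exact ⟨l, hl, by rw [hv, h]⟩
  · rintro ⟨l, hl, hv⟩
    refine ⟨l, hl, ?_⟩
    rw [← h] at hv
    exact (WithLp.toLp_injective 2) hv

lemma angle_eq {n m : ℕ} (hn : 0 < n) (x : Fin m → E n) :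
    sph n ((fun u : Metric.sphere (0 : E n) 1 => (u : E n)) ⁻¹' pos x) = gE n (pos x) := by
  refine (cone hn (pos x) ?_ fun v r hr => pos_cone x v r hr).symm
  exact measurable_prodMk_left (measurable_R m n)

theorem stmS : StmS := by
  intro d k hd
  have _inst : Nonempty (Fin d) := ⟨⟨0, hd⟩⟩
  -- sphere probability
  have hsp : IsProbabilityMeasure (sph d) := by
    rw [← map_nrm hd]
    exact Measure.isProbabilityMeasure_map (measurable_nrm hd).aemeasurable
  -- measurability of the angle
  have hmA : Measurable fun W : Fin d → Metric.sphere (0 : E d) 1 =>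
      sph d ((fun u : Metric.sphere (0 : E d) 1 => (u : E d)) ⁻¹' pos (fun i => (W i : E d))) := by
    have hcont : Continuous fun p : (Fin d → Metric.sphere (0 : E d) 1) ×
        Metric.sphere (0 : E d) 1 => ((fun i => (p.1 i : E d), (p.2 : E d)) : (Fin d → E d) × E d) := by
      fun_prop
    exact measurable_measure_prodMk_left (hcont.measurable (measurable_R d d))
  -- normalisation of plain vectors
  let ν : (Fin d → ℝ) → Metric.sphere (0 : E d) 1 := fun x => nrm hd (WithLp.toLp 2 x)
  have hν : Measurable ν := (measurable_nrm hd).comp (measurable_toLp d)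
  have hmap : (gam d).map ν = sph d := by
    rw [← map_nrm hd, gE, Measure.map_map (measurable_nrm hd) (measurable_toLp d)]
    rfl
  have hpi : (Measure.pi fun _ : Fin d => gam d).map (fun U i => ν (U i)) =
      Measure.pi fun _ : Fin d => sph d := by
    have hs : ∀ _ : Fin d, SigmaFinite ((gam d).map ν) := by
      intro _
      rw [hmap]
      infer_instance
    have := Measure.pi_map_pi (ι := Fin d) (μ := fun _ => gam d) (f := fun _ => ν) (hμ := hs)
      (fun _ => hν.aemeasurable)
    rw [this]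
    simp_rw [hmap]
  have hνm : Measurable fun (U : Fin d → (Fin d → ℝ)) i => ν (U i) :=
    measurable_pi_lambda _ fun i => hν.comp (measurable_pi_apply i)
  -- joint measurability in plain coordinates
  have hR : MeasurableSet {p : (Fin d → (Fin d → ℝ)) × (Fin d → ℝ) | InPos p.1 p.2} := by
    have h2 : Measurable fun p : (Fin d → (Fin d → ℝ)) × (Fin d → ℝ) =>
        ((fun i => (WithLp.toLp 2 (p.1 i) : E d), (WithLp.toLp 2 p.2 : E d)) :
          (Fin d → E d) × E d) := by
      refine Measurable.prodMk (measurable_pi_lambda _ fun i => ?_) ?_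
      · exact (measurable_toLp d).comp ((measurable_pi_apply i).comp measurable_fst)
      · exact (measurable_toLp d).comp measurable_snd
    have h3 : {p : (Fin d → (Fin d → ℝ)) × (Fin d → ℝ) | InPos p.1 p.2} =
        (fun p : (Fin d → (Fin d → ℝ)) × (Fin d → ℝ) =>
        ((fun i => (WithLp.toLp 2 (p.1 i) : E d), (WithLp.toLp 2 p.2 : E d)) :
          (Fin d → E d) × E d)) ⁻¹' {p : (Fin d → E d) × E d | p.2 ∈ pos p.1} := by
      ext p
      exact InPos_iff _ _
    rw [h3]
    exact h2 (measurable_R d d)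
  have hRk : MeasurableSet {p : (Fin d → (Fin d → ℝ)) × (Fin k → (Fin d → ℝ)) |
      ∀ j, InPos p.1 (p.2 j)} := by
    rw [Set.ofPred_forall]
    refine MeasurableSet.iInter fun j => ?_
    have h2 : Measurable fun p : (Fin d → (Fin d → ℝ)) × (Fin k → (Fin d → ℝ)) => (p.1, p.2 j) :=
      measurable_fst.prodMk ((measurable_pi_apply j).comp measurable_snd)
    exact h2 hR
  -- the right side
  have hPG : PG d k = ∫⁻ U : Fin d → (Fin d → ℝ), (gam d {v | InPos U v}) ^ k
      ∂(Measure.pi fun _ : Fin d => gam d) := by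
    unfold PG
    rw [Measure.prod_apply hRk]
    refine lintegral_congr fun U => ?_
    have : Prod.mk U ⁻¹' {p : (Fin d → (Fin d → ℝ)) × (Fin k → (Fin d → ℝ)) |
        ∀ j, InPos p.1 (p.2 j)} = Set.univ.pi (fun _ : Fin k => {v | InPos U v}) := by
      ext V; simp
    rw [this, Measure.pi_pi, Finset.prod_const, Finset.card_univ, Fintype.card_fin]
  -- all vectors nonzero a.e.
  have hne : ∀ᵐ U ∂(Measure.pi fun _ : Fin d => gam d), ∀ i, U i ≠ 0 := by
    rw [ae_all_iff]
    intro i
    have h0 : gam d {0} = 0 := by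
      rw [SAD.gam_eq]
      exact withDensity_absolutelyContinuous _ _ (measure_singleton _)
    rw [ae_iff]
    have := Measure.pi_eval_preimage_null (μ := fun _ : Fin d => gam d) (i := i) h0
    convert this using 1
    congr 1
    ext U
    simp
  -- the left side
  unfold m
  have h1 : ∀ W : Fin d → Metric.sphere (0 : E d) 1,
      (angle (pos (fun i => (W i : E d)))) ^ k =
        ((sph d ((fun u : Metric.sphere (0 : E d) 1 => (u : E d)) ⁻¹'
          pos (fun i => (W i : E d)))) ^ k).toReal := by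
    intro W
    rw [ENNReal.toReal_pow]
    rfl
  simp_rw [h1]
  rw [integral_toReal (hmA.pow_const k).aemeasurable
    (Filter.Eventually.of_forall fun W => ENNReal.pow_lt_top (measure_lt_top _ _)), hPG, ← hpi,
    lintegral_map (hmA.pow_const k) hνm]
  congr 1
  refine lintegral_congr_ae ?_
  filter_upwards [hne] with U hU
  congr 1
  have h2 : pos (fun i => ((ν (U i) : Metric.sphere (0 : E d) 1) : E d)) =
      pos (fun i => (WithLp.toLp 2 (U i) : E d)) := by
    refine pos_scale _ _ (fun i => ‖(WithLp.toLp 2 (U i) : E d)‖⁻¹) (fun i => ?_) fun i => ?_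
    · refine inv_pos.mpr (norm_pos_iff.mpr ?_)
      intro h
      exact hU i ((WithLp.toLp_eq_zero 2).mp h)
    · show nv hd (WithLp.toLp 2 (U i)) = _
      unfold nv
      rw [if_neg]
      intro h
      exact hU i ((WithLp.toLp_eq_zero 2).mp h)
  have hmp : MeasurableSet (pos (fun i => (WithLp.toLp 2 (U i) : E d))) :=
    measurable_prodMk_left (measurable_R d d)
  rw [h2, angle_eq hd, gE, Measure.map_apply (measurable_toLp d) hmp]
  congr 1
  ext v
  exact (InPos_iff U v).symm

end Pool.Agent.R644.SAS
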