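import Pool.Agent.R644.UGDefs

set_option autoImplicit false

universe u v

open Metric Set

namespace Pool.Agent.R644.UG

lemma Tm.bound (A : Type u) [CStarAlgebra A] {n : ℕ} (t : Tm n) (R : ℝ) :
    ∃ M K : ℝ, 0 ≤ M ∧ 0 ≤ K ∧ (∀ x : Fin n → A, ‖x‖ ≤ R → ‖t.val A x‖ ≤ M) ∧
      ∀ x x' : Fin n → A, ‖x‖ ≤ R → ‖x'‖ ≤ R → ‖t.val A x - t.val A x'‖ ≤ K * ‖x - x'‖ := by
  induction t with
  | var i =>
    refine ⟨|R|, 1, abs_nonneg _, zero_le_one, fun x hx => ?_, fun x x' _ _ => ?_⟩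
    · exact ((norm_le_pi_norm x i).trans hx).trans (le_abs_self _)
    · rw [one_mul]
      exact norm_le_pi_norm (x - x') i
  | one =>
    refine ⟨‖(1 : A)‖, 0, norm_nonneg _, le_refl _, fun x _ => le_refl _, fun x x' _ _ => ?_⟩
    simp [Tm.val]
  | add s t hs ht =>
    obtain ⟨M1, K1, h1, h2, h3, h4⟩ := hs
    obtain ⟨M2, K2, k1, k2, k3, k4⟩ := ht
    refine ⟨M1 + M2, K1 + K2, by positivity, by positivity, fun x hx => ?_, fun x x' hx hx' => ?_⟩
    · exact (norm_add_le _ _).trans (add_le_add (h3 x hx) (k3 x hx))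
    · have e : (Tm.add s t).val A x - (Tm.add s t).val A x' =
          (s.val A x - s.val A x') + (t.val A x - t.val A x') := by
        simp only [Tm.val]; abel
      rw [e, add_mul]
      exact (norm_add_le _ _).trans (add_le_add (h4 x x' hx hx') (k4 x x' hx hx'))
  | mul s t hs ht =>
    obtain ⟨M1, K1, h1, h2, h3, h4⟩ := hs
    obtain ⟨M2, K2, k1, k2, k3, k4⟩ := ht
    refine ⟨M1 * M2, M1 * K2 + K1 * M2, by positivity, by positivity, fun x hx => ?_,
      fun x x' hx hx' => ?_⟩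
    · exact (norm_mul_le _ _).trans (mul_le_mul (h3 x hx) (k3 x hx) (norm_nonneg _) h1)
    · have e : (Tm.mul s t).val A x - (Tm.mul s t).val A x' =
          s.val A x * (t.val A x - t.val A x') + (s.val A x - s.val A x') * t.val A x' := by
        simp only [Tm.val, mul_sub, sub_mul]; abel
      rw [e]
      have e1 : ‖s.val A x * (t.val A x - t.val A x')‖ ≤ M1 * (K2 * ‖x - x'‖) :=
        (norm_mul_le _ _).trans (mul_le_mul (h3 x hx) (k4 x x' hx hx') (norm_nonneg _) h1)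
      have e2 : ‖(s.val A x - s.val A x') * t.val A x'‖ ≤ (K1 * ‖x - x'‖) * M2 :=
        (norm_mul_le _ _).trans (mul_le_mul (h4 x x' hx hx') (k3 x' hx') (norm_nonneg _)
          (by positivity))
      refine (norm_add_le _ _).trans ((add_le_add e1 e2).trans (le_of_eq ?_))
      ring
  | adj s hs =>
    obtain ⟨M1, K1, h1, h2, h3, h4⟩ := hs
    refine ⟨M1, K1, h1, h2, fun x hx => ?_, fun x x' hx hx' => ?_⟩
    · simpa [Tm.val] using h3 x hx
    · simp only [Tm.val]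
      rw [← star_sub, norm_star]
      exact h4 x x' hx hx'
  | scal c s hs =>
    obtain ⟨M1, K1, h1, h2, h3, h4⟩ := hs
    refine ⟨‖c‖ * M1, ‖c‖ * K1, by positivity, by positivity, fun x hx => ?_, fun x x' hx hx' => ?_⟩
    · simp only [Tm.val]
      rw [norm_smul]
      exact mul_le_mul_of_nonneg_left (h3 x hx) (norm_nonneg _)
    · simp only [Tm.val]
      rw [← smul_sub, norm_smul, mul_assoc]
      exact mul_le_mul_of_nonneg_left (h4 x x' hx hx') (norm_nonneg _)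

lemma iSup_close {ι : Type u} [Nonempty ι] {F F' : ι → ℝ} {M ε : ℝ} (hF : ∀ i, |F i| ≤ M)
    (hF' : ∀ i, |F' i| ≤ M) (h : ∀ i, |F i - F' i| ≤ ε) : |(⨆ i, F i) - ⨆ i, F' i| ≤ ε := by
  have b1 : BddAbove (range F) := ⟨M, by rintro _ ⟨i, rfl⟩; exact (le_abs_self _).trans (hF i)⟩
  have b2 : BddAbove (range F') := ⟨M, by rintro _ ⟨i, rfl⟩; exact (le_abs_self _).trans (hF' i)⟩
  rw [abs_le]
  constructor
  · have : ⨆ i, F' i ≤ (⨆ i, F i) + ε := by
      refine ciSup_le fun i => ?_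
      have h1 := le_ciSup b1 i
      have h2 := (abs_le.1 (h i)).1
      linarith
    linarith
  · have : ⨆ i, F i ≤ (⨆ i, F' i) + ε := by
      refine ciSup_le fun i => ?_
      have h1 := le_ciSup b2 i
      have h2 := (abs_le.1 (h i)).2
      linarith
    linarith

lemma iInf_eq_neg {ι : Type u} (F : ι → ℝ) : (⨅ i, F i) = - ⨆ i, - F i := by
  rw [iInf, iSup, Real.sInf_def]
  congr 2
  ext r
  simp only [mem_neg, mem_range]
  constructor
  · rintro ⟨i, hi⟩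
    exact ⟨i, by rw [hi, neg_neg]⟩
  · rintro ⟨i, hi⟩
    exact ⟨i, by rw [← hi, neg_neg]⟩

lemma iInf_close {ι : Type u} [Nonempty ι] {F F' : ι → ℝ} {M ε : ℝ} (hF : ∀ i, |F i| ≤ M)
    (hF' : ∀ i, |F' i| ≤ M) (h : ∀ i, |F i - F' i| ≤ ε) : |(⨅ i, F i) - ⨅ i, F' i| ≤ ε := by
  rw [iInf_eq_neg, iInf_eq_neg]
  have := iSup_close (F := fun i => - F i) (F' := fun i => - F' i) (M := M) (ε := ε)
    (fun i => by rw [abs_neg]; exact hF i) (fun i => by rw [abs_neg]; exact hF' i)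
    (fun i => by rw [← neg_add', abs_neg]; convert h i using 2; ring)
  rw [abs_sub_comm] at this
  convert this using 2
  ring

lemma iSup_abs_le {ι : Type u} [Nonempty ι] {F : ι → ℝ} {M : ℝ} (hF : ∀ i, |F i| ≤ M) :
    |⨆ i, F i| ≤ M := by
  have b1 : BddAbove (range F) := ⟨M, by rintro _ ⟨i, rfl⟩; exact (le_abs_self _).trans (hF i)⟩
  rw [abs_le]
  constructor
  · obtain ⟨i⟩ := ‹Nonempty ι›
    exact (abs_le.1 (hF i)).1.trans (le_ciSup b1 i)
  · exact ciSup_le fun i => (le_abs_self _).trans (hF i)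

lemma iInf_abs_le {ι : Type u} [Nonempty ι] {F : ι → ℝ} {M : ℝ} (hF : ∀ i, |F i| ≤ M) :
    |⨅ i, F i| ≤ M := by
  rw [iInf_eq_neg, abs_neg]
  exact iSup_abs_le fun i => by rw [abs_neg]; exact hF i

lemma norm_cons_le {A : Type u} [NormedAddCommGroup A] {n : ℕ} {y : A} {x : Fin n → A} {r R : ℝ}
    (hy : ‖y‖ ≤ r) (hx : ‖x‖ ≤ R) : ‖(Fin.cons y x : Fin (n + 1) → A)‖ ≤ max r R := by
  rw [pi_norm_le_iff_of_nonneg (le_max_of_le_left ((norm_nonneg _).trans hy))]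
  intro i
  refine Fin.cases ?_ (fun j => ?_) i
  · exact hy.trans (le_max_left _ _)
  · exact ((norm_le_pi_norm x j).trans hx).trans (le_max_right _ _)

lemma norm_cons_sub {A : Type u} [NormedAddCommGroup A] {n : ℕ} (y : A) (x x' : Fin n → A) :
    ‖(Fin.cons y x : Fin (n + 1) → A) - Fin.cons y x'‖ ≤ ‖x - x'‖ := by
  rw [pi_norm_le_iff_of_nonneg (norm_nonneg _)]
  intro i
  refine Fin.cases ?_ (fun j => ?_) i
  · simp
  · simpa using norm_le_pi_norm (x - x') j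

/-- uniform continuity and boundedness of the values of formulas on bounded sets -/
lemma Fm.uc (A : Type u) [CStarAlgebra A] {n : ℕ} (φ : Fm n) (R : ℝ) :
    (∃ M : ℝ, ∀ x : Fin n → A, ‖x‖ ≤ R → |φ.val A x| ≤ M) ∧
      ∀ ε > 0, ∃ δ > 0, ∀ x x' : Fin n → A, ‖x‖ ≤ R → ‖x'‖ ≤ R → ‖x - x'‖ < δ →
        |φ.val A x - φ.val A x'| ≤ ε := by
  induction φ generalizing R with
  | nrm t =>
    obtain ⟨M, K, h1, h2, h3, h4⟩ := t.bound A R
    refine ⟨⟨M, fun x hx => ?_⟩, fun ε hε => ⟨ε / (K + 1), by positivity, fun x x' hx hx' hd => ?_⟩⟩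
    · simp only [Fm.val, abs_norm]
      exact h3 x hx
    · simp only [Fm.val]
      refine (abs_norm_sub_norm_le _ _).trans ((h4 x x' hx hx').trans ?_)
      have : K * ‖x - x'‖ ≤ (K + 1) * (ε / (K + 1)) :=
        mul_le_mul (by linarith) hd.le (norm_nonneg _) (by positivity)
      refine this.trans (le_of_eq ?_)
      field_simp
  | @conn n k c φ ih =>
    have hM : ∀ i, ∃ M : ℝ, ∀ x : Fin n → A, ‖x‖ ≤ R → |(φ i).val A x| ≤ M := fun i => (ih i R).1
    choose M hM using hM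
    set S : ℝ := ∑ i, |M i| with hS
    have hS0 : 0 ≤ S := Finset.sum_nonneg fun _ _ => abs_nonneg _
    have hin : ∀ x : Fin n → A, ‖x‖ ≤ R →
        (fun i => (φ i).val A x) ∈ closedBall (0 : Fin k → ℝ) S := by
      intro x hx
      rw [mem_closedBall_zero_iff, pi_norm_le_iff_of_nonneg hS0]
      intro i
      exact ((hM i x hx).trans (le_abs_self _)).trans
        (Finset.single_le_sum (f := fun i => |M i|) (fun _ _ => abs_nonneg _) (Finset.mem_univ i))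
    have hcomp : IsCompact (closedBall (0 : Fin k → ℝ) S) := isCompact_closedBall _ _
    constructor
    · obtain ⟨B, hB⟩ := hcomp.exists_bound_of_continuousOn c.continuous.continuousOn
      exact ⟨B, fun x hx => hB _ (hin x hx)⟩
    · intro ε hε
      have huc := hcomp.uniformContinuousOn_of_continuous c.continuous.continuousOn
      rw [Metric.uniformContinuousOn_iff] at huc
      obtain ⟨η, hη, hηc⟩ := huc ε hε
      have hδ : ∀ i, ∃ δ > 0, ∀ x x' : Fin n → A, ‖x‖ ≤ R → ‖x'‖ ≤ R → ‖x - x'‖ < δ →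
          |(φ i).val A x - (φ i).val A x'| ≤ η / 2 := fun i => (ih i R).2 (η / 2) (by positivity)
      choose δ hδ0 hδ using hδ
      obtain ⟨d, hd0, hd⟩ : ∃ d > 0, ∀ i, d ≤ δ i := by
        rcases isEmpty_or_nonempty (Fin k) with h | h
        · exact ⟨1, one_pos, fun i => h.elim i⟩
        · refine ⟨Finset.univ.inf' Finset.univ_nonempty δ, ?_, fun i =>
            Finset.inf'_le _ (Finset.mem_univ i)⟩
          exact (Finset.lt_inf'_iff _).2 fun i _ => hδ0 i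
      refine ⟨d, hd0, fun x x' hx hx' hxx => ?_⟩
      have h1 := hηc _ (hin x hx) _ (hin x' hx') (by
        refine lt_of_le_of_lt ?_ (half_lt_self hη)
        rw [dist_pi_le_iff (by positivity)]
        intro i
        rw [Real.dist_eq]
        exact hδ i x x' hx hx' (lt_of_lt_of_le hxx (hd i)))
      exact le_of_lt (by simpa [Real.dist_eq, Fm.val] using h1)
  | @sup n r φ ih =>
    have hne : Nonempty {y : A // ‖y‖ ≤ r} := ⟨⟨0, by simp⟩⟩
    obtain ⟨⟨M, hM⟩, hu⟩ := ih (max r R)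
    refine ⟨⟨M, fun x hx => ?_⟩, fun ε hε => ?_⟩
    · exact iSup_abs_le fun y => hM _ (norm_cons_le y.2 hx)
    · obtain ⟨δ, hδ0, hδ⟩ := hu ε hε
      refine ⟨δ, hδ0, fun x x' hx hx' hd => ?_⟩
      exact iSup_close (M := M) (fun y => hM _ (norm_cons_le y.2 hx))
        (fun y => hM _ (norm_cons_le y.2 hx')) fun y => hδ _ _ (norm_cons_le y.2 hx)
          (norm_cons_le y.2 hx') ((norm_cons_sub _ _ _).trans_lt hd)
  | @inf n r φ ih =>
    have hne : Nonempty {y : A // ‖y‖ ≤ r} := ⟨⟨0, by simp⟩⟩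
    obtain ⟨⟨M, hM⟩, hu⟩ := ih (max r R)
    refine ⟨⟨M, fun x hx => ?_⟩, fun ε hε => ?_⟩
    · exact iInf_abs_le fun y => hM _ (norm_cons_le y.2 hx)
    · obtain ⟨δ, hδ0, hδ⟩ := hu ε hε
      refine ⟨δ, hδ0, fun x x' hx hx' hd => ?_⟩
      exact iInf_close (M := M) (fun y => hM _ (norm_cons_le y.2 hx))
        (fun y => hM _ (norm_cons_le y.2 hx')) fun y => hδ _ _ (norm_cons_le y.2 hx)
          (norm_cons_le y.2 hx') ((norm_cons_sub _ _ _).trans_lt hd)

lemma iSup_le_of_approx {ι : Type u} {κ : Type v} [Nonempty ι] {F : ι → ℝ} {F' : κ → ℝ} {M : ℝ}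
    (hF' : ∀ i, |F' i| ≤ M) (h : ∀ i, ∀ ε > 0, ∃ j, |F i - F' j| ≤ ε) :
    (⨆ i, F i) ≤ ⨆ j, F' j := by
  have b2 : BddAbove (range F') := ⟨M, by rintro _ ⟨i, rfl⟩; exact (le_abs_self _).trans (hF' i)⟩
  refine ciSup_le fun i => le_of_forall_pos_le_add fun ε hε => ?_
  obtain ⟨j, hj⟩ := h i ε hε
  have h1 := le_ciSup b2 j
  have h2 := (abs_le.1 hj).2
  linarith

lemma iSup_eq_of_approx {ι : Type u} {κ : Type v} [Nonempty ι] [Nonempty κ] {F : ι → ℝ}
    {F' : κ → ℝ} {M M' : ℝ} (hF : ∀ i, |F i| ≤ M) (hF' : ∀ i, |F' i| ≤ M')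
    (h : ∀ i, ∀ ε > 0, ∃ j, |F i - F' j| ≤ ε) (h' : ∀ j, ∀ ε > 0, ∃ i, |F i - F' j| ≤ ε) :
    (⨆ i, F i) = ⨆ j, F' j :=
  le_antisymm (iSup_le_of_approx hF' h) (iSup_le_of_approx hF fun j ε hε => by
    obtain ⟨i, hi⟩ := h' j ε hε
    exact ⟨i, by rw [abs_sub_comm]; exact hi⟩)

lemma iInf_eq_of_approx {ι : Type u} {κ : Type v} [Nonempty ι] [Nonempty κ] {F : ι → ℝ}
    {F' : κ → ℝ} {M M' : ℝ} (hF : ∀ i, |F i| ≤ M) (hF' : ∀ i, |F' i| ≤ M')
    (h : ∀ i, ∀ ε > 0, ∃ j, |F i - F' j| ≤ ε) (h' : ∀ j, ∀ ε > 0, ∃ i, |F i - F' j| ≤ ε) :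
    (⨅ i, F i) = ⨅ j, F' j := by
  rw [iInf_eq_neg, iInf_eq_neg]
  congr 1
  have e : ∀ a b : ℝ, |-a - -b| = |a - b| := fun a b => by
    rw [abs_sub_comm]; congr 1; ring
  exact iSup_eq_of_approx (M := M) (M' := M') (fun i => by rw [abs_neg]; exact hF i)
    (fun i => by rw [abs_neg]; exact hF' i)
    (fun i ε hε => by
      obtain ⟨j, hj⟩ := h i ε hε
      exact ⟨j, by rw [e]; exact hj⟩)
    (fun j ε hε => by
      obtain ⟨i, hi⟩ := h' j ε hε
      exact ⟨i, by rw [e]; exact hi⟩)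

end Pool.Agent.R644.UG
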