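import Mathlib

/-!
# Universal group C*-algebras, continuous logic of C*-algebras, back-and-forth relations of groups
-/

set_option autoImplicit false

universe u v

namespace Pool.Agent.R644.UG

section logic

/-- Terms: `*`-polynomials with complex coefficients in noncommuting variables `x 0, …, x (n-1)`. -/
inductive Tm (n : ℕ) : Type
  | var (i : Fin n) : Tm n
  | one : Tm n
  | add (s t : Tm n) : Tm n
  | mul (s t : Tm n) : Tm n
  | adj (s : Tm n) : Tm n
  | scal (c : ℂ) (s : Tm n) : Tm n

/-- The value of a term in the C*-algebra `A` when the variable `i` has the value `x i`. -/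
noncomputable def Tm.val (A : Type u) [CStarAlgebra A] {n : ℕ} (x : Fin n → A) : Tm n → A
  | .var i => x i
  | .one => 1
  | .add s t => s.val A x + t.val A x
  | .mul s t => s.val A x * t.val A x
  | .adj s => star (s.val A x)
  | .scal c s => c • s.val A x

/-- Formulas of the continuous logic of (unital) C*-algebras with `n` free variables: the norm of a
term, continuous functions of finitely many formulas, and the supremum and the infimum over a variable
which ranges over the closed ball of radius `r`. -/
inductive Fm : ℕ → Type
  | nrm {n : ℕ} (t : Tm n) : Fm n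
  | conn {n k : ℕ} (c : C(Fin k → ℝ, ℝ)) (φ : Fin k → Fm n) : Fm n
  | sup {n : ℕ} (r : ℕ) (φ : Fm (n + 1)) : Fm n
  | inf {n : ℕ} (r : ℕ) (φ : Fm (n + 1)) : Fm n

/-- The value of a formula in the C*-algebra `A` when its free variables have the values
`x 0, x 1, …`. -/
noncomputable def Fm.val (A : Type u) [CStarAlgebra A] : {n : ℕ} → Fm n → (Fin n → A) → ℝ
  | _, .nrm t, x => ‖t.val A x‖
  | _, .conn c φ, x => c fun i => (φ i).val A x
  | _, .sup r φ, x => ⨆ y : {y : A // ‖y‖ ≤ r}, φ.val A (Fin.cons y.1 x)
  | _, .inf r φ, x => ⨅ y : {y : A // ‖y‖ ≤ r}, φ.val A (Fin.cons y.1 x)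

/-- Elementary equivalence of C*-algebras: every sentence has the same value in `A` and in `B`. -/
def ElemEq (A : Type u) [CStarAlgebra A] (B : Type v) [CStarAlgebra B] : Prop :=
  ∀ φ : Fm 0, φ.val A Fin.elim0 = φ.val B Fin.elim0

end logic

section groupalgebra

variable {G : Type u} [Group G]

/-- The linear extension of a unitary representation `π` of `G` in a C*-algebra `A` to the group
algebra: `∑ c_g g` is mapped to `∑ c_g π(g)`. -/
noncomputable def ext {A : Type v} [CStarAlgebra A] (π : G →* unitary A) :
    MonoidAlgebra ℂ G →ₐ[ℂ] A :=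
  MonoidAlgebra.lift ℂ A G ((unitary A).subtype.comp π)

/-- The vector `π(x) v`, for a unitary representation `π` of `G` on `K` and an element `x = ∑ c_g g` of
the group algebra: `∑ c_g π(g) v`. -/
noncomputable def act {K : Type v} [NormedAddCommGroup K] [InnerProductSpace ℂ K]
    (π : G →* (K ≃ₗᵢ[ℂ] K)) (x : MonoidAlgebra ℂ G) (v : K) : K :=
  x.coeff.sum fun g c => c • π g v

/-- The universal norm of the element `x` of the group algebra of `G`: the supremum of the operator
norms of `π(x)` over all unitary representations `π` of `G` on Hilbert spaces, i.e. the supremum of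
`‖π(x) v‖` over all such `π` and all vectors `v` with `‖v‖ ≤ 1`. -/
noncomputable def univNorm (x : MonoidAlgebra ℂ G) : ℝ :=
  sSup {r : ℝ | ∃ (K : Type u) (_ : NormedAddCommGroup K) (_ : InnerProductSpace ℂ K)
    (_ : CompleteSpace K) (π : G →* (K ≃ₗᵢ[ℂ] K)) (v : K), ‖v‖ ≤ 1 ∧ r = ‖act π x v‖}

/-- The C*-algebra `A`, with the homomorphism `ι` from `G` to its unitary group, is the universal
group C*-algebra of `G`, i.e. the completion of the group algebra in the universal norm: the linear
combinations of the `ι g` are dense in `A`, and their norm is the universal norm. -/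
structure IsUniversal (G : Type u) [Group G] (A : Type v) [CStarAlgebra A] (ι : G →* unitary A) :
    Prop where
  dense : DenseRange (ext ι)
  norm_eq : ∀ x : MonoidAlgebra ℂ G, ‖ext ι x‖ = univNorm x

/-- The C*-algebra `A` is (isomorphic to) the universal group C*-algebra `C*(G)`. -/
def IsGroupCStar (G : Type u) [Group G] (A : Type v) [CStarAlgebra A] : Prop :=
  ∃ ι : G →* unitary A, IsUniversal G A ι

end groupalgebra

section games

/-- The tuples `a` and `b` satisfy the same group words. -/
def SameWords {G : Type u} {H : Type v} [Group G] [Group H] {p : ℕ} (a : Fin p → G) (b : Fin p → H) :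
    Prop :=
  ∀ w : FreeGroup (Fin p), FreeGroup.lift a w = 1 ↔ FreeGroup.lift b w = 1

/-- Duplicator wins the game with `n` further rounds, after the elements of the tuples `a` (in `G`)
and `b` (in `H`) have been chosen.  In each round Spoiler chooses a finite tuple of any length in one
of the groups and Duplicator answers with a tuple of the same length in the other group. -/
def BF {G : Type u} {H : Type v} [Group G] [Group H] :
    ℕ → ∀ {p : ℕ}, (Fin p → G) → (Fin p → H) → Prop
  | 0, _, a, b => SameWords a b
  | n + 1, _, a, b =>
    (∀ (q : ℕ) (c : Fin q → G), ∃ d : Fin q → H, BF n (Fin.append a c) (Fin.append b d)) ∧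
    (∀ (q : ℕ) (d : Fin q → H), ∃ c : Fin q → G, BF n (Fin.append a c) (Fin.append b d))

/-- `G ≡^bf_ω H`: Duplicator has a winning strategy in the `n`-round game for every `n`. -/
def BFomega (G : Type u) (H : Type v) [Group G] [Group H] : Prop :=
  ∀ n : ℕ, BF n (Fin.elim0 : Fin 0 → G) (Fin.elim0 : Fin 0 → H)

end games

end Pool.Agent.R644.UG
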