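import Pool.Agent.R644.UGMain

/-! Existence of the universal group C*-algebra. -/

set_option autoImplicit false

universe u v w

open Metric Set
open scoped ENNReal

namespace Pool.Agent.R644.UG

section closure

variable {G : Type u} [Group G] {A : Type v} [CStarAlgebra A]

/-- the image of the group algebra -/
noncomputable def img (ι : G →* unitary A) : StarSubalgebra ℂ A where
  toSubalgebra := (ext ι).range
  star_mem' := by
    rintro _ ⟨x, rfl⟩
    obtain ⟨x', h, -⟩ := exists_star ι ι x
    exact ⟨x', h⟩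

/-- the closure of the image of the group algebra -/
noncomputable abbrev cl (ι : G →* unitary A) : StarSubalgebra ℂ A := (img ι).topologicalClosure

instance (ι : G →* unitary A) : IsClosed ((cl ι : StarSubalgebra ℂ A) : Set A) :=
  StarSubalgebra.isClosed_topologicalClosure _

lemma mem_cl (ι : G →* unitary A) (x : MonoidAlgebra ℂ G) : ext ι x ∈ cl ι :=
  StarSubalgebra.le_topologicalClosure _ ⟨x, rfl⟩

lemma mem_cl' (ι : G →* unitary A) (g : G) : (ι g : A) ∈ cl ι := by
  have := mem_cl ι (MonoidAlgebra.single g 1)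
  rwa [ext_single, one_smul] at this

/-- the homomorphism to the closure -/
noncomputable def icl (ι : G →* unitary A) : G →* unitary (cl ι) where
  toFun g := ⟨⟨ι g, mem_cl' ι g⟩, by
    rw [Unitary.mem_iff]
    constructor
    · exact Subtype.ext (Unitary.coe_star_mul_self (ι g))
    · exact Subtype.ext (Unitary.coe_mul_star_self (ι g))⟩
  map_one' := by
    ext
    simp
  map_mul' g h := by
    ext
    simp

lemma coe_ext_icl (ι : G →* unitary A) (x : MonoidAlgebra ℂ G) :
    ((ext (icl ι) x : cl ι) : A) = ext ι x := by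
  induction x using MonoidAlgebra.induction_linear with
  | zero => simp
  | add f g hf hg => rw [map_add, map_add, ← hf, ← hg]; rfl
  | single g c => rw [ext_single, ext_single]; rfl

lemma isUniversal_icl (ι : G →* unitary A) (h : ∀ x, ‖ext ι x‖ = univNorm x) :
    IsUniversal G (cl ι) (icl ι) where
  norm_eq x := by
    rw [← h x]
    exact congrArg norm (coe_ext_icl ι x)
  dense := by
    intro y
    rw [Metric.mem_closure_range_iff]
    intro ε hε
    have hy : (y : A) ∈ closure ((img ι : StarSubalgebra ℂ A) : Set A) := y.2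
    rw [Metric.mem_closure_iff] at hy
    obtain ⟨b, ⟨x, rfl⟩, hx⟩ := hy ε hε
    refine ⟨x, ?_⟩
    rw [Subtype.dist_eq, coe_ext_icl]
    exact hx

end closure

section product

variable {G : Type u} [Group G] {I : Type u} (K : I → Type u) [∀ i, NormedAddCommGroup (K i)]
  [∀ i, InnerProductSpace ℂ (K i)] [∀ i, CompleteSpace (K i)]
  (π : ∀ i, G →* unitary (K i →L[ℂ] K i))

/-- the diagonal action -/
noncomputable def Dl (g : G) : lp K 2 →ₗ[ℂ] lp K 2 where
  toFun f := ⟨fun i => (π i g : K i →L[ℂ] K i) (f i), by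
    have hf := f.2
    change Memℓp _ 2 at hf
    show Memℓp _ 2
    rw [memℓp_gen_iff two_pos'] at hf ⊢
    simpa only [Unitary.norm_map] using hf⟩
  map_add' f f' := by
    ext i
    simp
  map_smul' c f := by
    ext i
    simp

lemma Dl_apply (g : G) (f : lp K 2) (i : I) : Dl K π g f i = (π i g : K i →L[ℂ] K i) (f i) := rfl

lemma Dl_norm (g : G) (f : lp K 2) : ‖Dl K π g f‖ = ‖f‖ := by
  rw [lp.norm_eq_tsum_rpow two_pos', lp.norm_eq_tsum_rpow two_pos']
  congr 1
  simp only [Dl_apply, Unitary.norm_map]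

lemma Dl_mul (g₁ g₂ : G) (f : lp K 2) : Dl K π g₁ (Dl K π g₂ f) = Dl K π (g₁ * g₂) f := by
  ext i
  rw [Dl_apply, Dl_apply, Dl_apply, map_mul]
  rfl

lemma Dl_one (f : lp K 2) : Dl K π 1 f = f := by
  ext i
  rw [Dl_apply, map_one]
  rfl

/-- the direct sum of representations -/
noncomputable def dsum : G →* (lp K 2 ≃ₗᵢ[ℂ] lp K 2) where
  toFun g :=
    { Dl K π g with
      invFun := Dl K π g⁻¹
      left_inv := fun f => by
        show Dl K π g⁻¹ (Dl K π g f) = f
        rw [Dl_mul, inv_mul_cancel, Dl_one]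
      right_inv := fun f => by
        show Dl K π g (Dl K π g⁻¹ f) = f
        rw [Dl_mul, mul_inv_cancel, Dl_one]
      norm_map' := Dl_norm K π g }
  map_one' := by
    ext1 f
    exact Dl_one K π f
  map_mul' g₁ g₂ := by
    ext1 f
    exact (Dl_mul K π g₁ g₂ f).symm

/-- the direct sum of representations, as a unitary representation -/
noncomputable def dsumU : G →* unitary (lp K 2 →L[ℂ] lp K 2) :=
  (Unitary.linearIsometryEquiv (𝕜 := ℂ) (H := lp K 2)).symm.toMonoidHom.comp (dsum K π)

lemma ext_dsumU (x : MonoidAlgebra ℂ G) (f : lp K 2) (i : I) :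
    (ext (dsumU K π) x f) i = ext (π i) x (f i) := by
  induction x using MonoidAlgebra.induction_linear with
  | zero => simp
  | add x y hx hy =>
    rw [map_add, map_add]
    show (ext (dsumU K π) x f + ext (dsumU K π) y f) i = ext (π i) x (f i) + ext (π i) y (f i)
    rw [← hx, ← hy]
    rfl
  | single g c =>
    rw [ext_single, ext_single]
    rfl

lemma le_ext_dsumU (x : MonoidAlgebra ℂ G) (i : I) : ‖ext (π i) x‖ ≤ ‖ext (dsumU K π) x‖ := by
  classical
  refine ContinuousLinearMap.opNorm_le_bound _ (norm_nonneg _) fun v => ?_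
  have h1 : ext (π i) x v = (ext (dsumU K π) x (lp.single 2 i v)) i := by
    rw [ext_dsumU, lp.single_apply_self]
  rw [h1]
  refine (lp.norm_apply_le_norm (by norm_num) _ i).trans ?_
  refine (ContinuousLinearMap.le_opNorm _ _).trans (le_of_eq ?_)
  rw [lp.norm_single (by norm_num)]

end product

theorem exists_universal (G : Type u) [Group G] :
    ∃ (A : Type u) (_ : CStarAlgebra A), IsGroupCStar G A := by
  have hne : ∀ x : MonoidAlgebra ℂ G, ({r : ℝ | ∃ (K : Type u) (_ : NormedAddCommGroup K)
      (_ : InnerProductSpace ℂ K) (_ : CompleteSpace K) (π : G →* (K ≃ₗᵢ[ℂ] K)) (v : K),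
      ‖v‖ ≤ 1 ∧ r = ‖act π x v‖}).Nonempty := fun x =>
    ⟨_, EuclideanSpace ℂ PEmpty.{u + 1}, inferInstance, inferInstance, inferInstance, 1, 0,
      by simp, rfl⟩
  have hch : ∀ i : MonoidAlgebra ℂ G × ℕ, ∃ (K : Type u) (_ : NormedAddCommGroup K)
      (_ : InnerProductSpace ℂ K) (_ : CompleteSpace K) (π : G →* unitary (K →L[ℂ] K)),
      univNorm i.1 - 1 / ((i.2 : ℝ) + 1) < ‖ext π i.1‖ := by
    rintro ⟨x, n⟩
    have hlt : univNorm x - 1 / ((n : ℝ) + 1) < univNorm x := sub_lt_self _ (by positivity)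
    obtain ⟨r, ⟨K, i1, i2, i3, π, v, hv, rfl⟩, hr⟩ := exists_lt_of_lt_csSup (hne x) hlt
    refine ⟨K, i1, i2, i3, toU π, hr.trans_le ?_⟩
    rw [← ext_toU]
    refine (ContinuousLinearMap.le_opNorm _ _).trans ?_
    exact mul_le_of_le_one_right (norm_nonneg _) hv
  choose K i1 i2 i3 π hπ using hch
  have hnorm : ∀ x, ‖ext (dsumU K π) x‖ = univNorm x := by
    intro x
    refine le_antisymm (le_univNorm x _ _) ?_
    refine le_of_forall_pos_le_add fun ε hε => ?_
    obtain ⟨n, hn⟩ := exists_nat_one_div_lt hε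
    have h1 := hπ (x, n)
    have h2 := le_ext_dsumU K π x (x, n)
    simp only at h1
    linarith
  exact ⟨cl (dsumU K π), inferInstance, icl (dsumU K π), isUniversal_icl _ hnorm⟩

end Pool.Agent.R644.UG
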