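import Pool.Agent.R644.UGDefs

/-! The induced representation. -/

set_option autoImplicit false

universe u v

open scoped ENNReal

namespace Pool.Agent.R644.UG

section ind

variable {H : Type u} [Group H] (K : Subgroup H)

/-- a section of `H → H ⧸ K` -/
noncomputable def sec (q : H ⧸ K) : H := Quotient.out q

lemma mk_sec (q : H ⧸ K) : ((sec K q : H) : H ⧸ K) = q := QuotientGroup.out_eq' q

lemma coc_mem (g : H) (q : H ⧸ K) : (sec K q)⁻¹ * (g * sec K (g⁻¹ • q)) ∈ K := by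
  rw [← QuotientGroup.eq, mk_sec]
  have h : ((g * sec K (g⁻¹ • q) : H) : H ⧸ K) = g • ((sec K (g⁻¹ • q) : H) : H ⧸ K) := rfl
  rw [h, mk_sec, smul_inv_smul]

/-- the cocycle -/
noncomputable def coc (g : H) (q : H ⧸ K) : K := ⟨(sec K q)⁻¹ * (g * sec K (g⁻¹ • q)), coc_mem K g q⟩

lemma coc_one (q : H ⧸ K) : coc K 1 q = 1 := by
  ext
  simp [coc]

lemma coc_mul (g₁ g₂ : H) (q : H ⧸ K) :
    coc K g₁ q * coc K g₂ (g₁⁻¹ • q) = coc K (g₁ * g₂) q := by
  ext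
  simp only [coc, Subgroup.coe_mul]
  rw [mul_inv_rev, ← smul_smul]
  group

variable {E : Type v} [NormedAddCommGroup E] [InnerProductSpace ℂ E]
  (ρ : K →* (E ≃ₗᵢ[ℂ] E))

/-- the induced action on functions -/
noncomputable def Tf (g : H) (f : H ⧸ K → E) : H ⧸ K → E := fun q => ρ (coc K g q) (f (g⁻¹ • q))

lemma Tf_one (f : H ⧸ K → E) : Tf K ρ 1 f = f := by
  funext q
  simp [Tf, coc_one]

lemma Tf_mul (g₁ g₂ : H) (f : H ⧸ K → E) : Tf K ρ g₁ (Tf K ρ g₂ f) = Tf K ρ (g₁ * g₂) f := by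
  funext q
  simp only [Tf]
  rw [← coc_mul, map_mul, mul_inv_rev, ← smul_smul]
  rfl

lemma Tf_norm (g : H) (f : H ⧸ K → E) (q : H ⧸ K) : ‖Tf K ρ g f q‖ = ‖f (g⁻¹ • q)‖ :=
  LinearIsometryEquiv.norm_map _ _

lemma two_pos' : 0 < (2 : ℝ≥0∞).toReal := by norm_num

lemma Tf_mem (g : H) {f : H ⧸ K → E} (hf : Memℓp f 2) : Memℓp (Tf K ρ g f) 2 := by
  rw [memℓp_gen_iff two_pos'] at hf ⊢
  simp only [Tf_norm]
  exact (MulAction.toPerm (g⁻¹ : H)).summable_iff.2 hf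

/-- the induced action on the Hilbert space -/
noncomputable def Tl (g : H) : lp (fun _ : H ⧸ K => E) 2 →ₗ[ℂ] lp (fun _ : H ⧸ K => E) 2 where
  toFun f := ⟨Tf K ρ g f, Tf_mem K ρ g f.2⟩
  map_add' f f' := by
    ext q
    simp [Tf]
  map_smul' c f := by
    ext q
    simp [Tf]

lemma Tl_apply (g : H) (f : lp (fun _ : H ⧸ K => E) 2) (q : H ⧸ K) :
    Tl K ρ g f q = ρ (coc K g q) (f (g⁻¹ • q)) := rfl

lemma Tl_norm (g : H) (f : lp (fun _ : H ⧸ K => E) 2) : ‖Tl K ρ g f‖ = ‖f‖ := by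
  rw [lp.norm_eq_tsum_rpow two_pos', lp.norm_eq_tsum_rpow two_pos']
  congr 1
  have h : ∀ q, ‖Tl K ρ g f q‖ = ‖f (g⁻¹ • q)‖ := fun q => Tf_norm K ρ g f q
  simp only [h]
  exact (MulAction.toPerm (g⁻¹ : H)).tsum_eq (fun q => ‖f q‖ ^ (2 : ℝ≥0∞).toReal)

lemma Tl_mul (g₁ g₂ : H) (f : lp (fun _ : H ⧸ K => E) 2) :
    Tl K ρ g₁ (Tl K ρ g₂ f) = Tl K ρ (g₁ * g₂) f := by
  ext1
  exact Tf_mul K ρ g₁ g₂ f

lemma Tl_one (f : lp (fun _ : H ⧸ K => E) 2) : Tl K ρ 1 f = f := by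
  ext1
  exact Tf_one K ρ f

/-- the induced representation -/
noncomputable def ind : H →* (lp (fun _ : H ⧸ K => E) 2 ≃ₗᵢ[ℂ] lp (fun _ : H ⧸ K => E) 2) where
  toFun g :=
    { Tl K ρ g with
      invFun := Tl K ρ g⁻¹
      left_inv := fun f => by
        show Tl K ρ g⁻¹ (Tl K ρ g f) = f
        rw [Tl_mul, inv_mul_cancel, Tl_one]
      right_inv := fun f => by
        show Tl K ρ g (Tl K ρ g⁻¹ f) = f
        rw [Tl_mul, mul_inv_cancel, Tl_one]
      norm_map' := Tl_norm K ρ g }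
  map_one' := by
    ext1 f
    exact Tl_one K ρ f
  map_mul' g₁ g₂ := by
    ext1 f
    exact (Tl_mul K ρ g₁ g₂ f).symm

lemma ind_apply (g : H) (f : lp (fun _ : H ⧸ K => E) 2) : ind K ρ g f = Tl K ρ g f := rfl

lemma inv_smul_base (k : K) : ((k : H)⁻¹ • ((1 : H) : H ⧸ K)) = ((1 : H) : H ⧸ K) := by
  have : ((k : H)⁻¹ • ((1 : H) : H ⧸ K)) = (((k : H)⁻¹ * 1 : H) : H ⧸ K) := rfl
  rw [this, QuotientGroup.eq]
  simp

lemma secb_mem : sec K ((1 : H) : H ⧸ K) ∈ K := by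
  have h := mk_sec K ((1 : H) : H ⧸ K)
  rw [QuotientGroup.eq] at h
  simpa using h

/-- the embedding at the base point -/
noncomputable def J (x : E) : lp (fun _ : H ⧸ K => E) 2 := by
  classical
  exact lp.single 2 ((1 : H) : H ⧸ K) (ρ (⟨sec K ((1 : H) : H ⧸ K), secb_mem K⟩⁻¹ : K) x)

lemma J_norm (x : E) : ‖J K ρ x‖ = ‖x‖ := by
  classical
  rw [J, lp.norm_single (by norm_num)]
  exact LinearIsometryEquiv.norm_map _ _

lemma J_add (x y : E) : J K ρ (x + y) = J K ρ x + J K ρ y := by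
  classical
  rw [J, J, J, map_add]
  exact map_add (lp.lsingle (𝕜 := ℂ) (E := fun _ : H ⧸ K => E) 2 _) _ _

lemma J_smul (c : ℂ) (x : E) : J K ρ (c • x) = c • J K ρ x := by
  classical
  rw [J, J, map_smul]
  exact map_smul (lp.lsingle (𝕜 := ℂ) (E := fun _ : H ⧸ K => E) 2 _) _ _

lemma ind_J (k : K) (x : E) : ind K ρ (k : H) (J K ρ x) = J K ρ (ρ k x) := by
  classical
  ext q
  rw [ind_apply, Tl_apply]
  by_cases hq : q = ((1 : H) : H ⧸ K)
  · subst hq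
    rw [inv_smul_base, J, J, lp.single_apply_self, lp.single_apply_self]
    have h1 : ∀ a b : K, ρ a (ρ b x) = ρ (a * b) x := fun a b => by rw [map_mul]; rfl
    rw [h1, h1]
    congr 2
    ext
    simp only [coc, Subgroup.coe_mul, inv_smul_base]
    simp only [Subgroup.coe_inv]
    group
  · have h2 : ((k : H)⁻¹ • q) ≠ ((1 : H) : H ⧸ K) := by
      intro h
      apply hq
      have h3 := congrArg (fun z => (k : H) • z) h
      simp only [smul_inv_smul] at h3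
      rw [h3]
      have := inv_smul_base K (k⁻¹)
      simpa using this
    rw [J, J, lp.single_apply_ne _ _ _ h2, lp.single_apply_ne _ _ _ hq, map_zero]

end ind

end Pool.Agent.R644.UG
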