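import Pool.Agent.R644.UGCont
import Pool.Agent.R644.UGInd

set_option autoImplicit false

universe u v w

open Metric Set

namespace Pool.Agent.R644.UG

section basics

variable {G : Type u} [Group G] {A : Type v} [CStarAlgebra A]

lemma ext_single (π : G →* unitary A) (g : G) (c : ℂ) :
    ext π (MonoidAlgebra.single g c) = c • (π g : A) := by
  rw [ext, MonoidAlgebra.lift_single]
  rfl

/-- push forward along a homomorphism -/
noncomputable def push {F : Type w} [Group F] (θ : F →* G) : MonoidAlgebra ℂ F →ₐ[ℂ] MonoidAlgebra ℂ G :=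
  MonoidAlgebra.lift ℂ _ F ((MonoidAlgebra.of ℂ G).comp θ)

lemma push_single {F : Type w} [Group F] (θ : F →* G) (g : F) (c : ℂ) :
    push θ (MonoidAlgebra.single g c) = MonoidAlgebra.single (θ g) c := by
  rw [push, MonoidAlgebra.lift_single]
  simp [MonoidAlgebra.of_apply]

lemma ext_push {F : Type w} [Group F] (θ : F →* G) (π : G →* unitary A) (f : MonoidAlgebra ℂ F) :
    ext π (push θ f) = ext (π.comp θ) f := by
  induction f using MonoidAlgebra.induction_linear with
  | zero => simp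
  | add f g hf hg => rw [map_add, map_add, map_add, hf, hg]
  | single g c => rw [push_single, ext_single, ext_single]; rfl

lemma push_push {F : Type w} [Group F] {F' : Type v} [Group F'] (θ : F →* G) (η : F' →* F)
    (f : MonoidAlgebra ℂ F') : push θ (push η f) = push (θ.comp η) f := by
  induction f using MonoidAlgebra.induction_linear with
  | zero => simp
  | add f g hf hg => rw [map_add, map_add, map_add, hf, hg]
  | single g c => rw [push_single, push_single, push_single]; rfl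

lemma norm_unitary_le (a : unitary A) : ‖(a : A)‖ ≤ 1 := by
  rcases subsingleton_or_nontrivial A with h | h
  · rw [Subsingleton.elim (a : A) 0, norm_zero]
    exact zero_le_one
  · exact (CStarRing.norm_coe_unitary a).le

lemma ext_bdd (x : MonoidAlgebra ℂ G) :
    ∃ M : ℝ, 0 ≤ M ∧ ∀ (A : Type v) [CStarAlgebra A] (π : G →* unitary A), ‖ext π x‖ ≤ M := by
  induction x using MonoidAlgebra.induction_linear with
  | zero => exact ⟨0, le_refl _, fun A _ π => by simp⟩
  | add f g hf hg =>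
    obtain ⟨M1, h1, h2⟩ := hf
    obtain ⟨M2, k1, k2⟩ := hg
    refine ⟨M1 + M2, by positivity, fun A _ π => ?_⟩
    rw [map_add]
    exact (norm_add_le _ _).trans (add_le_add (h2 A π) (k2 A π))
  | single g c =>
    refine ⟨‖c‖, norm_nonneg _, fun A _ π => ?_⟩
    rw [ext_single, norm_smul]
    exact mul_le_of_le_one_right (norm_nonneg _) (norm_unitary_le _)

/-- a representation by isometries as a representation by unitary operators -/
noncomputable def toU {K : Type v} [NormedAddCommGroup K] [InnerProductSpace ℂ K] [CompleteSpace K]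
    (π : G →* (K ≃ₗᵢ[ℂ] K)) : G →* unitary (K →L[ℂ] K) :=
  (Unitary.linearIsometryEquiv (𝕜 := ℂ) (H := K)).symm.toMonoidHom.comp π

/-- the converse -/
noncomputable def ofU {K : Type v} [NormedAddCommGroup K] [InnerProductSpace ℂ K] [CompleteSpace K]
    (π : G →* unitary (K →L[ℂ] K)) : G →* (K ≃ₗᵢ[ℂ] K) :=
  (Unitary.linearIsometryEquiv (𝕜 := ℂ) (H := K)).toMonoidHom.comp π

lemma act_zero {K : Type v} [NormedAddCommGroup K] [InnerProductSpace ℂ K]
    (π : G →* (K ≃ₗᵢ[ℂ] K)) (v : K) : act π (0 : MonoidAlgebra ℂ G) v = 0 := by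
  simp [act]

lemma act_add {K : Type v} [NormedAddCommGroup K] [InnerProductSpace ℂ K]
    (π : G →* (K ≃ₗᵢ[ℂ] K)) (x y : MonoidAlgebra ℂ G) (v : K) :
    act π (x + y) v = act π x v + act π y v := by
  rw [act, act, act, MonoidAlgebra.coeff_add]
  exact Finsupp.sum_add_index' (fun _ => zero_smul _ _) fun _ _ _ => add_smul _ _ _

lemma act_single {K : Type v} [NormedAddCommGroup K] [InnerProductSpace ℂ K]
    (π : G →* (K ≃ₗᵢ[ℂ] K)) (g : G) (c : ℂ) (v : K) :
    act π (MonoidAlgebra.single g c) v = c • π g v := by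
  rw [act]
  exact Finsupp.sum_single_index (zero_smul _ _)

lemma ext_toU {K : Type v} [NormedAddCommGroup K] [InnerProductSpace ℂ K] [CompleteSpace K]
    (π : G →* (K ≃ₗᵢ[ℂ] K)) (x : MonoidAlgebra ℂ G) (v : K) :
    (ext (A := K →L[ℂ] K) (toU π) x) v = act π x v := by
  induction x using MonoidAlgebra.induction_linear with
  | zero => rw [act_zero, map_zero]; simp
  | add x y hx hy =>
    rw [act_add, map_add, ← hx, ← hy]
    simp
  | single g c =>
    rw [act_single, ext_single]
    rfl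

lemma ext_ofU {K : Type v} [NormedAddCommGroup K] [InnerProductSpace ℂ K] [CompleteSpace K]
    (π : G →* unitary (K →L[ℂ] K)) (x : MonoidAlgebra ℂ G) (v : K) :
    (ext (A := K →L[ℂ] K) π x) v = act (ofU π) x v := by
  rw [← ext_toU]
  rfl

lemma act_le_univNorm (x : MonoidAlgebra ℂ G) (K : Type u) [NormedAddCommGroup K]
    [InnerProductSpace ℂ K] [CompleteSpace K] (π : G →* (K ≃ₗᵢ[ℂ] K)) (v : K) (hv : ‖v‖ ≤ 1) :
    ‖act π x v‖ ≤ univNorm x := by
  obtain ⟨M, hM0, hM⟩ := ext_bdd.{u, u} x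
  refine le_csSup ⟨M, ?_⟩ ⟨K, inferInstance, inferInstance, inferInstance, π, v, hv, rfl⟩
  rintro r ⟨K', i1, i2, i3, π', v', hv', rfl⟩
  rw [← ext_toU]
  refine (ContinuousLinearMap.le_opNorm (ext (A := K' →L[ℂ] K') (toU π') x) v').trans ?_
  have h1 : ‖ext (A := K' →L[ℂ] K') (toU π') x‖ ≤ M := hM (K' →L[ℂ] K') (toU π')
  exact (mul_le_mul h1 hv' (norm_nonneg _) hM0).trans (mul_one _).le

lemma le_univNorm (x : MonoidAlgebra ℂ G) (K : Type u) [NormedAddCommGroup K]
    [InnerProductSpace ℂ K] [CompleteSpace K] (π : G →* unitary (K →L[ℂ] K)) :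
    ‖ext π x‖ ≤ univNorm x := by
  have h0 : 0 ≤ univNorm x := by
    have := act_le_univNorm x K (ofU π) 0 (by simp)
    exact (norm_nonneg _).trans this
  refine ContinuousLinearMap.opNorm_le_bound _ h0 fun v => ?_
  by_cases hv : v = 0
  · simp [hv]
  have hv0 : 0 < ‖v‖ := norm_pos_iff.2 hv
  have h1 := act_le_univNorm x K (ofU π) (((‖v‖⁻¹ : ℝ) : ℂ) • v) (by
    rw [norm_smul, Complex.norm_real, norm_inv, norm_norm, inv_mul_cancel₀ hv0.ne'])
  rw [← ext_ofU, map_smul, norm_smul, Complex.norm_real, norm_inv, norm_norm] at h1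
  rw [inv_mul_le_iff₀ hv0] at h1
  rw [mul_comm]
  exact h1

lemma univNorm_nonneg (x : MonoidAlgebra ℂ G) : 0 ≤ univNorm x := by
  refine Real.sSup_nonneg ?_
  rintro r ⟨K', i1, i2, i3, π', v', hv', rfl⟩
  exact norm_nonneg _

end basics

section words

variable {G H : Type u} [Group G] [Group H]

/-- a representation restricted to the words in a tuple can be induced -/
lemma exists_induced {p : ℕ} {a : Fin p → G} {b : Fin p → H} (hab : SameWords a b)
    (E : Type u) [NormedAddCommGroup E] [InnerProductSpace ℂ E] [CompleteSpace E]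
    (π : G →* unitary (E →L[ℂ] E)) :
    ∃ (K : Type u) (_ : NormedAddCommGroup K) (_ : InnerProductSpace ℂ K)
      (_ : CompleteSpace K) (σ : H →* unitary (K →L[ℂ] K)),
      ∀ f : MonoidAlgebra ℂ (FreeGroup (Fin p)),
        ‖ext (π.comp (FreeGroup.lift a)) f‖ ≤ ‖ext (σ.comp (FreeGroup.lift b)) f‖ := by
  let L : Subgroup H := (FreeGroup.lift b).range
  have hs : Function.Surjective (FreeGroup.lift b).rangeRestrict := MonoidHom.rangeRestrict_surjective _
  have hker : (FreeGroup.lift b).rangeRestrict.ker ≤ (π.comp (FreeGroup.lift a)).ker := by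
    intro w hw
    rw [MonoidHom.ker_rangeRestrict, MonoidHom.mem_ker] at hw
    rw [MonoidHom.mem_ker, MonoidHom.comp_apply, (hab w).2 hw, map_one]
  let ρ0 : L →* unitary (E →L[ℂ] E) :=
    (FreeGroup.lift b).rangeRestrict.liftOfSurjective hs ⟨π.comp (FreeGroup.lift a), hker⟩
  have hρ0 : ∀ w, ρ0 ((FreeGroup.lift b).rangeRestrict w) = π (FreeGroup.lift a w) := fun w =>
    MonoidHom.liftOfRightInverse_comp_apply _ _ _ ⟨π.comp (FreeGroup.lift a), hker⟩ w
  let ρ : L →* (E ≃ₗᵢ[ℂ] E) := (Unitary.linearIsometryEquiv (𝕜 := ℂ) (H := E)).toMonoidHom.comp ρ0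
  let σ : H →* unitary (lp (fun _ : H ⧸ L => E) 2 →L[ℂ] lp (fun _ : H ⧸ L => E) 2) :=
    (Unitary.linearIsometryEquiv (𝕜 := ℂ) (H := lp (fun _ : H ⧸ L => E) 2)).symm.toMonoidHom.comp
      (ind L ρ)
  refine ⟨lp (fun _ : H ⧸ L => E) 2, inferInstance, inferInstance, inferInstance, σ, fun f => ?_⟩
  have key : ∀ x : E, ext (σ.comp (FreeGroup.lift b)) f (J L ρ x) =
      J L ρ (ext (π.comp (FreeGroup.lift a)) f x) := by
    intro x
    induction f using MonoidAlgebra.induction_linear with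
    | zero =>
      have h0 : J L ρ (0 : E) = 0 := by
        have := J_smul L ρ 0 (0 : E)
        simpa using this
      simp [h0]
    | add f g hf hg =>
      rw [map_add, map_add]
      show ext (σ.comp (FreeGroup.lift b)) f (J L ρ x) + ext (σ.comp (FreeGroup.lift b)) g (J L ρ x) =
        J L ρ (ext (π.comp (FreeGroup.lift a)) f x + ext (π.comp (FreeGroup.lift a)) g x)
      rw [hf, hg, J_add]
    | single w c =>
      rw [ext_single, ext_single]
      show c • ind L ρ (FreeGroup.lift b w) (J L ρ x) =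
        J L ρ (c • ((π (FreeGroup.lift a w) : E →L[ℂ] E) x))
      rw [J_smul]
      congr 1
      have h1 := ind_J L ρ ((FreeGroup.lift b).rangeRestrict w) x
      have h2 : ρ ((FreeGroup.lift b).rangeRestrict w) x = (π (FreeGroup.lift a w) : E →L[ℂ] E) x := by
        rw [← hρ0]
        rfl
      rw [h2] at h1
      exact h1
  refine ContinuousLinearMap.opNorm_le_bound _ (norm_nonneg _) fun x => ?_
  rw [← J_norm L ρ, ← key x]
  refine (ContinuousLinearMap.le_opNorm _ _).trans (le_of_eq ?_)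
  rw [J_norm]

lemma univNorm_push_le {p : ℕ} {a : Fin p → G} {b : Fin p → H} (hab : SameWords a b)
    (f : MonoidAlgebra ℂ (FreeGroup (Fin p))) :
    univNorm (push (FreeGroup.lift a) f) ≤ univNorm (push (FreeGroup.lift b) f) := by
  refine Real.sSup_le ?_ (univNorm_nonneg _)
  rintro r ⟨E, i1, i2, i3, π, v, hv, rfl⟩
  obtain ⟨K, j1, j2, j3, σ, hσ⟩ := exists_induced hab E (toU π)
  rw [← ext_toU]
  refine (ContinuousLinearMap.le_opNorm _ _).trans ?_
  refine (mul_le_of_le_one_right (norm_nonneg _) hv).trans ?_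
  rw [ext_push]
  refine (hσ f).trans ?_
  rw [← ext_push]
  exact le_univNorm _ K σ

lemma SameWords.symm {p : ℕ} {a : Fin p → G} {b : Fin p → H} (hab : SameWords a b) :
    SameWords b a := fun w => (hab w).symm

lemma univNorm_push_eq {p : ℕ} {a : Fin p → G} {b : Fin p → H} (hab : SameWords a b)
    (f : MonoidAlgebra ℂ (FreeGroup (Fin p))) :
    univNorm (push (FreeGroup.lift a) f) = univNorm (push (FreeGroup.lift b) f) :=
  le_antisymm (univNorm_push_le hab f) (univNorm_push_le hab.symm f)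

end words

section tuples

variable {G : Type u} [Group G]

/-- inclusion of the words in the first variables -/
def incl (p q : ℕ) : FreeGroup (Fin p) →* FreeGroup (Fin (p + q)) := FreeGroup.map (Fin.castAdd q)

/-- inclusion of the words in the last variables -/
def incr (p q : ℕ) : FreeGroup (Fin q) →* FreeGroup (Fin (p + q)) := FreeGroup.map (Fin.natAdd p)

lemma lift_incl {p q : ℕ} (a : Fin p → G) (c : Fin q → G) :
    (FreeGroup.lift (Fin.append a c)).comp (incl p q) = FreeGroup.lift a := by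
  apply FreeGroup.ext_hom
  intro i
  simp [incl]

lemma lift_incr {p q : ℕ} (a : Fin p → G) (c : Fin q → G) :
    (FreeGroup.lift (Fin.append a c)).comp (incr p q) = FreeGroup.lift c := by
  apply FreeGroup.ext_hom
  intro i
  simp [incr]

lemma exists_words (z : MonoidAlgebra ℂ G) :
    ∃ (q : ℕ) (c : Fin q → G) (h : MonoidAlgebra ℂ (FreeGroup (Fin q))),
      z = push (FreeGroup.lift c) h := by
  induction z using MonoidAlgebra.induction_linear with
  | zero => exact ⟨0, Fin.elim0, 0, by simp⟩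
  | add f g hf hg =>
    obtain ⟨q1, c1, h1, rfl⟩ := hf
    obtain ⟨q2, c2, h2, rfl⟩ := hg
    refine ⟨q1 + q2, Fin.append c1 c2, push (incl q1 q2) h1 + push (incr q1 q2) h2, ?_⟩
    rw [map_add, push_push, push_push, lift_incl, lift_incr]
  | single g c =>
    refine ⟨1, fun _ => g, MonoidAlgebra.single (FreeGroup.of 0) c, ?_⟩
    rw [push_single, FreeGroup.lift_apply_of]

end tuples

section games

variable {G H : Type u} [Group G] [Group H]

lemma SameWords.of_append {p q : ℕ} {a : Fin p → G} {b : Fin p → H} {c : Fin q → G} {d : Fin q → H}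
    (h : SameWords (Fin.append a c) (Fin.append b d)) : SameWords a b := by
  intro w
  have h1 := h (incl p q w)
  have e1 : FreeGroup.lift (Fin.append a c) (incl p q w) = FreeGroup.lift a w := by
    rw [← lift_incl a c]; rfl
  have e2 : FreeGroup.lift (Fin.append b d) (incl p q w) = FreeGroup.lift b w := by
    rw [← lift_incl b d]; rfl
  rwa [e1, e2] at h1

lemma BF.same {k : ℕ} : ∀ {p : ℕ} {a : Fin p → G} {b : Fin p → H}, BF k a b → SameWords a b := by
  induction k with
  | zero => intro p a b h; exact h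
  | succ k ih =>
    intro p a b h
    obtain ⟨d, hd⟩ := h.1 0 Fin.elim0
    exact (ih hd).of_append

end games

section main

variable {G H : Type u} [Group G] [Group H] {A : Type v} [CStarAlgebra A] {B : Type w} [CStarAlgebra B]

lemma exists_star (π : G →* unitary A) (κ : G →* unitary B) (f : MonoidAlgebra ℂ G) :
    ∃ f' : MonoidAlgebra ℂ G, ext π f' = star (ext π f) ∧ ext κ f' = star (ext κ f) := by
  induction f using MonoidAlgebra.induction_linear with
  | zero => exact ⟨0, by simp, by simp⟩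
  | add f g hf hg =>
    obtain ⟨f', h1, h2⟩ := hf
    obtain ⟨g', k1, k2⟩ := hg
    exact ⟨f' + g', by rw [map_add, map_add, star_add, h1, k1], by
      rw [map_add, map_add, star_add, h2, k2]⟩
  | single g c =>
    refine ⟨MonoidAlgebra.single g⁻¹ (star c), ?_, ?_⟩
    · rw [ext_single, ext_single, star_smul, map_inv]
      rfl
    · rw [ext_single, ext_single, star_smul, map_inv]
      rfl

lemma Tm.exists_ext (π : G →* unitary A) (κ : G →* unitary B) {n : ℕ} (t : Tm n)
    (f : Fin n → MonoidAlgebra ℂ G) :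
    ∃ F : MonoidAlgebra ℂ G, t.val A (fun i => ext π (f i)) = ext π F ∧
      t.val B (fun i => ext κ (f i)) = ext κ F := by
  induction t with
  | var i => exact ⟨f i, rfl, rfl⟩
  | one => exact ⟨1, by simp [Tm.val], by simp [Tm.val]⟩
  | add s t hs ht =>
    obtain ⟨F1, h1, h2⟩ := hs
    obtain ⟨F2, k1, k2⟩ := ht
    exact ⟨F1 + F2, by rw [Tm.val, h1, k1, map_add], by rw [Tm.val, h2, k2, map_add]⟩
  | mul s t hs ht =>
    obtain ⟨F1, h1, h2⟩ := hs
    obtain ⟨F2, k1, k2⟩ := ht
    exact ⟨F1 * F2, by rw [Tm.val, h1, k1, map_mul], by rw [Tm.val, h2, k2, map_mul]⟩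
  | adj s hs =>
    obtain ⟨F1, h1, h2⟩ := hs
    obtain ⟨F', k1, k2⟩ := exists_star π κ F1
    exact ⟨F', by rw [Tm.val, h1, k1], by rw [Tm.val, h2, k2]⟩
  | scal c s hs =>
    obtain ⟨F1, h1, h2⟩ := hs
    exact ⟨c • F1, by rw [Tm.val, h1, map_smul], by rw [Tm.val, h2, map_smul]⟩

/-- the group algebra is dense in the balls -/
lemma IsUniversal.approx {ι : G →* unitary A} (hA : IsUniversal G A ι) {r : ℕ} {y : A}
    (hy : ‖y‖ ≤ r) {δ : ℝ} (hδ : 0 < δ) :
    ∃ z : MonoidAlgebra ℂ G, ‖ext ι z‖ ≤ r ∧ ‖y - ext ι z‖ < δ := by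
  set η : ℝ := δ / 3 with hη
  have hη0 : 0 < η := by positivity
  obtain ⟨z0, hz0⟩ := hA.dense.exists_dist_lt y hη0
  rw [dist_eq_norm] at hz0
  have hr0 : (0 : ℝ) ≤ r := Nat.cast_nonneg r
  have hz1 : ‖ext ι z0‖ ≤ r + η := by
    have : ext ι z0 = y - (y - ext ι z0) := by abel
    rw [this]
    exact (norm_sub_le _ _).trans (add_le_add hy hz0.le)
  set s : ℝ := r / (r + η) with hs
  have hs0 : 0 ≤ s := by positivity
  refine ⟨(s : ℂ) • z0, ?_, ?_⟩
  · rw [map_smul, norm_smul, Complex.norm_real, Real.norm_of_nonneg hs0]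
    calc s * ‖ext ι z0‖ ≤ s * (r + η) := mul_le_mul_of_nonneg_left hz1 hs0
      _ = r := by rw [hs]; field_simp
  · have e : y - ext ι ((s : ℂ) • z0) = (y - ext ι z0) + ((1 - s : ℝ) : ℂ) • ext ι z0 := by
      rw [map_smul]
      push_cast
      rw [sub_smul, one_smul]
      abel
    have h1s : 1 - s = η / (r + η) := by
      rw [hs]; field_simp; ring
    have h1s0 : 0 ≤ 1 - s := by rw [h1s]; positivity
    rw [e]
    calc ‖(y - ext ι z0) + ((1 - s : ℝ) : ℂ) • ext ι z0‖
        ≤ ‖y - ext ι z0‖ + ‖((1 - s : ℝ) : ℂ) • ext ι z0‖ := norm_add_le _ _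
      _ ≤ η + (1 - s) * (r + η) := by
          refine add_le_add hz0.le ?_
          rw [norm_smul, Complex.norm_real, Real.norm_of_nonneg h1s0]
          exact mul_le_mul_of_nonneg_left hz1 h1s0
      _ = 2 * η := by rw [h1s]; field_simp; ring
      _ < δ := by rw [hη]; linarith

/-- quantifier depth -/
def Fm.qd : {n : ℕ} → Fm n → ℕ
  | _, .nrm _ => 0
  | _, .conn _ φ => Finset.univ.sup fun i => (φ i).qd
  | _, .sup _ φ => φ.qd + 1
  | _, .inf _ φ => φ.qd + 1

/-- one half of the back-and-forth step -/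
lemma step {ι : G →* unitary A} {κ : H →* unitary B} (hA : IsUniversal G A ι)
    (hB : IsUniversal H B κ) {n p : ℕ} (φ : Fm (n + 1)) (r : ℕ) (a : Fin p → G) (b : Fin p → H)
    (f : Fin n → MonoidAlgebra ℂ (FreeGroup (Fin p)))
    (hstep : ∀ (q : ℕ) (c : Fin q → G), ∃ d : Fin q → H,
      SameWords (Fin.append a c) (Fin.append b d) ∧
      ∀ g : Fin (n + 1) → MonoidAlgebra ℂ (FreeGroup (Fin (p + q))),
        φ.val A (fun i => ext ι (push (FreeGroup.lift (Fin.append a c)) (g i))) =
        φ.val B (fun i => ext κ (push (FreeGroup.lift (Fin.append b d)) (g i))))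
    (y : {y : A // ‖y‖ ≤ r}) (ε : ℝ) (hε : 0 < ε) :
    ∃ y' : {y : B // ‖y‖ ≤ r},
      |φ.val A (Fin.cons y.1 fun i => ext ι (push (FreeGroup.lift a) (f i))) -
        φ.val B (Fin.cons y'.1 fun i => ext κ (push (FreeGroup.lift b) (f i)))| ≤ ε := by
  set x : Fin n → A := fun i => ext ι (push (FreeGroup.lift a) (f i)) with hx
  set x' : Fin n → B := fun i => ext κ (push (FreeGroup.lift b) (f i)) with hx'
  obtain ⟨-, hu⟩ := φ.uc A (max (r : ℝ) ‖x‖)
  obtain ⟨δ, hδ0, hδ⟩ := hu ε hε
  obtain ⟨z, hz1, hz2⟩ := hA.approx y.2 hδ0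
  obtain ⟨q, c, h, rfl⟩ := exists_words z
  obtain ⟨d, hsame, hval⟩ := hstep q c
  let g : Fin (n + 1) → MonoidAlgebra ℂ (FreeGroup (Fin (p + q))) :=
    Fin.cons (push (incr p q) h) fun i => push (incl p q) (f i)
  have hg := hval g
  have e1 : (fun i => ext ι (push (FreeGroup.lift (Fin.append a c)) (g i))) =
      Fin.cons (ext ι (push (FreeGroup.lift c) h)) x := by
    funext i
    refine Fin.cases ?_ (fun j => ?_) i
    · simp only [g, Fin.cons_zero]
      rw [push_push, lift_incr]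
    · simp only [g, Fin.cons_succ]
      rw [push_push, lift_incl]
  have e2 : (fun i => ext κ (push (FreeGroup.lift (Fin.append b d)) (g i))) =
      Fin.cons (ext κ (push (FreeGroup.lift d) h)) x' := by
    funext i
    refine Fin.cases ?_ (fun j => ?_) i
    · simp only [g, Fin.cons_zero]
      rw [push_push, lift_incr]
    · simp only [g, Fin.cons_succ]
      rw [push_push, lift_incl]
  rw [e1, e2] at hg
  have hnorm : ‖ext κ (push (FreeGroup.lift d) h)‖ ≤ r := by
    rw [hB.norm_eq]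
    rw [hA.norm_eq] at hz1
    have h1 := univNorm_push_eq hsame (push (incr p q) h)
    rw [push_push, push_push, lift_incr, lift_incr] at h1
    rw [← h1]
    exact hz1
  refine ⟨⟨ext κ (push (FreeGroup.lift d) h), hnorm⟩, ?_⟩
  rw [← hg]
  refine hδ _ _ (norm_cons_le y.2 (le_refl _)) (norm_cons_le hz1 (le_refl _)) ?_
  refine lt_of_le_of_lt ?_ hz2
  rw [pi_norm_le_iff_of_nonneg (norm_nonneg _)]
  intro i
  refine Fin.cases ?_ (fun j => ?_) i
  · simp
  · simp

theorem val_eq {ι : G →* unitary A} {κ : H →* unitary B} (hA : IsUniversal G A ι)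
    (hB : IsUniversal H B κ) {n : ℕ} (φ : Fm n) :
    ∀ (k : ℕ), φ.qd ≤ k → ∀ {p : ℕ} (a : Fin p → G) (b : Fin p → H), BF k a b →
      ∀ f : Fin n → MonoidAlgebra ℂ (FreeGroup (Fin p)),
        φ.val A (fun i => ext ι (push (FreeGroup.lift a) (f i))) =
        φ.val B (fun i => ext κ (push (FreeGroup.lift b) (f i))) := by
  have hstepf : ∀ (n : ℕ) (φ : Fm (n + 1)) (r : ℕ) (k : ℕ),
      (∀ {p : ℕ} (a : Fin p → G) (b : Fin p → H), BF k a b →
        ∀ f : Fin (n + 1) → MonoidAlgebra ℂ (FreeGroup (Fin p)),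
          φ.val A (fun i => ext ι (push (FreeGroup.lift a) (f i))) =
          φ.val B (fun i => ext κ (push (FreeGroup.lift b) (f i)))) →
      ∀ {p : ℕ} (a : Fin p → G) (b : Fin p → H), BF (k + 1) a b →
        ∀ f : Fin n → MonoidAlgebra ℂ (FreeGroup (Fin p)),
        (∀ (y : {y : A // ‖y‖ ≤ r}) (ε : ℝ), 0 < ε → ∃ y' : {y : B // ‖y‖ ≤ r},
          |φ.val A (Fin.cons y.1 fun i => ext ι (push (FreeGroup.lift a) (f i))) -
            φ.val B (Fin.cons y'.1 fun i => ext κ (push (FreeGroup.lift b) (f i)))| ≤ ε) ∧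
        (∀ (y' : {y : B // ‖y‖ ≤ r}) (ε : ℝ), 0 < ε → ∃ y : {y : A // ‖y‖ ≤ r},
          |φ.val A (Fin.cons y.1 fun i => ext ι (push (FreeGroup.lift a) (f i))) -
            φ.val B (Fin.cons y'.1 fun i => ext κ (push (FreeGroup.lift b) (f i)))| ≤ ε) := by
    intro n φ r k ih p a b hab f
    constructor
    · refine step hA hB φ r a b f fun q c => ?_
      obtain ⟨d, hd⟩ := hab.1 q c
      exact ⟨d, hd.same, fun g => ih _ _ hd g⟩
    · intro y' ε hε
      obtain ⟨y, hy⟩ := step hB hA φ r b a f (fun q d => by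
        obtain ⟨c, hc⟩ := hab.2 q d
        exact ⟨c, hc.same.symm, fun g => (ih _ _ hc g).symm⟩) y' ε hε
      exact ⟨y, by rw [abs_sub_comm]; exact hy⟩
  induction φ with
  | nrm t =>
    intro k _ p a b hab f
    obtain ⟨F, h1, h2⟩ := t.exists_ext (ι.comp (FreeGroup.lift a)) (κ.comp (FreeGroup.lift b)) f
    simp only [Fm.val, ext_push, h1, h2]
    rw [← ext_push, ← ext_push, hA.norm_eq, hB.norm_eq]
    exact univNorm_push_eq hab.same F
  | @conn n m c φ ih =>
    intro k hk p a b hab f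
    simp only [Fm.val]
    congr 1
    funext i
    have hi : (φ i).qd ≤ k :=
      (Finset.le_sup (f := fun i => (φ i).qd) (Finset.mem_univ i)).trans hk
    exact ih i k hi a b hab f
  | @sup n r φ ih =>
    intro k hk p a b hab f
    obtain ⟨k, rfl⟩ : ∃ k', k = k' + 1 := ⟨k - 1, by simp only [Fm.qd] at hk; omega⟩
    obtain ⟨h1, h2⟩ := hstepf n φ r k (ih k (by simp only [Fm.qd] at hk; omega)) a b hab f
    have hne : Nonempty {y : A // ‖y‖ ≤ r} := ⟨⟨0, by simp⟩⟩
    have hne' : Nonempty {y : B // ‖y‖ ≤ r} := ⟨⟨0, by simp⟩⟩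
    obtain ⟨⟨M, hM⟩, -⟩ := φ.uc A (max (r : ℝ) ‖fun i => ext ι (push (FreeGroup.lift a) (f i))‖)
    obtain ⟨⟨M', hM'⟩, -⟩ := φ.uc B (max (r : ℝ) ‖fun i => ext κ (push (FreeGroup.lift b) (f i))‖)
    exact iSup_eq_of_approx (M := M) (M' := M') (fun y => hM _ (norm_cons_le y.2 (le_refl _)))
      (fun y => hM' _ (norm_cons_le y.2 (le_refl _))) h1 h2
  | @inf n r φ ih =>
    intro k hk p a b hab f
    obtain ⟨k, rfl⟩ : ∃ k', k = k' + 1 := ⟨k - 1, by simp only [Fm.qd] at hk; omega⟩
    obtain ⟨h1, h2⟩ := hstepf n φ r k (ih k (by simp only [Fm.qd] at hk; omega)) a b hab f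
    have hne : Nonempty {y : A // ‖y‖ ≤ r} := ⟨⟨0, by simp⟩⟩
    have hne' : Nonempty {y : B // ‖y‖ ≤ r} := ⟨⟨0, by simp⟩⟩
    obtain ⟨⟨M, hM⟩, -⟩ := φ.uc A (max (r : ℝ) ‖fun i => ext ι (push (FreeGroup.lift a) (f i))‖)
    obtain ⟨⟨M', hM'⟩, -⟩ := φ.uc B (max (r : ℝ) ‖fun i => ext κ (push (FreeGroup.lift b) (f i))‖)
    exact iInf_eq_of_approx (M := M) (M' := M') (fun y => hM _ (norm_cons_le y.2 (le_refl _)))
      (fun y => hM' _ (norm_cons_le y.2 (le_refl _))) h1 h2

theorem elemEq_of_bf {ι : G →* unitary A} {κ : H →* unitary B} (hA : IsUniversal G A ι)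
    (hB : IsUniversal H B κ) (h : BFomega G H) : ElemEq A B := by
  intro φ
  have h1 := val_eq hA hB φ φ.qd (le_refl _) Fin.elim0 Fin.elim0 (h φ.qd) Fin.elim0
  have e1 : (fun i : Fin 0 => ext ι (push (FreeGroup.lift (Fin.elim0 : Fin 0 → G))
      ((Fin.elim0 : Fin 0 → MonoidAlgebra ℂ (FreeGroup (Fin 0))) i))) = (Fin.elim0 : Fin 0 → A) :=
    funext fun i => i.elim0
  have e2 : (fun i : Fin 0 => ext κ (push (FreeGroup.lift (Fin.elim0 : Fin 0 → H))
      ((Fin.elim0 : Fin 0 → MonoidAlgebra ℂ (FreeGroup (Fin 0))) i))) = (Fin.elim0 : Fin 0 → B) :=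
    funext fun i => i.elim0
  rw [e1, e2] at h1
  exact h1

end main

end Pool.Agent.R644.UG
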